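import Pool.Agent.Lib.TWCY.Core
import Pool.Agent.Lib.TWCT.GssF
import Pool.Agent.Lib.TWCT.J1S
import Pool.Agent.Lib.TWRR.D3
import Pool.Agent.Lib.TWTG.E

/-!
# CT, row A: from the real fields to the core and back, the data and the rows

Everything is in the big field. `Wr ≤ Fr ≤ Kr` are the images of the real fields, `W' ≤ F' ≤ K'` the
Gauss extensions of their tame closures.

* `Mn`: the exact monomials `M g * t * m`; `Grd`: the extension `K' / Kr` with a projection `π`;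
* `GLD`: the global data: `Grd`, `HD` for all real pairs, the base, the motions of the first floors;
* `US`: the intrinsic space `W₁`;
* the rows.
-/

set_option autoImplicit false

open MvPolynomial

namespace Pool.Agent.TWRA

open Pool.Agent.H15JM (RVal)
open Pool.Agent.LU1 (VPos)
open Pool.Agent.D2 (Ctx0)
open Pool.Agent.D2P (clI)
open Pool.Agent.TW (HRone)
open Pool.Agent.TWM
open Pool.Agent.TWS (IsoE SphC PM VG)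
open Pool.Agent.TWII (PG LP)
open Pool.Agent.TWN1 (Par Unh Nrm)
open Pool.Agent.TWTam (TR tam)
open Pool.Agent.TWRR (GP Prj)
open Pool.Agent.TWCT (SMo MovV MovR J1D tH RowA)
open Pool.Agent.TWLY
open Pool.Agent.TWCY

universe u

variable {k Ω : Type u} [Field k] [Field Ω] [Algebra k Ω]

/-! ### The grading -/

/-- The exact monomials. -/
def Mn (p : ℕ) (x : Ω) (W : IntermediateField k Ω) (G : AddSubgroup ℝ) (M : ℝ → Ω) : Set Ω :=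
  {c | ∃ g ∈ G, ∃ t ∈ TR p x, ∃ m ∈ W, m ≠ 0 ∧ c = M g * t * m}

/-- The extension `K' / Kr`, graded by `ℝ / VG Wr`: `S` is a group of homogeneous elements of `W'`
with all values, `π` the projection on the component of degree `0`. -/
structure Grd (p : ℕ) (v : RVal Ω) (Wr Fr Kr W' F' K' : IntermediateField k Ω) (S : Set Ω)
    (π : Ω → Ω) : Prop where
  prj : Prj p v Kr K' π
  prF : ∀ g ∈ F', π g ∈ Fr
  prW : ∀ g ∈ W', π g ∈ Wr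
  WF : Wr ≤ Fr
  FK : Fr ≤ Kr
  WW' : Wr ≤ W'
  FF' : Fr ≤ F'
  WF' : W' ≤ F'
  FK' : F' ≤ K'
  sub : ∀ c ∈ S, c ∈ W'
  ne : ∀ c ∈ S, c ≠ 0
  mul : ∀ c ∈ S, ∀ d ∈ S, c * d ∈ S
  inv : ∀ c ∈ S, c⁻¹ ∈ S
  bas : ∀ m ∈ Wr, m ≠ 0 → m ∈ S
  real : ∀ c ∈ S, v c ∈ VG v Wr → c ∈ Wr
  off : ∀ c ∈ S, v c ∉ VG v Wr → π c = 0
  all : ∀ r : ℝ, ∃ c ∈ S, v c = r
  pd : ∀ g ∈ VG v Wr, g / p ∈ VG v Wr
  /-- the homogeneous elements generate -/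
  dW : ∀ y ∈ W', ∀ r : ℝ, ∃ y₁ ∈ AddSubgroup.closure {y | ∃ q ∈ S, ∃ f ∈ Wr, y = q * f},
    v.Ge r (y - y₁)

/-- `GA1` (9): the grading exists. In the big field: `x ∈ Wr`, closed, `Wr ≤ Fr ≤ Kr` immediate, the
tame closures, `G` a complement of the values of the tame closure. -/
def RowGrd (p : ℕ) (v : RVal Ω) : Prop :=
  ∀ (x : Ω) (Wr Fr Kr : IntermediateField k Ω) (G : AddSubgroup ℝ) (M : ℝ → Ω), Ctx0 k v →
    CompleteV v → x ∈ Wr → x ≠ 0 → Cld v Wr → Cld v Fr → Cld v Kr → Wr ≤ Fr → Fr ≤ Kr →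
    Imm v Wr Kr → (∀ a ∈ Kr, IsAlgebraic Fr a → a ∈ Fr) → (∀ a ∈ Kr, IsAlgebraic Wr a → a ∈ Wr) →
    (∀ g ∈ VG v Wr, g / p ∈ VG v Wr) → MS v G M →
    (∀ g ∈ G, g ∈ VG v (tam p v x Wr) → g = 0) →
    (∀ r : ℝ, ∃ g ∈ G, r - g ∈ VG v (tam p v x Wr)) →
    ∃ π : Ω → Ω, Grd p v Wr Fr Kr (PM v (tam p v x Wr) G M) (PM v (tam p v x Fr) G M)
      (PM v (tam p v x Kr) G M) (Mn p x Wr G M) π

/-! ### The global data -/

/-- The global data, in the big field: `zr, ar, X₀` are real, `d, m, cx ∈ S`. -/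
structure GLD (p : ℕ) (v : RVal Ω) (L : ℕ → IntermediateField k Ω)
    (Wr Fr Kr W' F' K' : IntermediateField k Ω) (S : Set Ω) (π : Ω → Ω)
    (x z a zr ar X₀ d m cx : Ω) (D : Ω → Ω) : Prop where
  grd : Grd p v Wr Fr Kr W' F' K' S π
  zK : zr ∈ Kr
  aK : ar ∈ Kr
  XW : X₀ ∈ Wr
  dS : d ∈ S
  mS : m ∈ S
  cS : cx ∈ S
  z_eq : z = zr / d
  a_eq : a = ar / m ^ p
  x_eq : x = X₀ / cx ^ p
  zt : TL v Fr zr (v d)
  base : BaseD p v W' x D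
  /-- every real pair, normalised -/
  hd : ∀ (w : Fin 2 → Ω) (ρ : Fin 2 → ℝ), Par v Wr Fr (w 0) (ρ 0) (w 1) (ρ 1) →
    ∀ c : Fin 2 → Ω, (∀ i, c i ∈ S) → (∀ i, v (c i) = ρ i) →
      HD p v L W' F' K' (fun i => w i / c i) x z a
  /-- the first floors move -/
  mv : ∀ (w : Fin 2 → Ω) (ρ : Fin 2 → ℝ), Par v Wr Fr (w 0) (ρ 0) (w 1) (ρ 1) →
    ∀ c : Fin 2 → Ω, (∀ i, c i ∈ S) → (∀ i, v (c i) = ρ i) →
      MovV v L W' (w 0 / c 0) 0 ∨ MovR v L W' (w 0 / c 0) 0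

/-- `GA2`: the global data exist. -/
def RowGL (p : ℕ) {Ω₀ : Type u} [Field Ω₀] [Algebra k Ω₀] (v₀ : RVal Ω₀) (v : RVal Ω)
    (ι : Ω₀ →ₐ[k] Ω) : Prop :=
  ∀ (x₀ : Ω₀) (W₀ K₀ : IntermediateField k Ω₀) (al : Ω₀) (ν : ℝ) (F : IntermediateField k Ω₀)
    (w₁ w₂ z₀ : Ω₀) (r₁ r₂ s : ℝ), J1D p v₀ v ι x₀ W₀ K₀ al ν →
    Par v₀ (clI v₀ W₀) F w₁ r₁ w₂ r₂ → TL v₀ F z₀ s → clI v₀ K₀ = cadj v₀ F z₀ →
    ∃ (G : AddSubgroup ℝ) (M : ℝ → Ω) (L : ℕ → IntermediateField k Ω) (π : Ω → Ω)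
      (X₀ d m cx : Ω) (D : Ω → Ω), MS v G M ∧
      (∀ g ∈ G, g ∈ VG v (tH p v₀ ι x₀ (clI v₀ W₀)) → g = 0) ∧
      v d = s ∧ p * v m = ν ∧
      GLD p v L ((clI v₀ W₀).map ι) (F.map ι) ((clI v₀ K₀).map ι)
        (PM v (tH p v₀ ι x₀ (clI v₀ W₀)) G M) (PM v (tH p v₀ ι x₀ F) G M)
        (PM v (tH p v₀ ι x₀ (clI v₀ K₀)) G M) (Mn p (ι x₀) ((clI v₀ W₀).map ι) G M) π
        (X₀ / cx ^ p) (ι z₀ / d) (ι (al ^ p) / m ^ p) (ι z₀) (ι (al ^ p)) X₀ d m cx D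

/-! ### The intrinsic space `W₁` -/

/-- `F + O_0`. -/
def Z0 (v : RVal Ω) (F : IntermediateField k Ω) : Submodule k Ω :=
  Submodule.span k {y | ∃ f ∈ F, v.Ge 0 (y - f)}

/-- `{f ∈ F : ∂_i f strict} + O_0`. -/
def Z1 (v : RVal Ω) (F : IntermediateField k Ω) (dd : Fin 2 → Ω → Ω) : Submodule k Ω :=
  Submodule.span k {y | ∃ f ∈ F, (∀ i, Gt v 0 (dd i f)) ∧ v.Ge 0 (y - f)}

open Classical in
/-- The intrinsic space: the polynomials `c ↦ lam (T_c z - z)`, `lam = 0` on `F + O_0` if `e = 0`, on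
`{f ∈ F : ∂_i f strict} + O_0` if `e ≠ 0`. -/
noncomputable def US (v : RVal Ω) (F : IntermediateField k Ω) (T : (Fin 2 → k) → Ω →ₐ[k] Ω)
    (dd : Fin 2 → Ω → Ω) (z : Ω) (e : k) : Submodule k (MvPolynomial (Fin 2) k) :=
  TWTG.NU (if e = 0 then Z0 v F else Z1 v F dd) fun c => T c z - z

/-- `GA3`: **`W₁` is intrinsic** (83). -/
def RowWN (p : ℕ) (v : RVal Ω) : Prop :=
  ∀ (L : ℕ → IntermediateField k Ω) (W F K : IntermediateField k Ω) (w : Fin 2 → Ω) (x z a : Ω)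
    (R : Rec k Ω), CG p v L W F K w x z a R →
    R.WN = US v F R.T R.dd z R.e

/-- `GA4`: two records of the same `a` (two pairs, the same `z` modulo `F`): `e = 0` for both or for
none. -/
def RowE (p : ℕ) (v : RVal Ω) : Prop :=
  ∀ (L L' : ℕ → IntermediateField k Ω) (W F K : IntermediateField k Ω) (w w' : Fin 2 → Ω)
    (x z φ φ' a : Ω) (R R' : Rec k Ω), φ ∈ F → φ' ∈ F → CG p v L W F K w x (z - φ) a R →
    CG p v L' W F K w' x (z - φ') a R' → R.e = 0 → R'.e = 0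

/-- `GA5`: if `e ≠ 0`, the natural values of the `∂_i` at `z` are in `O_0`. -/
def RowHn (p : ℕ) (v : RVal Ω) : Prop :=
  ∀ (L : ℕ → IntermediateField k Ω) (W F K : IntermediateField k Ω) (w : Fin 2 → Ω) (x z a : Ω)
    (R : Rec k Ω), CG p v L W F K w x z a R → R.e ≠ 0 → ∀ i, NatV v F (R.dd i) z 0

/-- `GA6`: **the layer of a real element is graded**: `yr ∈ Kr` a limit of `Fr`, `d ∈ S`. -/
def RowGr0 (p : ℕ) (v : RVal Ω) : Prop :=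
  ∀ (Wr Fr Kr W' F' K' : IntermediateField k Ω) (S : Set Ω) (π : Ω → Ω) (w : Fin 2 → Ω)
    (ρ : Fin 2 → ℝ) (c : Fin 2 → Ω) (d yr : Ω) (s : ℝ) (T : (Fin 2 → k) → Ω →ₐ[k] Ω) (D : Ω → Ω)
    (dd : Fin 2 → Ω → Ω) (u : MvPolynomial (Fin 2) Ω) (e : k), Ctx0 k v →
    Grd p v Wr Fr Kr W' F' K' S π → Par v Wr Fr (w 0) (ρ 0) (w 1) (ρ 1) → (∀ i, c i ∈ S) →
    (∀ i, v (c i) = ρ i) → d ∈ S → v d = s → Lim v Fr s yr →
    Trn v W' F' (fun i => w i / c i) T → DrvT v W' F' (fun i => w i / c i) T D dd →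
    (∀ c : Fin 2 → k, v.Ge 0 (T c (yr / d) - yr / d - eval (pt c) u)) →
    ∀ N ∈ US v F' T dd (yr / d) e, ∀ γ : ℝ ⧸ VG v Wr,
      TWTG.cmp (fun i => (QuotientAddGroup.mk (ρ i) : ℝ ⧸ VG v Wr)) γ N ∈ US v F' T dd (yr / d) e

/-- `GA7`: **`W₁` is graded**. -/
def RowGr (p : ℕ) (v : RVal Ω) : Prop :=
  ∀ (L : ℕ → IntermediateField k Ω) (Wr Fr Kr W' F' K' : IntermediateField k Ω) (S : Set Ω)
    (π : Ω → Ω) (x z a zr ar X₀ d m cx : Ω) (D : Ω → Ω) (w : Fin 2 → Ω) (ρ : Fin 2 → ℝ)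
    (c : Fin 2 → Ω) (φ : Ω) (R : Rec k Ω),
    GLD p v L Wr Fr Kr W' F' K' S π x z a zr ar X₀ d m cx D →
    Par v Wr Fr (w 0) (ρ 0) (w 1) (ρ 1) → (∀ i, c i ∈ S) → (∀ i, v (c i) = ρ i) → φ ∈ F' →
    CG p v L W' F' K' (fun i => w i / c i) x (z - φ) a R →
    ∀ N ∈ R.WN, ∀ γ : ℝ ⧸ VG v Wr,
      TWTG.cmp (fun i => (QuotientAddGroup.mk (ρ i) : ℝ ⧸ VG v Wr)) γ N ∈ R.WN

/-- `GA8`: **a real pair without noise in the second variable**. -/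
def RowReal (p : ℕ) (v : RVal Ω) : Prop :=
  ∀ (L : ℕ → IntermediateField k Ω) (Wr Fr Kr W' F' K' : IntermediateField k Ω) (S : Set Ω)
    (π : Ω → Ω) (x z a zr ar X₀ d m cx : Ω) (D : Ω → Ω) (w : Fin 2 → Ω) (ρ : Fin 2 → ℝ),
    GLD p v L Wr Fr Kr W' F' K' S π x z a zr ar X₀ d m cx D →
    Par v Wr Fr (w 0) (ρ 0) (w 1) (ρ 1) →
    ∃ (w' : Fin 2 → Ω) (ρ' : Fin 2 → ℝ) (c : Fin 2 → Ω) (φ : Ω) (R : Rec k Ω),
      Par v Wr Fr (w' 0) (ρ' 0) (w' 1) (ρ' 1) ∧ (∀ i, c i ∈ S) ∧ (∀ i, v (c i) = ρ' i) ∧ φ ∈ F' ∧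
      CG p v L W' F' K' (fun i => w' i / c i) x (z - φ) a R ∧ NFree R

/-- `GA9` (13, J1E): **the end for a real pair**. -/
def RowJ1E (p : ℕ) {Ω₀ : Type u} [Field Ω₀] [Algebra k Ω₀] (v₀ : RVal Ω₀) (v : RVal Ω)
    (ι : Ω₀ →ₐ[k] Ω) : Prop :=
  ∀ (x₀ : Ω₀) (W₀ K₀ : IntermediateField k Ω₀) (al : Ω₀) (ν : ℝ) (F : IntermediateField k Ω₀)
    (w₁ w₂ z₀ : Ω₀) (r₁ r₂ s : ℝ), J1D p v₀ v ι x₀ W₀ K₀ al ν →
    Par v₀ (clI v₀ W₀) F w₁ r₁ w₂ r₂ → TL v₀ F z₀ s → clI v₀ K₀ = cadj v₀ F z₀ →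
    ∀ (G : AddSubgroup ℝ) (M : ℝ → Ω) (L : ℕ → IntermediateField k Ω) (π : Ω → Ω)
      (X₀ d m cx : Ω) (D : Ω → Ω), MS v G M →
      (∀ g ∈ G, g ∈ VG v (tH p v₀ ι x₀ (clI v₀ W₀)) → g = 0) → v d = s → p * v m = ν →
      GLD p v L ((clI v₀ W₀).map ι) (F.map ι) ((clI v₀ K₀).map ι)
        (PM v (tH p v₀ ι x₀ (clI v₀ W₀)) G M) (PM v (tH p v₀ ι x₀ F) G M)
        (PM v (tH p v₀ ι x₀ (clI v₀ K₀)) G M) (Mn p (ι x₀) ((clI v₀ W₀).map ι) G M) π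
        (X₀ / cx ^ p) (ι z₀ / d) (ι (al ^ p) / m ^ p) (ι z₀) (ι (al ^ p)) X₀ d m cx D →
      ∀ (c : Fin 2 → Ω) (φ : Ω) (R : Rec k Ω),
        (∀ i, c i ∈ Mn p (ι x₀) ((clI v₀ W₀).map ι) G M) → v (c 0) = r₁ → v (c 1) = r₂ →
        φ ∈ PM v (tH p v₀ ι x₀ F) G M →
        CG p v L (PM v (tH p v₀ ι x₀ (clI v₀ W₀)) G M) (PM v (tH p v₀ ι x₀ F) G M)
          (PM v (tH p v₀ ι x₀ (clI v₀ K₀)) G M) ![ι w₁ / c 0, ι w₂ / c 1] (X₀ / cx ^ p)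
          (ι z₀ / d - φ) (ι (al ^ p) / m ^ p) R →
        NFree R → False

/-! ### Row A -/

section

variable {p : ℕ} {Ω₀ : Type u} [Field Ω₀] [Algebra k Ω₀] {v₀ : RVal Ω₀} {v : RVal Ω}
  {ι : Ω₀ →ₐ[k] Ω}

theorem map_eq_iff {A B : IntermediateField k Ω₀} : A.map ι = B.map ι ↔ A = B := by
  constructor
  · intro h
    exact le_antisymm (Dense.map_le_map_iff.1 h.le) (Dense.map_le_map_iff.1 h.ge)
  · rintro rfl
    rfl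

theorem par_map [IsAlgClosed Ω₀] (hI : IsoE v₀ v ι) (hcv : CompleteV v₀) {C K : IntermediateField k Ω₀}
    {z₁ z₂ : Ω₀} {r₁ r₂ : ℝ} :
    Par v (C.map ι) (K.map ι) (ι z₁) r₁ (ι z₂) r₂ ↔ Par v₀ C K z₁ r₁ z₂ r₂ := by
  constructor
  · rintro ⟨h1, h2, h3, h4, h5, h6⟩
    rw [hI.cadj_map hcv] at h3 h4
    rw [hI.cadj_map hcv, hI.cadj_map hcv, map_eq_iff] at h5 h6
    exact ⟨hI.tl_iff.1 h1, hI.tl_iff.1 h2, hI.tl_iff.1 h3, hI.tl_iff.1 h4, h5, h6⟩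
  · rintro ⟨h1, h2, h3, h4, h5, h6⟩
    refine ⟨hI.tl_iff.2 h1, hI.tl_iff.2 h2, ?_, ?_, ?_, ?_⟩
    · rw [hI.cadj_map hcv]
      exact hI.tl_iff.2 h3
    · rw [hI.cadj_map hcv]
      exact hI.tl_iff.2 h4
    · rw [hI.cadj_map hcv, hI.cadj_map hcv, ← h5]
    · rw [hI.cadj_map hcv, hI.cadj_map hcv, ← h6]

/-- **Row A from the rows.** -/
theorem rowA_of_rows [IsAlgClosed Ω₀] (hI : IsoE v₀ v ι) (hcv : CompleteV v₀) (h1 : RowGL p v₀ v ι)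
    (h2 : RowReal (k := k) p v) (h3 : RowJ1E p v₀ v ι) (x₀ : Ω₀)
    (W₀ K₀ : IntermediateField k Ω₀) (al : Ω₀) : RowA p v₀ v ι x₀ W₀ K₀ al := by
  intro ν F w₁ w₂ z₀ r₁ r₂ s hJ hP hz hK
  obtain ⟨G, M, L, π, X₀, d, m, cx, D, hM, hG, hd, hm, hGL⟩ :=
    h1 x₀ W₀ K₀ al ν F w₁ w₂ z₀ r₁ r₂ s hJ hP hz hK
  obtain ⟨w', ρ', c, φ, R, hP', hc, hv, hφ, hCG, hNF⟩ := h2 _ _ _ _ _ _ _ _ _ _ _ _ _ _ _ _ _ _
    _ ![ι w₁, ι w₂] ![r₁, r₂] hGL ((par_map hI hcv).2 hP)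
  have hw : ∀ i, ∃ y ∈ F, ι y = w' i := by
    intro i
    fin_cases i
    · have h4 := hP'.eq2.ge (self_mem_cadj v _ (w' 0))
      exact h4
    · have h4 := hP'.eq1.ge (self_mem_cadj v _ (w' 1))
      exact h4
  choose y hy hyw using hw
  have e : w' = fun i => ι (y i) := funext fun i => (hyw i).symm
  have hP2 : Par v₀ (clI v₀ W₀) F (y 0) (ρ' 0) (y 1) (ρ' 1) := by
    rw [e] at hP'
    exact (par_map hI hcv).1 hP'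
  refine h3 x₀ W₀ K₀ al ν F (y 0) (y 1) z₀ (ρ' 0) (ρ' 1) s hJ hP2 hz hK G M L π X₀ d m cx D hM hG
    hd hm hGL c φ R hc (hv 0) (hv 1) hφ ?_ hNF
  have e2 : (![ι (y 0) / c 0, ι (y 1) / c 1] : Fin 2 → Ω) = fun i => w' i / c i := by
    rw [e]
    funext i
    fin_cases i
    · rfl
    · rfl
  rw [e2]
  exact hCG

end

end Pool.Agent.TWRA
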