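import Pool.Agent.Lib.TWRB.Fin
import Pool.Agent.Lib.TWRA.Defs

/-!
# CT, row A: the end for a real pair (`RowJ1E`)
-/

set_option autoImplicit false

open MvPolynomial

namespace Pool.Agent.TWRA

open Pool.Agent.H15JM (RVal)
open Pool.Agent.D2P (clI)
open Pool.Agent.TWM
open Pool.Agent.TWS (IsoE PM PM.cadj)
open Pool.Agent.TWCT (J1D tH)
open Pool.Agent.TWCY

universe u

variable {k Ω₀ Ω : Type u} [Field k] [Field Ω₀] [Algebra k Ω₀] [Field Ω] [Algebra k Ω] {p : ℕ}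
  {v₀ : RVal Ω₀} {v : RVal Ω} {ι : Ω₀ →ₐ[k] Ω} [hp : Fact p.Prime] [CharP Ω₀ p] [CharP Ω p]
  [CharP k p] [IsAlgClosed k] [IsAlgClosed Ω₀] [IsAlgClosed Ω]

/-- **The end for a real pair.** -/
theorem rowJ1E : RowJ1E p v₀ v ι := by
  intro x₀ W₀ K₀ al ν F w₁ w₂ z₀ r₁ r₂ s hJ hP hz hK G M L π X₀ d m cx D hM hdj hdv hmv hGL c φ R
    hc hc1 hc2 hφ hCG hNF
  obtain ⟨X₁, hX₁, rfl⟩ : ∃ X₁ ∈ clI v₀ W₀, ι X₁ = X₀ := hGL.XW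
  have ho := TWRB.outE_of_cg hCG hNF hφ
  have eC : cadj v (PM v (tH p v₀ ι x₀ (clI v₀ W₀)) G M)
      ((![ι w₁ / c 0, ι w₂ / c 1] : Fin 2 → Ω) 0) =
      PM v (tH p v₀ ι x₀ (cadj v₀ (clI v₀ W₀) w₁)) G M := by
    change cadj v (PM v (tH p v₀ ι x₀ (clI v₀ W₀)) G M) (ι w₁ / c 0) = _
    rw [TWCT.cadj_div (hGL.grd.sub _ (hc 0)) (hGL.grd.ne _ (hc 0)), ← PM.cadj,
      ← TWCT.tH_cadj hJ.iso hJ.cpl]
  rw [eC] at ho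
  exact TWRB.false_of_out hJ hP.t1 rfl hP.t21 hP.eq1 hz hK ⟨hM, hdj⟩ hX₁
    (hGL.grd.sub _ (hc 1)) (hGL.grd.ne _ (hc 1)) hc2 (hGL.grd.sub _ hGL.dS)
    (hGL.grd.ne _ hGL.dS) hdv (hGL.grd.sub _ hGL.mS) (hGL.grd.ne _ hGL.mS) hmv
    (hGL.grd.sub _ hGL.cS) (hGL.grd.ne _ hGL.cS) hGL.base ho hCG.drt.ddW

end Pool.Agent.TWRA
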