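import Pool.Agent.Lib.TWRA.Mv
import Pool.Agent.Lib.TWCT.HDup
import Pool.Agent.Lib.TWCY.Base
import Pool.Agent.Lib.TWCY.BX
import Pool.Agent.Lib.TWC.Lv0M

/-!
# CT, row A: the global data exist (`RowGL`)

From the grading (`RowGrd`): `J1D.hd`, `exists_gsm`, `mv_of_mvs`, `BX.exists_base_of`,
`J1D.exists_bx_pm`.
-/

set_option autoImplicit false

open MvPolynomial

namespace Pool.Agent.TWRA

open Pool.Agent.H15JM (RVal)
open Pool.Agent.LU1 (VPos)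
open Pool.Agent.D2 (Ctx0)
open Pool.Agent.D2P (clI)
open Pool.Agent.TWM
open Pool.Agent.TWS (IsoE SphC PM VG)
open Pool.Agent.TWII (PG LP)
open Pool.Agent.TWN1 (Par Unh Nrm)
open Pool.Agent.TWTam (TR tam)
open Pool.Agent.TWRR (GP Prj)
open Pool.Agent.TWCT (SMo MovV MovR J1D tH GsM)
open Pool.Agent.TWLY
open Pool.Agent.TWCY

universe u

section

variable {k Ω : Type u} [Field k] [Field Ω] [Algebra k Ω] {v : RVal Ω} [IsAlgClosed Ω]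

/-- The base and the first two floors are algebraically closed in the top floor. -/
theorem par_alg_mem (p : ℕ) [Fact p.Prime] [CharP Ω p] {W F K : IntermediateField k Ω}
    {w₁ w₂ z : Ω} {r₁ r₂ s : ℝ} (hW : Cld v W) (hP : Par v W F w₁ r₁ w₂ r₂) (hz : TL v F z s)
    (hK : K = cadj v F z) :
    (∀ a ∈ K, IsAlgebraic F a → a ∈ F) ∧ ∀ a ∈ K, IsAlgebraic W a → a ∈ W := by
  have hF : Cld v F := by
    rw [hP.eq1]
    exact cld_cadj _ _ _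
  have h1 : ∀ a ∈ K, IsAlgebraic F a → a ∈ F := fun a ha h => by
    rw [hK] at ha
    exact hz.alg_mem p hF ha h
  refine ⟨h1, fun a ha h => ?_⟩
  have h2 := h1 a ha (D2P.isAlgebraic_mono hP.le h)
  rw [hP.eq1] at h2
  have h3 := hP.t21.alg_mem p (cld_cadj _ _ _) h2 (D2P.isAlgebraic_mono (le_cadj v W w₁) h)
  exact hP.t1.alg_mem p hW h3 h

end

section

variable {k Ω₀ Ω : Type u} [Field k] [Field Ω₀] [Algebra k Ω₀] [Field Ω] [Algebra k Ω]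
  {p : ℕ} {v₀ : RVal Ω₀} {v : RVal Ω} {ι : Ω₀ →ₐ[k] Ω} [hp : Fact p.Prime] [CharP Ω₀ p]
  [CharP Ω p] [CharP k p] [IsAlgClosed k] [IsAlgClosed Ω₀] [IsAlgClosed Ω]

/-- **`RowGL`.** -/
theorem rowGL_of (hgr : RowGrd (k := k) p v) : RowGL p v₀ v ι := by
  intro x₀ W₀ K₀ al ν F w₁ w₂ z₀ r₁ r₂ s hJ hP hz hK
  have hp0 : (p : ℝ) ≠ 0 := by exact_mod_cast hp.out.ne_zero
  obtain ⟨M, hM⟩ := TWC.exists_ms hJ.val
  obtain ⟨G, hG, hdiv, htop⟩ := TWCT.exists_gsm hJ.ctx hJ.iso hJ.xW hJ.x0 hJ.xv hJ.pd hM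
  obtain ⟨L, hL, hcon⟩ := hJ.cs
  obtain ⟨X₀, hX, hBX⟩ := hJ.exists_bx_pm hG hdiv
  -- the real fields
  have hPr : Par v ((clI v₀ W₀).map ι) (F.map ι) (ι w₁) r₁ (ι w₂) r₂ :=
    (par_map hJ.iso hJ.cpl).2 hP
  have hzr : TL v (F.map ι) (ι z₀) s := hJ.iso.tl_iff.2 hz
  have hKr : (clI v₀ K₀).map ι = cadj v (F.map ι) (ι z₀) := by
    rw [hJ.iso.cadj_map hJ.cpl, ← hK]
  have cW : Cld v ((clI v₀ W₀).map ι) := (hJ.iso.cld_iff hJ.cpl).2 (cld_clI v₀ _)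
  have cK : Cld v ((clI v₀ K₀).map ι) := (hJ.iso.cld_iff hJ.cpl).2 (cld_clI v₀ _)
  have cF : Cld v (F.map ι) := by
    rw [hPr.eq1]
    exact cld_cadj _ _ _
  have hFK : F.map ι ≤ (clI v₀ K₀).map ι := by
    rw [hKr]
    exact le_cadj _ _ _
  have hiF : Imm v ((clI v₀ W₀).map ι) (F.map ι) := by
    have h1 := hPr.t1.imm.trans hPr.t21.imm
    rwa [← hPr.eq1] at h1
  have hiK : Imm v ((clI v₀ W₀).map ι) ((clI v₀ K₀).map ι) := by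
    rw [hKr]
    exact hiF.trans hzr.imm
  obtain ⟨ha1, ha2⟩ := par_alg_mem p cW hPr hzr hKr
  have hpd : ∀ g ∈ VG v ((clI v₀ W₀).map ι), g / p ∈ VG v ((clI v₀ W₀).map ι) := by
    intro g hg
    obtain ⟨_, ⟨a, ha, rfl⟩, h0, rfl⟩ := hg
    have ha0 : a ≠ 0 := by
      rintro rfl
      exact h0 (map_zero _)
    obtain ⟨b, hb, hb0, h1⟩ := hJ.pd a ha ha0
    refine ⟨ι b, ⟨b, hb, rfl⟩, IsoE.ne_zero hb0, ?_⟩
    have h2 : v (ι a) = v₀ a := hJ.iso.val a ha0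
    change v (ι b) = v (ι a) / p
    rw [h2, hJ.iso.val b hb0, h1]
    field_simp
  have etm : ∀ B : IntermediateField k Ω₀, tam p v (ι x₀) (B.map ι) = tH p v₀ ι x₀ B := fun B =>
    TWCT.tam_map hJ.iso hJ.cpl x₀ B
  have hall : ∀ r : ℝ, ∃ g ∈ G, r - g ∈ VG v (tam p v (ι x₀) ((clI v₀ W₀).map ι)) := by
    intro r
    have h1 : r ∈ VG v (tH p v₀ ι x₀ (clI v₀ W₀)) ⊔ G := by
      rw [htop]
      exact AddSubgroup.mem_top r
    obtain ⟨a, ha, g, hg, rfl⟩ := AddSubgroup.mem_sup.1 h1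
    refine ⟨g, hg, ?_⟩
    rw [etm, add_sub_cancel_right]
    exact ha
  obtain ⟨π, hgrd⟩ := hgr (ι x₀) ((clI v₀ W₀).map ι) (F.map ι) ((clI v₀ K₀).map ι) G M hJ.c0
    hJ.cw ⟨x₀, hJ.xW, rfl⟩ (IsoE.ne_zero hJ.x0) cW cF cK hPr.le hFK hiK ha1 ha2 hpd hG.ms
    (by rw [etm]; exact hG.dj) hall
  rw [etm, etm, etm] at hgrd
  obtain ⟨d, hd, hdv⟩ := hgrd.all s
  obtain ⟨m, hm, hmv⟩ := hgrd.all (ν / p)
  have hmν : p * v m = ν := by
    rw [hmv]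
    field_simp
  have hgp : GP p v (PM v (tH p v₀ ι x₀ (clI v₀ W₀)) G M) := TWCT.gp_of_div hJ.c0 fun g hg => by
    obtain ⟨c, hc, hcv⟩ := hgrd.all (g / p)
    exact ⟨c, hgrd.sub c hc, hgrd.ne c hc, hcv⟩
  obtain ⟨cx, hcx, D, hD⟩ := hBX.exists_base_of hJ.c0 PM.cld hgp hgrd.sub hgrd.ne hgrd.all
  have hXW : X₀ / cx ^ p ∈ PM v (tH p v₀ ι x₀ (clI v₀ W₀)) G M :=
    div_mem (hgrd.WW' hX) (pow_mem (hgrd.sub cx hcx) p)
  have hhd : ∀ (w : Fin 2 → Ω) (ρ : Fin 2 → ℝ),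
      Par v ((clI v₀ W₀).map ι) (F.map ι) (w 0) (ρ 0) (w 1) (ρ 1) →
      ∀ c : Fin 2 → Ω, (∀ i, c i ∈ Mn p (ι x₀) ((clI v₀ W₀).map ι) G M) →
      (∀ i, v (c i) = ρ i) → HD p v (fun J => PM v (L J) G M)
        (PM v (tH p v₀ ι x₀ (clI v₀ W₀)) G M) (PM v (tH p v₀ ι x₀ F) G M)
        (PM v (tH p v₀ ι x₀ (clI v₀ K₀)) G M) (fun i => w i / c i) (X₀ / cx ^ p) (ι z₀ / d)
        (ι (al ^ p) / m ^ p) := by
    intro w ρ hPw c hc hv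
    have hw : ∀ i, ∃ y ∈ F, ι y = w i := by
      intro i
      fin_cases i
      · exact hPw.eq2.ge (self_mem_cadj v _ (w 0))
      · exact hPw.eq1.ge (self_mem_cadj v _ (w 1))
    choose y hy hyw using hw
    obtain rfl : (fun i => ι (y i)) = w := funext hyw
    have hP2 : Par v₀ (clI v₀ W₀) F (y 0) (ρ 0) (y 1) (ρ 1) := (par_map hJ.iso hJ.cpl).1 hPw
    have h1 := hJ.hd hL hP2 hz hK hG (fun g hg => hdiv p hp.out.ne_zero g hg) htop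
      (hgrd.sub _ (hc 0)) (hgrd.ne _ (hc 0)) (hv 0) (hgrd.sub _ (hc 1)) (hgrd.ne _ (hc 1)) (hv 1)
      (hgrd.sub d hd) (hgrd.ne d hd) hdv (hgrd.sub m hm) (hgrd.ne m hm) hmν hXW
    have e : (![ι (y 0) / c 0, ι (y 1) / c 1] : Fin 2 → Ω) = fun i => ι (y i) / c i := by
      funext i
      fin_cases i
      · rfl
      · rfl
    rw [e] at h1
    exact h1
  refine ⟨G, M, fun J => PM v (L J) G M, π, X₀, d, m, cx, D, hG.ms, hG.dj, hdv, hmν, ?_⟩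
  exact
  { grd := hgrd
    zK := by
      rw [hKr]
      exact self_mem_cadj _ _ _
    aK := ⟨al ^ p, le_clI _ hJ.mem, rfl⟩
    XW := hX
    dS := hd
    mS := hm
    cS := hcx
    z_eq := rfl
    a_eq := rfl
    x_eq := rfl
    zt := by
      rw [hdv]
      exact hzr
    base := hD
    hd := hhd
    mv := mv_of_mvs hJ hz hK hL hcon hG.ms hG.dj }

end

end Pool.Agent.TWRA
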