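import Pool.Agent.Lib.TWRA.Defs
import Pool.Agent.Lib.TWCY.Lam
import Pool.Agent.Lib.TWCY.ShpE

/-!
# CT, row A: the space `W₁` is graded

* `Grd.dd_pi`: the projection commutes with the derivations of the real pair;
* `rowGr`: `RowWN`, `RowHn`, `RowGr0` give `RowGr`.
-/

set_option autoImplicit false

open MvPolynomial

namespace Pool.Agent.TWRA

open Pool.Agent.H15JM (RVal)
open Pool.Agent.LU1 (VPos)
open Pool.Agent.D2 (Ctx0)
open Pool.Agent.TWM
open Pool.Agent.TWS (IsoE SphC PM VG)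
open Pool.Agent.TWN1 (Par Unh Nrm)
open Pool.Agent.TWRR (GP Prj)
open Pool.Agent.TWLY
open Pool.Agent.TWCY

universe u

variable {k Ω : Type u} [Field k] [Field Ω] [Algebra k Ω] {p : ℕ} {v : RVal Ω}
  {Wr Fr Kr W' F' K' : IntermediateField k Ω} {S : Set Ω} {π : Ω → Ω} {w c : Fin 2 → Ω}
  {T : (Fin 2 → k) → Ω →ₐ[k] Ω} {D : Ω → Ω} {dd : Fin 2 → Ω → Ω}

/-! ### The derivations of the real pair -/

section dd

/-- `∂_i (w j) = c j δ_(i j)`. -/
theorem dd_wj (hD : DrvT v W' F' (fun i => w i / c i) T D dd) (hT : Trn v W' F' (fun i => w i / c i) T)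
    (hc : ∀ i, c i ∈ W') (hc0 : ∀ i, c i ≠ 0) (i j : Fin 2) :
    dd i (w j) = if i = j then c j else 0 := by
  have e : w j = c j * (w j / c j) := by
    rw [mul_div_cancel₀ _ (hc0 j)]
  conv_lhs => rw [e]
  rw [(hD.drvi i).mul _ (hT.le (hc j)) _ (hT.wF j), hD.ddw, hD.ddW i _ (hc j), mul_zero, add_zero]
  split_ifs
  · rw [mul_one]
  · rw [mul_zero]

theorem mem_wj (hT : Trn v W' F' (fun i => w i / c i) T) (hc : ∀ i, c i ∈ W')
    (hc0 : ∀ i, c i ≠ 0) (j : Fin 2) : w j ∈ F' := by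
  have e : w j = c j * (w j / c j) := by
    rw [mul_div_cancel₀ _ (hc0 j)]
  rw [e]
  exact mul_mem (hT.le (hc j)) (hT.wF j)

theorem dd_mul_bs (hT : Trn v W' F' (fun i => w i / c i) T)
    (hD : DrvT v W' F' (fun i => w i / c i) T D dd) {a h : Ω} (ha : a ∈ W') (hh : h ∈ F')
    (i : Fin 2) : dd i (a * h) = a * dd i h := by
  rw [(hD.drvi i).mul _ (hT.le ha) _ hh, hD.ddW i _ ha, mul_zero, add_zero]

/-- The polynomials in the `w i` over `W'` are dense. -/
theorem dns_wj (hT : Trn v W' F' (fun i => w i / c i) T) (hc : ∀ i, c i ∈ W') {y : Ω}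
    (hy : y ∈ F') (r : ℝ) : ∃ q : MvPolynomial (Fin 2) Ω, (∀ g, coeff g q ∈ W') ∧
      v.Ge r (y - eval w q) := by
  obtain ⟨q, hq, h1⟩ := hT.dns y hy r
  refine ⟨bind₁ (fun i => C (c i)⁻¹ * X i) q, ?_, ?_⟩
  · change bind₁ (fun i => C (c i)⁻¹ * X i) q ∈ PI2 W'
    rw [bind₁, aeval_def, eval₂_eq']
    exact sum_mem fun g _ => mul_mem (C_mem_PI2 (hq g)) (prod_mem fun i _ =>
      pow_mem (mul_mem (C_mem_PI2 (inv_mem (hc i))) (X_mem_PI2 i)) _)
  · have e : eval w (bind₁ (fun i => C (c i)⁻¹ * X i) q) = eval (fun i => w i / c i) q := by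
      rw [bind₁, aeval_def, eval₂_eq', eval_eq' (fun i => w i / c i) q, map_sum]
      refine Finset.sum_congr rfl fun g _ => ?_
      rw [map_mul, map_prod, algebraMap_eq, eval_C]
      congr 1
      refine Finset.prod_congr rfl fun i _ => ?_
      rw [map_pow, map_mul, eval_C, eval_X, div_eq_mul_inv, mul_comm]
    rw [e]
    exact h1

end dd

/-! ### The projection commutes with the derivations -/

theorem Grd.ne_w (hG : Grd p v Wr Fr Kr W' F' K' S π) (hc : ∀ i, c i ∈ S) (i : Fin 2) : c i ≠ 0 :=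
  hG.ne _ (hc i)

theorem Grd.dd_poly (hG : Grd p v Wr Fr Kr W' F' K' S π) (hT : Trn v W' F' (fun i => w i / c i) T)
    (hD : DrvT v W' F' (fun i => w i / c i) T D dd) (hc : ∀ i, c i ∈ S) (hw : ∀ i, w i ∈ Fr)
    {q : MvPolynomial (Fin 2) Ω} (hq : ∀ g, coeff g q ∈ W') (i : Fin 2) :
    ∃ b ∈ F', dd i (eval w q) = c i * b ∧ dd i (π (eval w q)) = c i * π b := by
  have hcW : ∀ i, c i ∈ W' := fun i => hG.sub _ (hc i)
  have hc0 : ∀ i, c i ≠ 0 := fun i => hG.ne _ (hc i)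
  have hwF : ∀ i, w i ∈ F' := fun i => hG.FF' (hw i)
  have hwK : ∀ i, w i ∈ Kr := fun i => hG.FK (hw i)
  have hev : ∀ f : MvPolynomial (Fin 2) Ω, (∀ m, coeff m f ∈ W') → eval w f ∈ F' := fun f hf =>
    eval_mem' (fun g => hG.WF' (hf g)) hwF
  refine W_induction (W := W') (P := fun q => ∃ b ∈ F', dd i (eval w q) = c i * b ∧
    dd i (π (eval w q)) = c i * π b) ?_ ?_ ?_ hq
  · intro a ha
    refine ⟨0, zero_mem _, ?_, ?_⟩
    · rw [eval_C, hD.ddW i _ ha, mul_zero]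
    · rw [eval_C, hD.ddW i _ (hG.WW' (hG.prW _ ha)), hG.prj.zero, mul_zero]
  · rintro f g hf0 hg0 ⟨b, hb, h1, h2⟩ ⟨b', hb', h3, h4⟩
    refine ⟨b + b', add_mem hb hb', ?_, ?_⟩
    · rw [map_add, (hD.drvi i).add _ (hev f hf0) _ (hev g hg0), h1, h3, mul_add]
    · rw [map_add, hG.prj.add _ (hG.FK' (hev f hf0)) _ (hG.FK' (hev g hg0)),
        (hD.drvi i).add _ (hG.FF' (hG.prF _ (hev f hf0))) _ (hG.FF' (hG.prF _ (hev g hg0))), h2, h4,
        hG.prj.add _ (hG.FK' hb) _ (hG.FK' hb'), mul_add]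
  · rintro f j hf0 ⟨b, hb, h1, h2⟩
    refine ⟨w j * b + (if i = j then 1 else 0) * eval w f, add_mem (mul_mem (hwF j) hb)
      (mul_mem (by split_ifs <;> [exact one_mem _; exact zero_mem _]) (hev f hf0)), ?_, ?_⟩
    · rw [map_mul, eval_X, (hD.drvi i).mul _ (hev f hf0) _ (hwF j), dd_wj hD hT hcW hc0, h1]
      split_ifs with hij
      · subst hij
        ring
      · ring
    · have e1 : π (eval w (f * X j)) = w j * π (eval w f) := by
        rw [map_mul, eval_X, mul_comm, hG.prj.mul _ (hwK j) _ (hG.FK' (hev f hf0))]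
      have e2 : π (w j * b + (if i = j then 1 else 0) * eval w f) =
          w j * π b + (if i = j then 1 else 0) * π (eval w f) := by
        rw [hG.prj.add _ (hG.FK' (mul_mem (hwF j) hb)) _ (hG.FK' (mul_mem
          (by split_ifs <;> [exact one_mem _; exact zero_mem _]) (hev f hf0))),
          hG.prj.mul _ (hwK j) _ (hG.FK' hb), hG.prj.mul _
          (by split_ifs <;> [exact one_mem _; exact zero_mem _]) _ (hG.FK' (hev f hf0))]
      rw [e1, e2, (hD.drvi i).mul _ (hwF j) _ (hG.FF' (hG.prF _ (hev f hf0))),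
        dd_wj hD hT hcW hc0, h2]
      split_ifs with hij
      · subst hij
        ring
      · ring

/-- **The projection commutes with the derivations** `c i ⁻¹ ∂_i`. -/
theorem Grd.dd_pi (hG : Grd p v Wr Fr Kr W' F' K' S π) (hT : Trn v W' F' (fun i => w i / c i) T)
    (hD : DrvT v W' F' (fun i => w i / c i) T D dd) (hc : ∀ i, c i ∈ S) (hw : ∀ i, w i ∈ Fr)
    {h : Ω} (hh : h ∈ F') (i : Fin 2) : dd i (π h) = c i * π (dd i h / c i) := by
  have hcW : ∀ i, c i ∈ W' := fun i => hG.sub _ (hc i)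
  have hc0 : ∀ i, c i ≠ 0 := fun i => hG.ne _ (hc i)
  have hci : (c i)⁻¹ ∈ F' := hT.le (inv_mem (hcW i))
  rw [← sub_eq_zero]
  refine eq_zero_of_ge (v := v) fun r => ?_
  obtain ⟨q, hq, h1⟩ := dns_wj hT hcW hh r
  obtain ⟨b, hb, h2, h3⟩ := hG.dd_poly hT hD hc hw hq i
  have hqF : eval w q ∈ F' := eval_mem' (fun g => hG.WF' (hq g)) fun i => hG.FF' (hw i)
  have h4 : v.Ge r (dd i (π h) - dd i (π (eval w q))) := by
    rw [← (hD.drvi i).map_sub (hG.FF' (hG.prF _ hh)) (hG.FF' (hG.prF _ hqF)),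
      ← hG.prj.sub (hG.FK' hh) (hG.FK' hqF)]
    refine (hD.drvi i).norm _ (hG.FF' (hG.prF _ (sub_mem hh hqF))) _ ?_
    exact hG.prj.ge _ (hG.FK' (sub_mem hh hqF)) _ h1
  have h5 : v.Ge r (c i * π (dd i h / c i) - c i * π b) := by
    have hdF : dd i h / c i ∈ F' := by
      rw [div_eq_mul_inv]
      exact mul_mem (hD.ddF i _ hh) hci
    have e : dd i h / c i - b = (c i)⁻¹ * dd i (h - eval w q) := by
      rw [(hD.drvi i).map_sub hh hqF, h2]
      field_simp [hc0 i]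
    have h6 : v.Ge (-v (c i) + r) (dd i h / c i - b) := by
      rw [e]
      refine RVal.Ge.mul ?_ ((hD.drvi i).norm _ (sub_mem hh hqF) _ h1)
      rw [← v.map_inv (hc0 i)]
      exact RVal.ge_self _
    rw [← mul_sub, ← hG.prj.sub (hG.FK' hdF) (hG.FK' hb)]
    have h7 := (RVal.ge_self (v := v) (c i)).mul (hG.prj.ge _ (hG.FK' (sub_mem hdF hb)) _ h6)
    refine h7.mono (by linarith)
  have e : dd i (π h) - c i * π (dd i h / c i) = (dd i (π h) - dd i (π (eval w q))) -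
      (c i * π (dd i h / c i) - c i * π b) := by
    rw [h3]
    ring
  rw [e]
  exact h4.sub h5

/-! ### The homogeneous part of `φ` -/

/-- If `∂_i (z - φ)` is in `O_0`, `z = zr / d` homogeneous, then `∂_i (φ - φ_h)` is in `O_0`, `φ_h` the
homogeneous part. -/
theorem Grd.ge_dd (hG : Grd p v Wr Fr Kr W' F' K' S π) (hT : Trn v W' F' (fun i => w i / c i) T)
    (hD : DrvT v W' F' (fun i => w i / c i) T D dd) (hc : ∀ i, c i ∈ S) (hw : ∀ i, w i ∈ Fr)
    {zr d φ : Ω} (hd : d ∈ S) (hφ : φ ∈ F') (hz : Lim v Fr (v d) zr) (i : Fin 2)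
    (hn : NatV v F' (dd i) (zr / d - φ) 0) : v.Ge 0 (dd i (φ - π (d * φ) / d)) := by
  have hcW : ∀ i, c i ∈ W' := fun i => hG.sub _ (hc i)
  have hc0 : ∀ i, c i ≠ 0 := fun i => hG.ne _ (hc i)
  have hdW : d ∈ W' := hG.sub _ hd
  have hd0 : d ≠ 0 := hG.ne _ hd
  have hci : (c i)⁻¹ ∈ F' := hT.le (inv_mem (hcW i))
  have hdi : d⁻¹ ∈ F' := hT.le (inv_mem hdW)
  refine ge_zero_of_eps fun ε hε => ?_
  obtain ⟨θ, hθ, h1⟩ := hz ε hε
  have hθF : θ ∈ F' := hG.FF' hθ
  have hθd : θ / d ∈ F' := by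
    rw [div_eq_mul_inv]
    exact mul_mem hθF hdi
  have hQF : π (d * φ) / d ∈ F' := by
    rw [div_eq_mul_inv]
    exact mul_mem (hG.FF' (hG.prF _ (mul_mem (hT.le hdW) hφ))) hdi
  -- `∂_i (φ - θ / d) ≥ - ε`
  have h2 : v.Ge (-ε) (dd i (φ - θ / d)) := by
    have h3 := hn ε hε (θ / d - φ) (sub_mem hθd hφ) (by
      have e : zr / d - φ - (θ / d - φ) = d⁻¹ * (zr - θ) := by
        field_simp
        ring
      rw [e]
      have h4 : v.Ge (-v d + (v d - ε)) (d⁻¹ * (zr - θ)) := by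
        refine RVal.Ge.mul ?_ h1
        rw [← v.map_inv hd0]
        exact RVal.ge_self _
      exact h4.mono (by linarith))
    rw [zero_sub] at h3
    have e : dd i (φ - θ / d) = -dd i (θ / d - φ) := by
      rw [(hD.drvi i).map_sub hφ hθd, (hD.drvi i).map_sub hθd hφ]
      ring
    rw [e]
    exact h3
  -- the projection
  have h3 : v.Ge (-ε) (dd i (π (d * φ) / d - θ / d)) := by
    set f := φ - θ / d with hf
    have hfF : f ∈ F' := sub_mem hφ hθd
    have hdf : d * f ∈ F' := mul_mem (hT.le hdW) hfF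
    have e1 : π (d * φ) / d - θ / d = d⁻¹ * π (d * f) := by
      have e2 : d * f = d * φ - θ := by
        rw [hf, mul_sub, mul_div_cancel₀ _ hd0]
      rw [e2, hG.prj.sub (hG.FK' (mul_mem (hT.le hdW) hφ)) (hG.FK' hθF), hG.prj.self _ (hG.FK hθ)]
      field_simp
    rw [e1, dd_mul_bs hT hD (inv_mem hdW) (hG.FF' (hG.prF _ hdf)), hG.dd_pi hT hD hc hw hdf,
      dd_mul_bs hT hD hdW hfF]
    have hdiv : d * dd i f / c i ∈ F' := by
      rw [div_eq_mul_inv]
      exact mul_mem (mul_mem (hT.le hdW) (hD.ddF i _ hfF)) hci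
    have h4 : v.Ge (v d + -ε + -v (c i)) (d * dd i f / c i) := by
      rw [div_eq_mul_inv]
      refine ((RVal.ge_self _).mul h2).mul ?_
      rw [← v.map_inv (hc0 i)]
      exact RVal.ge_self _
    have h5 := hG.prj.ge _ (hG.FK' hdiv) _ h4
    have h6 : v.Ge (-v d) d⁻¹ := by
      rw [← v.map_inv hd0]
      exact RVal.ge_self _
    have h7 := h6.mul ((RVal.ge_self (v := v) (c i)).mul h5)
    exact h7.mono (by linarith)
  have e : dd i (φ - π (d * φ) / d) = dd i (φ - θ / d) - dd i (π (d * φ) / d - θ / d) := by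
    rw [← (hD.drvi i).map_sub (sub_mem hφ hθd) (sub_mem hQF hθd)]
    congr 1
    ring
  rw [e]
  exact h2.sub h3

/-! ### Translations -/

/-- The derivations commute with the translations. -/
theorem dd_tr {W F : IntermediateField k Ω} {w : Fin 2 → Ω} (hT : Trn v W F w T)
    (hD : DrvT v W F w T D dd) (i : Fin 2) (c : Fin 2 → k) {f : Ω} (hf : f ∈ F) :
    dd i (T c f) = T c (dd i f) := by
  have h1 : ∀ j, dd i (w j) = algebraMap k Ω (if i = j then 1 else 0) := by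
    intro j
    rw [hD.ddw]
    split_ifs
    · rw [map_one]
    · rw [map_zero]
  have h3 : ∀ f ∈ W, dd i f ∈ W := by
    intro f hf
    rw [hD.ddW i f hf]
    exact zero_mem _
  have h4 : ∀ j, Lim v W 0 (dd i (w j)) := by
    intro j ε _
    refine ⟨_, W.algebraMap_mem (if i = j then 1 else 0), ?_⟩
    rw [h1, sub_self]
    exact RVal.Ge.zero
  rw [comm hT (hD.drvi i) h3 h4 hD.drvi hD.ddW hD.ddw c hf]
  have h2 : ∑ j, (T c (dd i (w j)) - dd i (w j)) * T c (dd j f) = 0 := by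
    refine Finset.sum_eq_zero fun j _ => ?_
    rw [h1, AlgHom.commutes, sub_self, zero_mul]
  rw [h2, sub_zero]

/-- The jets of an element of `F`, modulo `O_0`. -/
theorem exists_shp_mem {W F : IntermediateField k Ω} {w : Fin 2 → Ω} (hT : Trn v W F w T) {f : Ω}
    (hf : f ∈ F) : ∃ u : MvPolynomial (Fin 2) Ω, ∀ c, v.Ge 0 (T c f - f - eval (pt c) u) := by
  obtain ⟨q, hq, h1⟩ := hT.dns f hf 0
  refine ⟨shW w q - C (eval w q), fun c => ?_⟩
  have e : T c f - f - eval (pt c) (shW w q - C (eval w q)) =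
      T c (f - eval w q) - (f - eval w q) := by
    rw [map_sub, map_sub, hT.T_eval_shW hq, eval_C]
    ring
  rw [e]
  exact (IsoE.ge' (hT.iso c) h1).sub h1

/-- If the `∂_i f` are in `O_0`, the `∂_i (T_c f - f)` are strict. -/
theorem gt_dd_tr {W F : IntermediateField k Ω} {w : Fin 2 → Ω} (hk : Ctx0 k v) (hT : Trn v W F w T)
    (hD : DrvT v W F w T D dd) {f : Ω} (hf : f ∈ F) (i : Fin 2) (h : v.Ge 0 (dd i f))
    (c : Fin 2 → k) : Gt v 0 (dd i (T c f - f)) := by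
  rw [(hD.drvi i).map_sub (hT.mem c f hf) hf, dd_tr hT hD i c hf]
  obtain ⟨a, ha⟩ := exists_rs0 hk h
  have h1 := (ha.map (hT.iso c)).sub ha
  rw [sub_self] at h1
  exact rs_zero_iff.1 h1

/-! ### The grading of `W₁` -/

open Classical in
/-- **`W₁` is graded.** -/
theorem rowGr (h1 : RowWN (k := k) p v) (h2 : RowHn (k := k) p v) (h3 : RowGr0 (k := k) p v) :
    RowGr (k := k) p v := by
  intro L Wr Fr Kr W' F' K' S π x z a zr ar X₀ d m cx D w ρ c φ R hL hP hc hv hφ hC N hN γ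
  have hG := hL.grd
  have hT := hC.trn
  have hD := hC.drt
  have hcW : ∀ i, c i ∈ W' := fun i => hG.sub _ (hc i)
  have hdW : d ∈ W' := hG.sub _ hL.dS
  have hd0 : d ≠ 0 := hG.ne _ hL.dS
  have hwr : ∀ i, w i ∈ Fr := by
    intro i
    fin_cases i
    · have h4 := hP.eq2.ge (self_mem_cadj v _ (w 0))
      exact h4
    · have h4 := hP.eq1.ge (self_mem_cadj v _ (w 1))
      exact h4
  rw [h1 _ _ _ _ _ _ _ _ _ hC] at hN ⊢
  -- the homogeneous part of `φ`
  obtain ⟨φr, hφr, hψ⟩ : ∃ φr ∈ Fr, ∀ c : Fin 2 → k, R.T c (φ - φr / d) - (φ - φr / d) ∈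
      (if R.e = 0 then Z0 v F' else Z1 v F' R.dd) := by
    by_cases he : R.e = 0
    · refine ⟨0, zero_mem _, fun c => ?_⟩
      rw [if_pos he, zero_div, sub_zero]
      exact Submodule.subset_span ⟨_, sub_mem (hT.mem c φ hφ) hφ, by
        rw [sub_self]; exact RVal.Ge.zero⟩
    · refine ⟨π (d * φ), hG.prF _ (mul_mem (hT.le hdW) hφ), fun c => ?_⟩
      have hQF : π (d * φ) / d ∈ F' := by
        rw [div_eq_mul_inv]
        exact mul_mem (hG.FF' (hG.prF _ (mul_mem (hT.le hdW) hφ))) (hT.le (inv_mem hdW))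
      have hψF : φ - π (d * φ) / d ∈ F' := sub_mem hφ hQF
      rw [if_neg he]
      refine Submodule.subset_span ⟨_, sub_mem (hT.mem c _ hψF) hψF, fun i => ?_, by
        rw [sub_self]; exact RVal.Ge.zero⟩
      refine gt_dd_tr hC.c0 hT hD hψF i ?_ c
      refine hG.ge_dd hT hD hc hwr hL.dS hφ hL.zt.lim i ?_
      rw [← hL.z_eq]
      exact h2 _ _ _ _ _ _ _ _ _ hC he i
  have hUS : US v F' R.T R.dd (z - φ) R.e = US v F' R.T R.dd ((zr - φr) / d) R.e := by
    unfold US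
    refine TWTG.NU_congr fun t => ?_
    have e : R.T t (z - φ) - (z - φ) - (R.T t ((zr - φr) / d) - (zr - φr) / d) =
        -(R.T t (φ - φr / d) - (φ - φr / d)) := by
      rw [hL.z_eq, sub_div, map_sub, map_sub, map_sub]
      ring
    rw [e]
    exact Submodule.neg_mem _ (hψ t)
  rw [hUS] at hN ⊢
  have hφd : φr / d ∈ F' := by
    rw [div_eq_mul_inv]
    exact mul_mem (hG.FF' hφr) (hT.le (inv_mem hdW))
  obtain ⟨uψ, hu⟩ := exists_shp_mem hT (sub_mem hφ hφd)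
  refine h3 Wr Fr Kr W' F' K' S π w ρ c d (zr - φr) (v d) R.T R.D R.dd
    (uu R.n R.N R.f + uψ) R.e hC.c0 hG hP hc hv hL.dS rfl ?_ hT hD ?_ N hN γ
  · intro ε hε
    obtain ⟨a, ha, h4⟩ := hL.zt.lim ε hε
    refine ⟨a - φr, sub_mem ha hφr, ?_⟩
    rw [sub_sub_sub_cancel_right]
    exact h4
  · intro t
    have e : R.T t ((zr - φr) / d) - (zr - φr) / d - eval (pt t) (uu R.n R.N R.f + uψ) =
        (R.T t (z - φ) - (z - φ) - eval (pt t) (uu R.n R.N R.f)) +
        (R.T t (φ - φr / d) - (φ - φr / d) - eval (pt t) uψ) := by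
      rw [hL.z_eq, sub_div, map_sub, map_sub, map_sub, map_add]
      ring
    rw [e]
    exact (hC.shp.jet t).add (hu t)

end Pool.Agent.TWRA
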