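import Pool.Agent.Lib.TWRA.Gr0

/-!
# CT, row A: the layer of a real element is graded (row `GA6`)

* `mem_Z0`, `mem_Z1`: the elements of `Z0`, `Z1`;
* `Grd.rel_gr`: the relations between the coefficients of the shape are graded;
* `rowGr0`.
-/

set_option autoImplicit false

open MvPolynomial Finset

namespace Pool.Agent.TWRA

open Pool.Agent.H15JM (RVal)
open Pool.Agent.LU1 (VPos)
open Pool.Agent.D2 (Ctx0)
open Pool.Agent.TWM
open Pool.Agent.TWS (IsoE SphC PM VG)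
open Pool.Agent.TWN1 (Par)
open Pool.Agent.TWRR (Prj)
open Pool.Agent.TWLY
open Pool.Agent.TWCY

universe u

variable {k Ω : Type u} [Field k] [Field Ω] [Algebra k Ω] {p : ℕ} {v : RVal Ω}
  {Wr Fr Kr W' F' K' : IntermediateField k Ω} {S : Set Ω} {π : Ω → Ω}

theorem ge_smul (hk : Ctx0 k v) {r : ℝ} {y : Ω} (a : k) (hy : v.Ge r y) : v.Ge r (a • y) := by
  rw [Algebra.smul_def]
  have := (hk.ge a).mul hy
  rwa [zero_add] at this

/-- `B + O_0` is a submodule if `B` is one. -/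
theorem mem_span_add (hk : Ctx0 k v) {B : Set Ω} (h0 : (0 : Ω) ∈ B)
    (hadd : ∀ x ∈ B, ∀ y ∈ B, x + y ∈ B) (hsm : ∀ (a : k), ∀ x ∈ B, a • x ∈ B) {y : Ω}
    (hy : y ∈ Submodule.span k {y : Ω | ∃ f ∈ B, v.Ge 0 (y - f)}) : ∃ f ∈ B, v.Ge 0 (y - f) := by
  refine Submodule.span_induction ?_ ?_ ?_ ?_ hy
  · exact fun y hy => hy
  · exact ⟨0, h0, by rw [sub_zero]; exact fun h => absurd rfl h⟩
  · rintro x y _ _ ⟨f, hf, h1⟩ ⟨g, hg, h2⟩
    refine ⟨f + g, hadd _ hf _ hg, ?_⟩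
    have e : x + y - (f + g) = (x - f) + (y - g) := by ring
    rw [e]
    exact h1.add h2
  · rintro a x _ ⟨f, hf, h1⟩
    refine ⟨a • f, hsm a f hf, ?_⟩
    rw [← smul_sub]
    exact ge_smul hk a h1

/-- The set of the elements of `F` allowed in `US`. -/
def BS (v : RVal Ω) (F : IntermediateField k Ω) (dd : Fin 2 → Ω → Ω) (e : k) : Set Ω :=
  {f | f ∈ F ∧ (e ≠ 0 → ∀ i, Gt v 0 (dd i f))}

open Classical in
theorem span_BS (F : IntermediateField k Ω) (dd : Fin 2 → Ω → Ω) (e : k) :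
    (if e = 0 then Z0 v F else Z1 v F dd) =
      Submodule.span k {y : Ω | ∃ f ∈ BS v F dd e, v.Ge 0 (y - f)} := by
  split_ifs with he
  · unfold Z0
    congr 1
    ext y
    constructor
    · rintro ⟨f, hf, h1⟩
      exact ⟨f, ⟨hf, fun h => absurd he h⟩, h1⟩
    · rintro ⟨f, ⟨hf, _⟩, h1⟩
      exact ⟨f, hf, h1⟩
  · unfold Z1
    congr 1
    ext y
    constructor
    · rintro ⟨f, hf, h1, h2⟩
      exact ⟨f, ⟨hf, fun _ => h1⟩, h2⟩
    · rintro ⟨f, ⟨hf, h1⟩, h2⟩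
      exact ⟨f, hf, h1 he, h2⟩

/-- What is used of the derivations. -/
structure DdL (v : RVal Ω) (F : IntermediateField k Ω) (dd : Fin 2 → Ω → Ω) : Prop where
  add : ∀ i, ∀ x ∈ F, ∀ y ∈ F, dd i (x + y) = dd i x + dd i y
  smul : ∀ i, ∀ a : k, ∀ x ∈ F, dd i (a • x) = a • dd i x

theorem BS_zero {F : IntermediateField k Ω} {dd : Fin 2 → Ω → Ω} (hd : DdL v F dd) (e : k) :
    (0 : Ω) ∈ BS v F dd e := by
  refine ⟨zero_mem _, fun _ i h0 => ?_⟩
  have h1 := hd.smul i 0 0 (zero_mem _)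
  rw [zero_smul, zero_smul] at h1
  exact absurd h1 h0

theorem BS_add {F : IntermediateField k Ω} {dd : Fin 2 → Ω → Ω} (hd : DdL v F dd) (e : k) {x y : Ω}
    (hx : x ∈ BS v F dd e) (hy : y ∈ BS v F dd e) : x + y ∈ BS v F dd e := by
  refine ⟨add_mem hx.1 hy.1, fun he i => ?_⟩
  rw [hd.add i x hx.1 y hy.1]
  exact (hx.2 he i).add (hy.2 he i)

theorem BS_smul (hk : Ctx0 k v) {F : IntermediateField k Ω} {dd : Fin 2 → Ω → Ω}
    (hd : DdL v F dd) (e : k) (a : k) {x : Ω} (hx : x ∈ BS v F dd e) : a • x ∈ BS v F dd e := by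
  refine ⟨?_, fun he i => ?_⟩
  · rw [Algebra.smul_def]
    exact mul_mem (F.algebraMap_mem a) hx.1
  · rw [hd.smul i a x hx.1, Algebra.smul_def]
    have h1 := (hx.2 he i).mul_ge (hk.ge a)
    rwa [zero_add, mul_comm] at h1

theorem ddL {T : (Fin 2 → k) → Ω →ₐ[k] Ω} {w : Fin 2 → Ω} {D : Ω → Ω}
    {dd : Fin 2 → Ω → Ω} (hD : DrvT v W' F' w T D dd) : DdL v F' dd := by
  refine ⟨fun i x hx y hy => (hD.drvi i).add x hx y hy, fun i a x hx => ?_⟩
  rw [Algebra.smul_def, (hD.drvi i).mul _ (F'.algebraMap_mem a) _ hx,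
    hD.ddW i _ (W'.algebraMap_mem a), mul_zero, add_zero, Algebra.smul_def]

theorem mem_US_iff (hk : Ctx0 k v) {F : IntermediateField k Ω} {dd : Fin 2 → Ω → Ω}
    (hd : DdL v F dd) (e : k) {y : Ω} :
    y ∈ (open Classical in if e = 0 then Z0 v F else Z1 v F dd) ↔
      ∃ f ∈ BS v F dd e, v.Ge 0 (y - f) := by
  classical
  rw [span_BS]
  constructor
  · exact fun h => mem_span_add hk (BS_zero hd e) (fun x hx y hy => BS_add hd e hx hy)
      (fun a x hx => BS_smul hk hd e a hx) h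
  · exact fun h => Submodule.subset_span h

section

variable [IsAlgClosed Ω] {w : Fin 2 → Ω} {ρ : Fin 2 → ℝ} {c : Fin 2 → Ω}
  {T : (Fin 2 → k) → Ω →ₐ[k] Ω} {D : Ω → Ω} {dd : Fin 2 → Ω → Ω}

/-- **The relations between the coefficients of the shape are graded.** -/
theorem Grd.rel_gr [Infinite k] (h : Grd p v Wr Fr Kr W' F' K' S π)
    (hP : Par v Wr Fr (w 0) (ρ 0) (w 1) (ρ 1)) (hc : ∀ i, c i ∈ S) (hv : ∀ i, v (c i) = ρ i)
    (hT : Trn v W' F' (fun i => w i / c i) T) (hD : DrvT v W' F' (fun i => w i / c i) T D dd)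
    (hk : Ctx0 k v) {d yr : Ω} (hd : d ∈ S) (hy : Lim v Fr (v d) yr)
    {u : MvPolynomial (Fin 2) Ω}
    (hu : ∀ c : Fin 2 → k, v.Ge 0 (T c (yr / d) - yr / d - eval (pt c) u)) (e : k)
    (A : Finset Ex) (m : Ex → k) (hm : ∃ f ∈ BS v F' dd e, v.Ge 0 (∑ g ∈ A, m g • coeff g u - f))
    (γ : ℝ ⧸ VG v Wr) :
    ∃ f ∈ BS v F' dd e, v.Ge 0 ((open Classical in ∑ g ∈ A with TWTG.dgr
      (fun i => (QuotientAddGroup.mk (ρ i) : ℝ ⧸ VG v Wr)) g = γ, m g • coeff g u) - f) := by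
  classical
  obtain ⟨f, hf, hf1⟩ := hm
  obtain ⟨γ₀, rfl⟩ := QuotientAddGroup.mk_surjective γ
  obtain ⟨q, hq, hq1⟩ := h.all (γ₀ - v d)
  have hc0 : ∀ i, c i ≠ 0 := fun i => h.ne _ (hc i)
  refine ⟨prc π q f, ⟨h.prc_mem hq hf.1, fun he i => ?_⟩, ?_⟩
  · rw [Grd.dd_prc h hP hc hT hD i hq hf.1]
    exact h.prc_gt (h.mul _ hq _ (hc i)) (hD.ddF i _ hf.1) (hf.2 he i)
  refine ge_zero_of_eps fun ε hε => ?_
  obtain ⟨t, ht, h1⟩ := Grd.exists_hom h hP hc hT hk hd hy hu hε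
  set η : Ex → Ω := fun g => cM c g / d * t g with hη
  have hηS : ∀ g, cM c g / d ∈ S := fun g => h.div_memS (cM_mem h hc g) hd
  have hηF : ∀ g, η g ∈ F' := fun g => mul_mem (h.subF (hηS g)) (h.FF' (ht g))
  have hval : ∀ g : Ex, (v (cM c g / d) - v q ∈ VG v Wr) ↔ TWTG.dgr
      (fun i => (QuotientAddGroup.mk (ρ i) : ℝ ⧸ VG v Wr)) g = QuotientAddGroup.mk γ₀ := by
    intro g
    have e1 : v (cM c g / d) - v q = g 0 • ρ 0 + g 1 • ρ 1 - γ₀ := by
      rw [v.map_div (cM_ne hc0 g) (h.ne d hd), v_cM hc0 hv, hq1]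
      ring
    have e2 : TWTG.dgr (fun i => (QuotientAddGroup.mk (ρ i) : ℝ ⧸ VG v Wr)) g =
        QuotientAddGroup.mk (g 0 • ρ 0 + g 1 • ρ 1) := rfl
    rw [e1, e2, QuotientAddGroup.eq, neg_add_eq_sub]
    constructor
    · intro h2
      have := neg_mem h2
      rwa [neg_sub] at this
    · intro h2
      have := neg_mem h2
      rwa [neg_sub] at this
  have hF : ∀ g ∈ A, m g • η g ∈ F' := fun g _ => by
    rw [Algebra.smul_def]
    exact mul_mem (F'.algebraMap_mem _) (hηF g)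
  have e1 : ∑ g ∈ A with TWTG.dgr (fun i => (QuotientAddGroup.mk (ρ i) : ℝ ⧸ VG v Wr)) g =
      QuotientAddGroup.mk γ₀, m g • η g = prc π q (∑ g ∈ A, m g • η g) := by
    rw [h.prc_sum hq _ _ hF, sum_filter]
    refine sum_congr rfl fun g _ => ?_
    rw [Algebra.smul_def, h.prc_smul hq (hηF g)]
    split_ifs with hg
    · rw [h.prc_hom_self hq (hηS g) (ht g) ((hval g).2 hg)]
    · rw [h.prc_hom_zero hq (hηS g) (ht g) (fun h2 => hg ((hval g).1 h2)), mul_zero]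
  have e2 : (∑ g ∈ A with TWTG.dgr (fun i => (QuotientAddGroup.mk (ρ i) : ℝ ⧸ VG v Wr)) g =
      QuotientAddGroup.mk γ₀, m g • coeff g u) - prc π q f =
      (∑ g ∈ A with TWTG.dgr (fun i => (QuotientAddGroup.mk (ρ i) : ℝ ⧸ VG v Wr)) g =
        QuotientAddGroup.mk γ₀, m g • (coeff g u - η g)) +
      prc π q (∑ g ∈ A, m g • η g - f) := by
    rw [h.prc_sub hq (sum_mem hF) hf.1, ← e1]
    simp only [smul_sub, sum_sub_distrib]
    ring
  have e3 : ∑ g ∈ A, m g • η g - f = (∑ g ∈ A, m g • coeff g u - f) -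
      ∑ g ∈ A, m g • (coeff g u - η g) := by
    simp only [smul_sub, sum_sub_distrib]
    ring
  rw [e2]
  refine (RVal.Ge.sum _ _ fun g _ => ge_smul hk _ (h1 g)).add
    (h.prc_ge hq (sub_mem (sum_mem hF) hf.1) ?_)
  rw [e3]
  exact (hf1.mono (by linarith)).sub (RVal.Ge.sum _ _ fun g _ => ge_smul hk _ (h1 g))

theorem eval_pt_eq (c : Fin 2 → k) (u : MvPolynomial (Fin 2) Ω) :
    eval (pt c) u = ∑ g ∈ u.support, (c 0 ^ g 0 * c 1 ^ g 1) • coeff g u := by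
  rw [eval_eq']
  refine sum_congr rfl fun g _ => ?_
  rw [Fin.prod_univ_two, Algebra.smul_def, map_mul, map_pow, map_pow, mul_comm]
  rfl

/-- **Row `GA6`.** -/
theorem rowGr0 [Infinite k] : RowGr0 (k := k) p v := by
  intro Wr Fr Kr W' F' K' S π w ρ c d yr s T D dd u e hk h hP hc hv hd hds hy hT hD hu N hN γ
  have hdd := ddL hD
  refine TWTG.cmp_mem_NU (S := u.support) (u := fun g => coeff g u) (fun c => ?_)
    (fun m hm γ => ?_) hN γ
  · rw [mem_US_iff hk hdd]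
    refine ⟨0, BS_zero hdd e, ?_⟩
    rw [sub_zero, ← eval_pt_eq]
    exact hu c
  · rw [mem_US_iff hk hdd] at hm ⊢
    have h1 := Grd.rel_gr h hP hc hv hT hD hk hd (by rwa [hds]) hu e _ m hm γ
    obtain ⟨f, hf, h2⟩ := h1
    refine ⟨f, hf, ?_⟩
    have e1 : ∀ (i1 i2 : DecidablePred fun g : Ex => TWTG.dgr
        (fun i => (QuotientAddGroup.mk (ρ i) : ℝ ⧸ VG v Wr)) g = γ),
        (@Finset.filter _ _ i1 u.support) = @Finset.filter _ _ i2 u.support := by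
      intro i1 i2
      ext g
      simp only [mem_filter]
    rw [e1]
    exact h2

end

end Pool.Agent.TWRA
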