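import Pool.Agent.Lib.TWRA.GrdA
import Pool.Agent.Lib.TWRR.D1

/-!
# CT, row A, `GA1`: the grading exists

* `Prj.comp`: composition of projections;
* `prT_tr`: the projection of a root;
* `rowGrd_of`: `RowGrd` from the density of the homogeneous elements.
-/

set_option autoImplicit false

open MvPolynomial

namespace Pool.Agent.TWRA

open Pool.Agent.H15JM (RVal)
open Pool.Agent.LU1 (VPos)
open Pool.Agent.D2 (Ctx0)
open Pool.Agent.D2P (clI mem_clI)
open Pool.Agent.TWM
open Pool.Agent.TWS (IsoE SphC PM VG MonG Pi0 NF evM dense_PM exists_pi0)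
open Pool.Agent.TWTam
open Pool.Agent.TWRR (GP Prj prG prG_eq)
open Pool.Agent.TWCT (GsM)

universe u

variable {k Ω : Type u} [Field k] [Field Ω] [Algebra k Ω] {v : RVal Ω} {p : ℕ} {x : Ω}
  {K F W K' K'' : IntermediateField k Ω} {G : AddSubgroup ℝ} {M : ℝ → Ω}

theorem prj_comp {π π' : Ω → Ω} (h : Prj p v K K' π) (h' : Prj p v K' K'' π') :
    Prj p v K K'' fun g => π (π' g) where
  le := h.le.trans h'.le
  mem := fun g hg => h.mem _ (h'.mem g hg)
  add := fun g hg g' hg' => by rw [h'.add g hg g' hg', h.add _ (h'.mem g hg) _ (h'.mem g' hg')]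
  mul := fun a ha g hg => by rw [h'.mul a (h.le ha) g hg, h.mul a ha _ (h'.mem g hg)]
  self := fun a ha => by rw [h'.self a (h.le ha), h.self a ha]
  pow := fun g hg => by rw [h'.pow g hg, h.pow _ (h'.mem g hg)]
  ge := fun g hg r hr => h.ge _ (h'.mem g hg) r (h'.ge g hg r hr)

/-- The projection of a root. -/
theorem prT_tr (hK : TamB p v x K) {t a : Ω} (ht : t ∈ TR p x) (ha : a ∈ K)
    (h1 : ¬ InV v K t) : prT p v x K (a * t) = 0 :=
  hK.prT_eq (zero_mem K) (by
    rw [sub_zero]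
    exact TPC.of_ps (TPS.mem_mul ha ht h1))

theorem prT_zero (hK : TamB p v x K) : prT p v x K 0 = 0 := hK.prT_self (zero_mem K)

/-- The homogeneous elements generate (the field `dW`). -/
def RowDW (k Ω : Type u) [Field k] [Field Ω] [Algebra k Ω] (p : ℕ) (v : RVal Ω) : Prop :=
  ∀ (x : Ω) (Wr : IntermediateField k Ω) (G : AddSubgroup ℝ) (M : ℝ → Ω), Ctx0 k v →
    CompleteV v → x ∈ Wr → x ≠ 0 → Cld v Wr → (∀ g ∈ VG v Wr, g / p ∈ VG v Wr) → MS v G M →
    (∀ g ∈ G, g ∈ VG v (tam p v x Wr) → g = 0) →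
    ∀ y ∈ PM v (tam p v x Wr) G M, ∀ r : ℝ, ∃ y₁ ∈ AddSubgroup.closure
      {y | ∃ q ∈ Mn p x Wr G M, ∃ f ∈ Wr, y = q * f}, v.Ge r (y - y₁)

/-- **The homogeneous elements generate.** -/
theorem rowDW [hp : Fact p.Prime] [CharP k p] [IsAlgClosed k] [IsAlgClosed Ω] :
    RowDW k Ω p v := by
  classical
  intro x Wr G M hk hcv hxW hx cW _ hM hG y hy r
  have hW : TamB p v x Wr := tamB_of hp.out hk hcv hx cW hxW
  have hgs : GsM v (tam p v x Wr) G M := ⟨hM, hG⟩
  obtain ⟨L, hL, h1⟩ := dense_PM hgs.monG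
    (⟨le_rfl, fun b hb hb0 => ⟨b, hb, by rw [sub_self]; exact fun h => absurd rfl h⟩⟩ :
      Imm v (tam p v x Wr) (tam p v x Wr)) hy r
  have h2 : ∀ g : ℝ, ∃ y₁ ∈ AddSubgroup.closure {y | ∃ q ∈ Mn p x Wr G M, ∃ f ∈ Wr, y = q * f},
      L g ≠ 0 → v.Ge r (L g * M g - y₁) := by
    intro g
    by_cases h0 : L g = 0
    · exact ⟨0, zero_mem _, fun h => absurd h0 h⟩
    obtain ⟨hg, -⟩ := hL.rep g h0
    obtain ⟨s, f, h3, -, h4, h5⟩ := tam_rep hp.out hx hxW hW.root (hL.mem g) (r - g)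
    refine ⟨∑ t ∈ s, M g * t * f t, sum_mem fun t ht => AddSubgroup.subset_closure
      ⟨M g * t, ⟨g, hg, t, h3 t ht, 1, one_mem _, one_ne_zero, by rw [mul_one]⟩, f t, h4 t ht,
        rfl⟩, fun _ => ?_⟩
    have e : L g * M g - ∑ t ∈ s, M g * t * f t = M g * (L g - ∑ t ∈ s, f t * t) := by
      rw [mul_sub, Finset.mul_sum, mul_comm]
      congr 1
      exact Finset.sum_congr rfl fun t _ => by ring
    rw [e]
    have h6 := (RVal.ge_self (v := v) (M g)).mul h5
    rw [hM.val g hg, add_sub_cancel] at h6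
    exact h6
  choose Y hY hYv using h2
  refine ⟨∑ g ∈ L.support, Y g, sum_mem fun g _ => hY g, ?_⟩
  have e : y - ∑ g ∈ L.support, Y g = (y - evM M L) + ∑ g ∈ L.support, (L g * M g - Y g) := by
    rw [Finset.sum_sub_distrib, evM, Finsupp.sum]
    ring
  rw [e]
  refine h1.add ?_
  exact RVal.Ge.sum _ _ fun g hg => hYv g (Finsupp.mem_support_iff.1 hg)

/-- **`GA1`: the grading exists.** -/
theorem rowGrd_of [hp : Fact p.Prime] [CharP k p] [CharP Ω p] [IsAlgClosed k] [IsAlgClosed Ω]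
    (hdW : RowDW k Ω p v) : RowGrd (k := k) p v := by
  intro x Wr Fr Kr G M hk hcv hxW hx cW cF cK hWF hFK hi hrF hrW hd hM hG hall
  have hxK := hFK (hWF hxW)
  have hK : TamB p v x Kr := tamB_of hp.out hk hcv hx cK hxK
  have hW : TamB p v x Wr := tamB_of hp.out hk hcv hx cW hxW
  have sF : TamS p v x Kr Fr := tamS_of_alg hFK cF (hWF hxW) hrF
  have sW : TamS p v x Kr Wr := tamS_of_alg (hWF.trans hFK) cW hxW hrW
  obtain ⟨π, hπ, hπA, hπ0⟩ := exists_gauss_tam hk hcv hxW hx cW cK hi hd hM hG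
  have hvt : ∀ t ∈ TR p x, v t ∈ VG v (tam p v x Wr) := fun t ht =>
    VG.self (tr_mem_tam ht) ht.1
  have hWt : VG v Wr ≤ VG v (tam p v x Wr) := VG.mono (le_tam Wr)
  have hval : ∀ g ∈ G, ∀ t ∈ TR p x, ∀ m ∈ Wr, m ≠ 0 → v (M g * t * m) = g + v t + v m :=
    fun g hg t ht m _ hm0 => by
      rw [v.map_mul (mul_ne_zero (hM.ne g hg) ht.1) hm0, v.map_mul (hM.ne g hg) ht.1,
        hM.val g hg]
  refine ⟨fun g => prT p v x Kr (π g), ?_⟩
  exact
    { prj := prj_comp (TWRR.TamB.prj hK) hπ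
      prF := fun g hg => (sF.prT_mem hK (hπA Fr hWF hFK g hg)).1
      prW := fun g hg => (sW.prT_mem hK (hπA Wr le_rfl (hWF.trans hFK) g hg)).1
      WF := hWF
      FK := hFK
      WW' := (le_tam Wr).trans TWS.PM.le
      FF' := (le_tam Fr).trans TWS.PM.le
      WF' := TWS.PM.mono (tam_mono hWF)
      FK' := TWS.PM.mono (tam_mono hFK)
      sub := by
        rintro c ⟨g, hg, t, ht, m, hm, hm0, rfl⟩
        exact mul_mem (mul_mem (TWS.PM.mon hg) (TWS.PM.le (tr_mem_tam ht)))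
          (TWS.PM.le (le_tam Wr hm))
      ne := by
        rintro c ⟨g, hg, t, ht, m, hm, hm0, rfl⟩
        exact mul_ne_zero (mul_ne_zero (hM.ne g hg) ht.1) hm0
      mul := by
        rintro c ⟨g, hg, t, ht, m, hm, hm0, rfl⟩ d ⟨g', hg', t', ht', m', hm', hm0', rfl⟩
        refine ⟨g + g', add_mem hg hg', t * t', TR.mul hp.out hx ht ht', m * m', mul_mem hm hm',
          mul_ne_zero hm0 hm0', ?_⟩
        rw [hM.mul g hg g' hg']
        ring
      inv := by
        rintro c ⟨g, hg, t, ht, m, hm, hm0, rfl⟩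
        refine ⟨-g, neg_mem hg, t⁻¹, TR.inv ht, m⁻¹, inv_mem hm, inv_ne_zero hm0, ?_⟩
        have h1 : M g * M (-g) = 1 := by
          rw [← hM.mul g hg _ (neg_mem hg), add_neg_cancel, hM.zero]
        rw [mul_inv, mul_inv, eq_comm]
        congr 2
        exact eq_inv_of_mul_eq_one_right h1
      bas := fun m hm hm0 => ⟨0, G.zero_mem, 1, one_mem_tr hp.out, m, hm, hm0, by
        rw [hM.zero, one_mul, one_mul]⟩
      real := by
        rintro c ⟨g, hg, t, ht, m, hm, hm0, rfl⟩ hc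
        rw [hval g hg t ht m hm hm0] at hc
        have hm1 : v m ∈ VG v Wr := VG.self hm hm0
        have hg0 : g = 0 := by
          refine hG g hg ?_
          have e : g = (g + v t + v m) - v m - v t := by ring
          rw [e]
          exact sub_mem (sub_mem (hWt hc) (hWt hm1)) (hvt t ht)
        subst hg0
        have h1 : v t ∈ VG v Wr := by
          have e : v t = (0 + v t + v m) - v m := by ring
          rw [e]
          exact sub_mem hc hm1
        obtain ⟨b, hb, hb0, hb1⟩ := h1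
        rw [hM.zero, one_mul]
        exact mul_mem (hW.root t ht ⟨b, hb, hb0, hb1⟩) hm
      off := by
        rintro c ⟨g, hg, t, ht, m, hm, hm0, rfl⟩ hc
        have hmt : t * m ∈ tam p v x Kr := mul_mem (tr_mem_tam ht)
          (le_tam Kr ((hWF.trans hFK) hm))
        by_cases hg0 : g = 0
        · subst hg0
          show prT p v x Kr (π _) = 0
          rw [hM.zero, one_mul, hπ.self _ hmt, mul_comm]
          refine prT_tr hK ht ((hWF.trans hFK) hm) ?_
          rintro ⟨b, hb, hb0, hb1⟩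
          refine hc ?_
          rw [hval 0 hg t ht m hm hm0, zero_add, ← hb1, ← v.map_mul hb0 hm0]
          obtain ⟨b', hb', h2⟩ := hi.imm b hb hb0
          obtain ⟨h3, h4⟩ := Gt.val_eq hb0 h2
          rw [v.map_mul hb0 hm0, ← h4]
          exact add_mem (VG.self hb' h3) (VG.self hm hm0)
        · show prT p v x Kr (π _) = 0
          rw [mul_assoc, hπ0 g hg hg0 _ hmt]
          exact prT_zero hK
      all := by
        intro r
        obtain ⟨g, hg, b, hb, hb0, h1⟩ := hall r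
        obtain ⟨f, hf, hf0, t, ht, h2⟩ := vg_tam_of hp.out hx hxW hW.root hb hb0
        refine ⟨M g * t * f, ⟨g, hg, t, ht, f, hf, hf0, rfl⟩, ?_⟩
        rw [hval g hg t ht f hf hf0]
        linarith
      pd := hd
      dW := hdW x Wr G M hk hcv hxW hx cW hd hM hG }

/-- **`GA1`.** -/
theorem rowGrd [Fact p.Prime] [CharP k p] [CharP Ω p] [IsAlgClosed k] [IsAlgClosed Ω] :
    RowGrd (k := k) p v := rowGrd_of rowDW

end Pool.Agent.TWRA
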