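import Pool.Agent.Lib.TWRA.Defs
import Pool.Agent.Lib.TWCY.ShpE

/-!
# CT, row A: GA4 and GA5

* `rowE`: two records of the same `a` have the same `e`;
* `rowHn`: if `e ≠ 0`, the natural values of the `∂_i` at `z` are in `O_0`.
-/

set_option autoImplicit false

open MvPolynomial

namespace Pool.Agent.TWRA

open Pool.Agent.H15JM (RVal)
open Pool.Agent.LU1 (VPos)
open Pool.Agent.D2 (Ctx0)
open Pool.Agent.TWM
open Pool.Agent.TWS (IsoE SphC)
open Pool.Agent.TWII (PG LP)
open Pool.Agent.TWN1 (PC)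
open Pool.Agent.TWLY
open Pool.Agent.TWCY

universe u

variable {k Ω : Type u} [Field k] [Field Ω] [Algebra k Ω] {v : RVal Ω} {p : ℕ}

/-- the polynomial `x P(X + δ)` -/
noncomputable def xPP (p : ℕ) (κ : ℕ → k) (t : ℕ) (x δ : Ω) : Polynomial Ω :=
  Polynomial.C x * ∑ i ∈ Finset.range (t + 1), Polynomial.C (algebraMap k Ω (κ i)) *
    (Polynomial.X + Polynomial.C δ) ^ p ^ (i + 1)

theorem xPP_mem {F : IntermediateField k Ω} {κ : ℕ → k} {t : ℕ} {x δ : Ω} (hx : x ∈ F)
    (hδ : δ ∈ F) : xPP p κ t x δ ∈ PI F :=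
  mul_mem (C_mem_PI hx) (sum_mem fun _ _ => mul_mem (C_mem_PI (F.algebraMap_mem _))
    (pow_mem (add_mem X_mem_PI (C_mem_PI hδ)) _))

theorem xPP_eval {κ : ℕ → k} {t : ℕ} {x δ y : Ω} :
    (xPP p κ t x δ).eval y = x * PP p κ t (y + δ) := by
  unfold xPP PP
  rw [Polynomial.eval_mul, Polynomial.eval_C, Polynomial.eval_finsetSum]
  congr 1
  refine Finset.sum_congr rfl fun i _ => ?_
  rw [Polynomial.eval_mul, Polynomial.eval_C, Polynomial.eval_pow, Polynomial.eval_add,
    Polynomial.eval_X, Polynomial.eval_C]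

theorem xPP_derivative [CharP Ω p] {κ : ℕ → k} {t : ℕ} {x δ : Ω} :
    Polynomial.derivative (xPP p κ t x δ) = 0 := by
  unfold xPP
  rw [Polynomial.derivative_C_mul, Polynomial.derivative_sum]
  rw [Finset.sum_eq_zero, mul_zero]
  intro i _
  rw [Polynomial.derivative_C_mul, Polynomial.derivative_pow]
  have h : ((p ^ (i + 1) : ℕ) : Ω) = 0 := by
    rw [Nat.cast_pow, CharP.cast_eq_zero, zero_pow (Nat.succ_ne_zero i)]
  rw [h, map_zero, zero_mul, zero_mul, mul_zero]

theorem const_eq_zero_of_gt (hk : Ctx0 k v) {c : k} (h : Gt v 0 (algebraMap k Ω c)) : c = 0 := by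
  by_contra hc
  have h1 := h (by rwa [Ne, _root_.map_eq_zero])
  rw [hk.triv c hc] at h1
  exact lt_irrefl _ h1

/-- Two records of the same `a` have the same `e`. -/
theorem e_eq [hp : Fact p.Prime] [CharP Ω p] [IsAlgClosed Ω]
    {L L' : ℕ → IntermediateField k Ω} {W F K : IntermediateField k Ω} {w w' : Fin 2 → Ω}
    {x z φ φ' a : Ω} {R R' : Rec k Ω} (hφ : φ ∈ F) (hφ' : φ' ∈ F)
    (h : CG p v L W F K w x (z - φ) a R) (h' : CG p v L' W F K w' x (z - φ') a R') :
    R'.e = R.e := by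
  have hxF : x ∈ F := h.trn.le h.xW
  have hP : eval w R.Pa ∈ F := eval_mem' (fun g => h.trn.le (h.PaW g)) h.trn.wF
  have hP' : eval w' R'.Pa ∈ F := eval_mem' (fun g => h'.trn.le (h'.PaW g)) h'.trn.wF
  set y := z - φ with hy
  set δ := φ - φ' with hδ
  have hδF : δ ∈ F := sub_mem hφ hφ'
  have ez : z - φ' = y + δ := by rw [hy, hδ]; ring
  set f : Polynomial Ω := Polynomial.C (algebraMap k Ω R'.e) *
      (Polynomial.X + Polynomial.C δ) + xPP p R'.κ R'.t x δ + Polynomial.C (eval w' R'.Pa) -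
    (Polynomial.C (algebraMap k Ω R.e) * Polynomial.X + xPP p R.κ R.t x 0 +
      Polynomial.C (eval w R.Pa)) with hf
  have hfF : f ∈ PI F := by
    refine sub_mem (add_mem (add_mem (mul_mem (C_mem_PI (F.algebraMap_mem _))
      (add_mem X_mem_PI (C_mem_PI hδF))) (xPP_mem hxF hδF)) (C_mem_PI hP'))
      (add_mem (add_mem (mul_mem (C_mem_PI (F.algebraMap_mem _)) X_mem_PI)
        (xPP_mem hxF (zero_mem _))) (C_mem_PI hP))
  have hfe : f.eval y = (a - (algebraMap k Ω R.e * y + x * PP p R.κ R.t y + eval w R.Pa)) -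
      (a - (algebraMap k Ω R'.e * (z - φ') + x * PP p R'.κ R'.t (z - φ') + eval w' R'.Pa)) := by
    rw [hf, ez]
    simp only [Polynomial.eval_sub, Polynomial.eval_add, Polynomial.eval_mul, Polynomial.eval_C,
      Polynomial.eval_X, xPP_eval, add_zero]
    ring
  have h1 : PG p v K 0 (f.eval y) := by
    rw [hfe]
    exact h.rel.sub h'.rel
  rw [h.K_eq] at h1
  have h2 := PC.jet_gt h.zt hfF h1.pc (j := 1)
    (fun h3 => hp.out.one_lt.not_ge (Nat.le_of_dvd one_pos h3))
  have h3 : (Polynomial.hasseDeriv 1 f).eval y = algebraMap k Ω (R'.e - R.e) := by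
    rw [Polynomial.hasseDeriv_one', hf]
    simp only [Polynomial.derivative_add, Polynomial.derivative_C_mul,
      Polynomial.derivative_X, Polynomial.derivative_C, xPP_derivative, Polynomial.eval_sub,
      Polynomial.eval_C, add_zero, mul_one, map_sub]
  rw [h3] at h2
  have h4 := const_eq_zero_of_gt h.c0 (by simpa using h2 : Gt v 0 (algebraMap k Ω (R'.e - R.e)))
  exact sub_eq_zero.1 h4

/-- **GA4.** -/
theorem rowE [Fact p.Prime] [CharP Ω p] [IsAlgClosed Ω] : RowE (k := k) p v := by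
  intro L L' W F K w w' x z φ φ' a R R' hφ hφ' h h' h0
  rw [e_eq hφ hφ' h h', h0]

/-- The first order coefficients of the orbit polynomial. -/
theorem coeff_single_shW (w : Fin 2 → Ω) (i : Fin 2) (P : MvPolynomial (Fin 2) Ω) :
    coeff (Finsupp.single i 1) (shW w P) = eval w (pderiv i P) := by
  have h0 : ∀ Q : MvPolynomial (Fin 2) Ω, coeff 0 (shW w Q) = eval w Q := by
    intro Q
    have h1 : eval (0 : Fin 2 → Ω) (shW w Q) = eval w Q := by
      unfold shW
      rw [bind₁, aeval_def, eval₂_eq', map_sum, eval_eq']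
      refine Finset.sum_congr rfl fun g _ => ?_
      rw [map_mul, map_prod, algebraMap_eq, eval_C]
      congr 1
      refine Finset.prod_congr rfl fun j _ => ?_
      rw [map_pow, map_add, eval_C, eval_X, Pi.zero_apply, add_zero]
    rw [← h1, eval_zero]
    rfl
  have h2 := coeff_pderiv (i := i) (shW w P) 0
  rw [pderiv_shW, h0, zero_add, Finsupp.zero_apply] at h2
  rw [h2]
  simp

/-- **GA5.** -/
theorem rowHn [hp : Fact p.Prime] [Infinite k] : RowHn (k := k) p v := by
  intro L W F K w x z a R h he i ε hε θ hθ hzθ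
  have hT := h.trn
  obtain ⟨P, hP, hPθ⟩ := hT.dns θ hθ 0
  have hPF : ∀ g, coeff g P ∈ F := fun g => hT.le (hP g)
  have hPe : eval w P ∈ F := eval_mem' hPF hT.wF
  -- the first order coefficient of the shape is `0`
  have hu : coeff (Finsupp.single i 1) R.u = 0 := by
    have hnd : ¬ DvE p (Finsupp.single i 1) := by
      intro h1
      have h2 := h1 i
      rw [Finsupp.single_eq_same] at h2
      exact hp.out.one_lt.not_ge (Nat.le_of_dvd one_pos h2)
    unfold Rec.u
    rw [coeff_uu, h.fp he _ hnd, add_zero]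
    refine Finset.sum_eq_zero fun j _ => ?_
    rw [h.Np he _ hnd j, map_zero, zero_mul]
  have h0 : ∀ c : Fin 2 → k, v.Ge (-ε) (eval (pt c) (shW w P - C (eval w P) - R.u)) := by
    intro c
    have e : eval (pt c) (shW w P - C (eval w P) - R.u) =
        (R.T c z - z - eval (pt c) R.u) - (R.T c (z - θ) - (z - θ)) -
          (R.T c (θ - eval w P) - (θ - eval w P)) := by
      rw [map_sub, map_sub, map_sub, map_sub, eval_C, ← hT.T_eval_shW hP]
      ring
    rw [e]
    refine (((h.shp.jet c).mono (by linarith)).sub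
      (((hT.iso c).ge_iff.2 hzθ).sub hzθ)).sub ?_
    exact (((hT.iso c).ge_iff.2 hPθ).sub hPθ).mono (by linarith)
  have h1 := ge_coeff h.c0 h0 (Finsupp.single i 1)
  have hne : (0 : Fin 2 →₀ ℕ) ≠ Finsupp.single i 1 := by
    intro h2
    have h3 := DFunLike.congr_fun h2 i
    rw [Finsupp.zero_apply, Finsupp.single_eq_same] at h3
    exact zero_ne_one h3
  rw [coeff_sub, coeff_sub, coeff_C, if_neg hne, sub_zero, hu, sub_zero,
    coeff_single_shW] at h1
  rw [zero_sub]
  have h2 := (h.drt.drvi i).norm _ (sub_mem hθ hPe) _ hPθ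
  rw [(h.drt.drvi i).map_sub hθ hPe, h.drt.dd_eval hT i P hP] at h2
  have h3 := (h2.mono (by linarith : -ε ≤ 0)).add h1
  rw [sub_add_cancel] at h3
  exact h3.neg

end Pool.Agent.TWRA
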