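import Pool.Agent.Lib.TWCY.One
import Pool.Agent.Lib.TWRA.Defs

/-!
# CT, row A: `W₁` is intrinsic (GA3)

* `dd_shA'`: the `∂_i` kill the coefficients of `Pa(w + s) - Pa(w)`;
* `mem_Z0`, `mem_Z1`: the spaces `F + O_0`, `{f : ∂_i f strict} + O_0`;
* `rowWN`: **`R.WN = US`**.
-/

set_option autoImplicit false

open MvPolynomial

namespace Pool.Agent.TWRA

open Pool.Agent.H15JM (RVal)
open Pool.Agent.LU1 (VPos)
open Pool.Agent.D2 (Ctx0)
open Pool.Agent.TWM
open Pool.Agent.TWS (IsoE SphC)
open Pool.Agent.TWLY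
open Pool.Agent.TWCY
open TWIV.JW (BB sh cz)

universe u

variable {k Ω : Type u} [Field k] [Field Ω] [Algebra k Ω] {v : RVal Ω}
  {W F K : IntermediateField k Ω} {w : Fin 2 → Ω} {x z a : Ω} {R : Rec k Ω}
  {L : ℕ → IntermediateField k Ω} {p : ℕ} {T : (Fin 2 → k) → Ω →ₐ[k] Ω} {dd : Fin 2 → Ω → Ω}

/-- **The `∂_i` kill the coefficients of `Pa(w + s) - Pa(w)`.** -/
theorem dd_shA' [hp : Fact p.Prime] [CharP Ω p] (hT : Trn v W F w T) (hdd : DDi v W F w dd)
    (h : NF p v W F K w x z a R) (i : Fin 2) (g : Ex) : dd i (coeff g (shA w R.Pa)) = 0 := by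
  by_cases hg0 : g = 0
  · have h1 : coeff g (shA w R.Pa) = 0 := by
      rw [hg0, shA_eq, coeff_sub, coeff_zero_tr, coeff_C, if_pos rfl, sub_self]
    rw [h1, (hdd.drv i).map_zero]
  · rw [coeff_shA_eq hg0]
    by_cases hd : ∀ j, p ∣ g j
    · have hW : ∀ m, coeff m (coeff g (sh Ω R.Pa)) ∈ W := by
        intro m
        rw [coeff_sh']
        exact mul_mem (natCast_mem _ _) (h.PaW _)
      rw [dd_eval hT hdd i hW]
      refine PDv.coeff_tr_single (p := p) ?_ w i
      intro m j hm
      rw [coeff_sh']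
      have h1 : ¬ DvE p (g + m) := by
        intro h1
        exact hm ((Nat.dvd_add_right (hd j)).1 (by simpa using h1 j))
      have h2 : coeff (g + m) R.l = 0 := by
        by_contra h0
        obtain ⟨i', hi'⟩ := h.lin _ h0
        apply hg0
        ext j'
        have h3 := DFunLike.congr_fun hi' j'
        rw [Finsupp.add_apply, Finsupp.single_apply] at h3
        have h4 : g j' ≤ 1 := by split_ifs at h3 <;> omega
        have h5 := hd j'
        show g j' = 0
        by_contra h6
        have h7 := Nat.le_of_dvd (Nat.pos_of_ne_zero h6) h5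
        have := hp.out.two_le
        omega
      rw [h.PaD _ h1, h2, map_zero, mul_zero]
    · push Not at hd
      obtain ⟨j, hj⟩ := hd
      rw [h.coeff_shA_nd hj, eval_C, (hdd.drv i).alg]

/-! ### The spaces -/

theorem mem_Z0 (hk : Ctx0 k v) {y : Ω} : y ∈ Z0 v F ↔ ∃ f ∈ F, v.Ge 0 (y - f) := by
  refine ⟨fun h => ?_, fun h => Submodule.subset_span h⟩
  unfold Z0 at h
  induction h using Submodule.span_induction with
  | mem y hy => exact hy
  | zero => exact ⟨0, zero_mem _, by rw [sub_zero]; exact RVal.Ge.zero⟩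
  | add y y' _ _ hy hy' =>
    obtain ⟨f, hf, h2⟩ := hy
    obtain ⟨f', hf', h2'⟩ := hy'
    exact ⟨f + f', add_mem hf hf', by rw [add_sub_add_comm]; exact h2.add h2'⟩
  | smul c y _ hy =>
    obtain ⟨f, hf, h2⟩ := hy
    refine ⟨algebraMap k Ω c * f, mul_mem (F.algebraMap_mem _) hf, ?_⟩
    rw [Algebra.smul_def, ← mul_sub]
    exact ((hk.ge c).mul h2).mono (by linarith)

theorem mem_Z1 (hk : Ctx0 k v) (hD : ∀ i, Drv v F (dd i)) {y : Ω} :
    y ∈ Z1 v F dd ↔ ∃ f ∈ F, (∀ i, Gt v 0 (dd i f)) ∧ v.Ge 0 (y - f) := by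
  refine ⟨fun h => ?_, fun h => Submodule.subset_span h⟩
  unfold Z1 at h
  induction h using Submodule.span_induction with
  | mem y hy => exact hy
  | zero =>
    refine ⟨0, zero_mem _, fun i => ?_, by rw [sub_zero]; exact RVal.Ge.zero⟩
    rw [(hD i).map_zero]
    exact fun h => absurd rfl h
  | add y y' _ _ hy hy' =>
    obtain ⟨f, hf, h1, h2⟩ := hy
    obtain ⟨f', hf', h1', h2'⟩ := hy'
    refine ⟨f + f', add_mem hf hf', fun i => ?_, ?_⟩
    · rw [(hD i).add f hf f' hf']
      exact VPos.add (h1 i) (h1' i)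
    · rw [add_sub_add_comm]
      exact h2.add h2'
  | smul c y _ hy =>
    obtain ⟨f, hf, h1, h2⟩ := hy
    refine ⟨algebraMap k Ω c * f, mul_mem (F.algebraMap_mem _) hf, fun i => ?_, ?_⟩
    · rw [(hD i).map_smul c hf]
      exact VPos.mul' (hk.ge c) (h1 i)
    · rw [Algebra.smul_def, ← mul_sub]
      exact ((hk.ge c).mul h2).mono (by linarith)

theorem Z1_le_Z0 : Z1 v F dd ≤ Z0 v F :=
  Submodule.span_mono fun _ ⟨f, hf, _, h⟩ => ⟨f, hf, h⟩

theorem mem_Z1_of_ge (hD : ∀ i, Drv v F (dd i)) {y : Ω} (h : v.Ge 0 y) : y ∈ Z1 v F dd := by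
  refine Submodule.subset_span ⟨0, zero_mem _, fun i => ?_, by rwa [sub_zero]⟩
  rw [(hD i).map_zero]
  exact fun h => absurd rfl h

theorem NU_mono {V : Type*} [AddCommGroup V] [Module k V] {Z Z' : Submodule k V} (h : Z ≤ Z')
    (y : (Fin 2 → k) → V) : TWTG.NU Z' y ≤ TWTG.NU Z y := by
  rintro N ⟨l, h1, h2⟩
  exact ⟨l, fun z hz => h1 z (h hz), h2⟩

/-! ### The linear algebra -/

section lin

/-- The coefficients of the shape, combined. -/
theorem sum_smul_u {m : Ex → k} {S : Finset Ex} :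
    ∑ g ∈ S, m g • coeff g R.u = ∑ j, (∑ g ∈ S, m g * coeff g (R.N j)) • R.n j +
      ∑ g ∈ S, m g • coeff g R.f := by
  unfold Rec.u
  simp_rw [coeff_uu, smul_add, Finset.sum_add_distrib, Finset.sum_smul, Finset.smul_sum]
  congr 1
  rw [Finset.sum_comm]
  refine Finset.sum_congr rfl fun j _ => Finset.sum_congr rfl fun g _ => ?_
  rw [mul_smul, Algebra.smul_def (coeff g (R.N j))]

variable [hp : Fact p.Prime] [CharP Ω p]

/-- The residues of the `∂_i` of the combinations of the coefficients of `f`. -/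
theorem rs_comb (hk : Ctx0 k v) (h : CG p v L W F K w x z a R) {m : Ex → k} {S : Finset Ex}
    (hm : ∀ j, ∑ g ∈ S, m g * coeff g (R.N j) = 0) (i : Fin 2) :
    Rs v (algebraMap k Ω R.e * R.dd i (∑ g ∈ S, m g • coeff g R.f))
      (∑ g ∈ S, m g * coeff g (R.Gi i)) := by
  have hD : Drv v F (R.dd i) := h.drt.drvi i
  have h1 : Rs v (∑ g ∈ S, algebraMap k Ω (m g) * (algebraMap k Ω R.e *
      (∑ j, algebraMap k Ω (coeff g (R.N j)) * R.nd i j + R.dd i (coeff g R.f)) +
        R.dd i (coeff g (shA w R.Pa)))) (∑ g ∈ S, m g * coeff g (R.Gi i)) :=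
    Rs.sum _ fun g _ => (h.resi i g).smul hk (m g)
  have e : ∑ g ∈ S, algebraMap k Ω (m g) * (algebraMap k Ω R.e *
      (∑ j, algebraMap k Ω (coeff g (R.N j)) * R.nd i j + R.dd i (coeff g R.f)) +
        R.dd i (coeff g (shA w R.Pa))) =
      algebraMap k Ω R.e * R.dd i (∑ g ∈ S, m g • coeff g R.f) := by
    have e1 : R.dd i (∑ g ∈ S, m g • coeff g R.f) =
        ∑ g ∈ S, algebraMap k Ω (m g) * R.dd i (coeff g R.f) := by
      rw [hD.map_sum _ fun g _ => by
        rw [Algebra.smul_def]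
        exact mul_mem (F.algebraMap_mem _) (h.shp.fF g)]
      refine Finset.sum_congr rfl fun g _ => ?_
      rw [Algebra.smul_def, hD.map_smul _ (h.shp.fF g)]
    have e2 : ∑ g ∈ S, algebraMap k Ω (m g) *
        (∑ j, algebraMap k Ω (coeff g (R.N j)) * R.nd i j) = 0 := by
      simp_rw [Finset.mul_sum]
      rw [Finset.sum_comm]
      refine Finset.sum_eq_zero fun j _ => ?_
      have e3 : ∑ g ∈ S, algebraMap k Ω (m g) * (algebraMap k Ω (coeff g (R.N j)) * R.nd i j) =
          algebraMap k Ω (∑ g ∈ S, m g * coeff g (R.N j)) * R.nd i j := by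
        rw [map_sum, Finset.sum_mul]
        refine Finset.sum_congr rfl fun g _ => ?_
        rw [map_mul, mul_assoc]
      rw [e3, hm, map_zero, zero_mul]
    calc ∑ g ∈ S, algebraMap k Ω (m g) * (algebraMap k Ω R.e *
        (∑ j, algebraMap k Ω (coeff g (R.N j)) * R.nd i j + R.dd i (coeff g R.f)) +
          R.dd i (coeff g (shA w R.Pa)))
        = algebraMap k Ω R.e * (∑ g ∈ S, algebraMap k Ω (m g) *
            (∑ j, algebraMap k Ω (coeff g (R.N j)) * R.nd i j)) +
          algebraMap k Ω R.e * ∑ g ∈ S, algebraMap k Ω (m g) * R.dd i (coeff g R.f) := by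
          rw [← mul_add, ← Finset.sum_add_distrib, Finset.mul_sum]
          refine Finset.sum_congr rfl fun g _ => ?_
          rw [dd_shA' h.trn h.toCD.DDi h.toNF i g]
          ring
      _ = _ := by rw [e2, mul_zero, zero_add, ← e1]
  rwa [e] at h1

end lin

/-- A polynomial in a subspace, by the functionals. -/
theorem mem_of_functional {V : Submodule k (MvPolynomial (Fin 2) k)} {P : MvPolynomial (Fin 2) k}
    (h : ∀ m : Ex → k, (∀ Q ∈ V, ∑ g ∈ Q.support, m g * coeff g Q = 0) →
      ∑ g ∈ P.support, m g * coeff g P = 0) : P ∈ V := by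
  by_contra hcon
  obtain ⟨φ, h1, h2⟩ := Submodule.exists_dual_map_eq_bot_of_notMem hcon inferInstance
  have h3 : ∀ Q : MvPolynomial (Fin 2) k,
      φ Q = ∑ g ∈ Q.support, φ (monomial g 1) * coeff g Q := by
    intro Q
    conv_lhs => rw [Q.as_sum]
    rw [map_sum]
    refine Finset.sum_congr rfl fun g _ => ?_
    have : monomial g (coeff g Q) = coeff g Q • monomial g (1 : k) := by
      rw [smul_monomial, smul_eq_mul, mul_one]
    rw [this, map_smul, smul_eq_mul, mul_comm]
  apply h1
  rw [h3 P]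
  refine h (fun g => φ (monomial g 1)) fun Q hQ => ?_
  rw [← h3 Q]
  have h4 : φ Q ∈ Submodule.map φ V := ⟨Q, hQ, rfl⟩
  rw [h2] at h4
  exact h4

theorem sum_support_eq {S : Finset Ex} {Q : MvPolynomial (Fin 2) k} (h : Q.support ⊆ S)
    (m : Ex → k) : ∑ g ∈ Q.support, m g * coeff g Q = ∑ g ∈ S, m g * coeff g Q := by
  refine Finset.sum_subset h fun g _ hg => ?_
  rw [notMem_support_iff.1 hg, mul_zero]

variable [hp : Fact p.Prime] [CharP Ω p] [Infinite k]

/-- **`W₁` is intrinsic.** -/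
theorem rowWN (p : ℕ) [hp : Fact p.Prime] [CharP Ω p] (v : RVal Ω) : RowWN (k := k) p v := by
  classical
  intro L W F K w x z a R h
  have hk : Ctx0 k v := h.c0
  have hD : ∀ i, Drv v F (R.dd i) := h.drt.drvi
  have hT := h.trn
  -- the shape, with its supports
  set S : Finset Ex := R.u.support ∪ (R.f.support ∪ (Finset.univ.biUnion fun j => (R.N j).support) ∪
    (Finset.univ.biUnion fun i => (R.Gi i).support)) with hS
  have hSu : R.u.support ⊆ S := fun g hg => Finset.mem_union_left _ hg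
  have hSN : ∀ j, (R.N j).support ⊆ S := fun j g hg =>
    Finset.mem_union_right _ (Finset.mem_union_left _ (Finset.mem_union_right _
      (Finset.mem_biUnion.2 ⟨j, Finset.mem_univ _, hg⟩)))
  have hSG : ∀ i, (R.Gi i).support ⊆ S := fun i g hg =>
    Finset.mem_union_right _ (Finset.mem_union_right _
      (Finset.mem_biUnion.2 ⟨i, Finset.mem_univ _, hg⟩))
  have hjet : ∀ c : Fin 2 → k, v.Ge 0 (R.T c z - z - eval (pt c) R.u) := h.shp.jet
  have hev : ∀ c : Fin 2 → k, eval (pt (Ω := Ω) c) R.u =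
      ∑ g ∈ S, (c 0 ^ g 0 * c 1 ^ g 1) • coeff g R.u := by
    intro c
    rw [eval_eq']
    have h1 : ∀ g : Ex, coeff g R.u * ∏ i, pt (Ω := Ω) c i ^ g i =
        (c 0 ^ g 0 * c 1 ^ g 1) • coeff g R.u := by
      intro g
      rw [Fin.prod_univ_two, Algebra.smul_def, mul_comm, map_mul, map_pow, map_pow]
      rfl
    simp_rw [h1]
    refine Finset.sum_subset hSu fun g _ hg => ?_
    rw [notMem_support_iff.1 hg, smul_zero]
  have hev' : ∀ (c : Fin 2 → k) (Q : MvPolynomial (Fin 2) k), Q.support ⊆ S →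
      eval c Q = ∑ g ∈ S, (c 0 ^ g 0 * c 1 ^ g 1) * coeff g Q := by
    intro c Q hQ
    rw [eval_eq', ← sum_support_eq hQ fun g => c 0 ^ g 0 * c 1 ^ g 1]
    refine Finset.sum_congr rfl fun g _ => ?_
    rw [Fin.prod_univ_two, mul_comm]
  -- the noises, modulo `F + O_0`
  have hN : ∀ j, R.N j ∈ TWTG.NU (Z0 v F) fun c => R.T c z - z := by
    intro j
    refine TWTG.mem_NU (n := R.n) (N := R.N) (fun c => ?_) (fun a ha => ?_) j
    · refine (mem_Z0 hk).2 ⟨eval (pt c) R.f, eval_pt_mem h.shp.fF c, ?_⟩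
      have h1 := hjet c
      have e : eval (pt c) R.u = ∑ j, eval c (R.N j) • R.n j + eval (pt c) R.f := by
        unfold Rec.u
        rw [eval_uu]
        simp_rw [Algebra.smul_def]
      rw [e] at h1
      rwa [← sub_sub] at h1
    · have h1 := (mem_Z0 hk).1 ha
      simp_rw [Algebra.smul_def] at h1
      exact h.shp.ind a h1
  -- the values of a functional
  have hlam : ∀ (Z : Submodule k Ω) (l : Ω →ₗ[k] k), (∀ y ∈ Z, l y = 0) →
      Z1 v F R.dd ≤ Z → ∀ c : Fin 2 → k,
      l (R.T c z - z) = ∑ g ∈ S, (c 0 ^ g 0 * c 1 ^ g 1) * l (coeff g R.u) := by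
    intro Z l hl hZ c
    have h1 := hl _ (hZ (mem_Z1_of_ge hD (hjet c)))
    rw [map_sub, sub_eq_zero] at h1
    rw [h1, hev, map_sum]
    refine Finset.sum_congr rfl fun g _ => ?_
    rw [map_smul, smul_eq_mul]
  by_cases he : R.e = 0
  · -- `e = 0`
    unfold US
    rw [if_pos he]
    have hG0 : ∀ i, R.Gi i = 0 := by
      intro i
      ext g
      have h1 := h.resi i g
      rw [he, map_zero, zero_mul, zero_add, dd_shA' hT h.toCD.DDi h.toNF i g] at h1
      rw [coeff_zero]
      exact Rs.unique hk h1 Rs.zero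
    refine le_antisymm (Submodule.span_le.2 ?_) ?_
    · rintro _ (⟨j, rfl⟩ | ⟨i, rfl⟩)
      · exact hN j
      · rw [hG0]
        exact zero_mem _
    · refine (TWTG.NU_le_span (n := R.n) (N := R.N) fun c => ?_).trans
        (Submodule.span_mono Set.subset_union_left)
      refine (mem_Z0 hk).2 ⟨eval (pt c) R.f, eval_pt_mem h.shp.fF c, ?_⟩
      have h1 := hjet c
      have e : eval (pt c) R.u = ∑ j, eval c (R.N j) • R.n j + eval (pt c) R.f := by
        unfold Rec.u
        rw [eval_uu]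
        simp_rw [Algebra.smul_def]
      rw [e] at h1
      rwa [← sub_sub] at h1
  · -- `e ≠ 0`
    unfold US
    rw [if_neg he]
    have heΩ : algebraMap k Ω R.e ≠ 0 := by rwa [Ne, _root_.map_eq_zero]
    have hgt : ∀ {y : Ω}, VPos v (algebraMap k Ω R.e * y) → Gt v 0 y := by
      intro y hy h0
      have h1 := hy (mul_ne_zero heΩ h0)
      rwa [v.map_mul heΩ h0, hk.triv _ he, zero_add] at h1
    refine le_antisymm (Submodule.span_le.2 ?_) ?_
    · rintro _ (⟨j, rfl⟩ | ⟨i, rfl⟩)
      · exact NU_mono Z1_le_Z0 _ (hN j)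
      · -- `G^i`
        obtain ⟨l, hl1, hl2⟩ := TWTG.exists_functional (Z := Z1 v F R.dd) S
          (fun g => coeff g R.u) (fun g => coeff g (R.Gi i)) (by
            intro m hm
            obtain ⟨f₁, hf₁, h1, h2⟩ := (mem_Z1 hk hD).1 hm
            rw [sum_smul_u] at h2
            have hfm : (∑ g ∈ S, m g • coeff g R.f) ∈ F := sum_mem fun g _ => by
              rw [Algebra.smul_def]
              exact mul_mem (F.algebraMap_mem _) (h.shp.fF g)
            have h3 : ∀ j, ∑ g ∈ S, m g * coeff g (R.N j) = 0 := by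
              refine h.shp.ind _ ⟨f₁ - ∑ g ∈ S, m g • coeff g R.f, sub_mem hf₁ hfm, ?_⟩
              simp_rw [← Algebra.smul_def]
              convert h2 using 1
              ring
            simp_rw [h3, zero_smul] at h2
            rw [Finset.sum_const_zero, zero_add] at h2
            -- `∑ m_g f_g` has strict derivatives
            have h4 : Gt v 0 (R.dd i (∑ g ∈ S, m g • coeff g R.f)) := by
              have h5 := (hD i).vpos_of_ge hk (sub_mem hfm hf₁) h2
              rw [(hD i).map_sub hfm hf₁] at h5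
              have h6 := VPos.add h5 (h1 i)
              rwa [sub_add_cancel] at h6
            have h5 := rs_comb hk h h3 i
            have h6 : Rs v (algebraMap k Ω R.e * R.dd i (∑ g ∈ S, m g • coeff g R.f)) (0 : k) :=
              rs_zero_iff.2 (VPos.mul' (hk.ge _) h4)
            exact Rs.unique hk h5 h6)
        refine ⟨l, hl1, fun c => ?_⟩
        rw [hlam _ l hl1 le_rfl c, hev' c _ (hSG i)]
        exact Finset.sum_congr rfl fun g hg => by rw [hl2 g hg]
    · -- `NU ≤ W₁`
      rintro P ⟨l, hl1, hl2⟩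
      have hP : P = ∑ g ∈ S, monomial g (l (coeff g R.u)) := by
        refine MvPolynomial.funext fun c => ?_
        rw [hl2, hlam _ l hl1 le_rfl c, map_sum]
        refine Finset.sum_congr rfl fun g _ => ?_
        rw [eval_monomial, Finsupp.prod_fintype _ _ (fun i => pow_zero _), Fin.prod_univ_two,
          mul_comm]
      have hcP : ∀ g ∈ S, coeff g P = l (coeff g R.u) := by
        intro g hg
        rw [hP, coeff_sum]
        simp_rw [coeff_monomial]
        rw [Finset.sum_ite_eq', if_pos hg]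
      have hSP : P.support ⊆ S := by
        intro g hg
        by_contra hcon
        apply mem_support_iff.1 hg
        rw [hP, coeff_sum]
        simp_rw [coeff_monomial]
        rw [Finset.sum_ite_eq', if_neg hcon]
      refine mem_of_functional fun m hm => ?_
      rw [sum_support_eq hSP]
      have hmN : ∀ j, ∑ g ∈ S, m g * coeff g (R.N j) = 0 := by
        intro j
        rw [← sum_support_eq (hSN j)]
        exact hm _ (Submodule.subset_span (Or.inl ⟨j, rfl⟩))
      have hmG : ∀ i, ∑ g ∈ S, m g * coeff g (R.Gi i) = 0 := by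
        intro i
        rw [← sum_support_eq (hSG i)]
        exact hm _ (Submodule.subset_span (Or.inr ⟨i, rfl⟩))
      have h1 : ∑ g ∈ S, m g * coeff g P = l (∑ g ∈ S, m g • coeff g R.u) := by
        rw [map_sum]
        refine Finset.sum_congr rfl fun g hg => ?_
        rw [map_smul, smul_eq_mul, hcP g hg]
      rw [h1]
      refine hl1 _ ?_
      rw [sum_smul_u]
      simp_rw [hmN, zero_smul]
      rw [Finset.sum_const_zero, zero_add]
      have hfm : (∑ g ∈ S, m g • coeff g R.f) ∈ F := sum_mem fun g _ => by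
        rw [Algebra.smul_def]
        exact mul_mem (F.algebraMap_mem _) (h.shp.fF g)
      refine Submodule.subset_span ⟨_, hfm, fun i => ?_, by rw [sub_self]; exact RVal.Ge.zero⟩
      have h5 := rs_comb hk h hmN i
      rw [hmG i] at h5
      exact hgt (rs_zero_iff.1 h5)

end Pool.Agent.TWRA
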