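import Pool.Agent.Lib.TWRA.Real
import Pool.Agent.Lib.TWRA.GrR
import Pool.Agent.Lib.TWRA.Gr
import Pool.Agent.Lib.TWRA.WN
import Pool.Agent.Lib.TWRA.RowEH
import Pool.Agent.Lib.TWRA.GL
import Pool.Agent.Lib.TWRA.Grd
import Pool.Agent.Lib.TWCY.CoreAll
import Pool.Agent.Lib.TWCY.RowNFc
import Pool.Agent.Lib.TWCY.RowG

/-!
# CT, row A: all rows together

`rowReal_all`: a real pair without noise in the second variable; `rowA_of`: row A from the last row.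
-/

set_option autoImplicit false

namespace Pool.Agent.TWRA

open Pool.Agent.H15JM (RVal)
open Pool.Agent.TWCT (RowA)
open Pool.Agent.TWCY

universe u

section

variable {k Ω : Type u} [Field k] [Field Ω] [Algebra k Ω] {p : ℕ} {v : RVal Ω}

theorem rowReal_all [Fact p.Prime] [CharP k p] [CharP Ω p] [IsAlgClosed k] [IsAlgClosed Ω] :
    RowReal (k := k) p v :=
  rowReal core rowTrn rowNF_all rowG (rowWN p v) rowE rowHn (rowGr (rowWN p v) rowHn rowGr0)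

end

section

variable {k Ω₀ Ω : Type u} [Field k] [Field Ω₀] [Algebra k Ω₀] [Field Ω] [Algebra k Ω] {p : ℕ}
  {v₀ : RVal Ω₀} {v : RVal Ω} {ι : Ω₀ →ₐ[k] Ω} [hp : Fact p.Prime] [CharP Ω₀ p] [CharP Ω p]
  [CharP k p] [IsAlgClosed k] [IsAlgClosed Ω₀] [IsAlgClosed Ω]

/-- **Row A from the last row.** -/
theorem rowA_of (h3 : RowJ1E p v₀ v ι) (x₀ : Ω₀)
    (W₀ K₀ : IntermediateField k Ω₀) (al : Ω₀) : RowA p v₀ v ι x₀ W₀ K₀ al := by
  intro ν F w₁ w₂ z r₁ r₂ s hJ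
  exact rowA_of_rows hJ.iso hJ.cpl (rowGL_of rowGrd) rowReal_all h3 x₀ W₀ K₀ al ν F w₁ w₂
    z r₁ r₂ s hJ

end

end Pool.Agent.TWRA
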