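import Pool.Agent.Lib.TWRA.Defs
import Pool.Agent.Lib.TWC.Lv0M
import Pool.Agent.Lib.TWCT.HDup

/-!
# CT, row A: the global data, the fields

* `mn_mem`: the exact monomials are in `W'`; `exists_mn`: they have all the values;
* `exists_gl`: the complement `G`, the monomials `M`, the chain `L`;
* `hd_of`: the field `hd` of `GLD`.
-/

set_option autoImplicit false

open MvPolynomial

namespace Pool.Agent.TWRA

open Pool.Agent.H15JM (RVal)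
open Pool.Agent.LU1 (VPos)
open Pool.Agent.D2 (Ctx0)
open Pool.Agent.D2P (clI)
open Pool.Agent.TW (HRone Ctx)
open Pool.Agent.TWM
open Pool.Agent.TWS (IsoE SphC PM VG)
open Pool.Agent.TWS7 (PDiv)
open Pool.Agent.TWII (PG LP)
open Pool.Agent.TWN1 (Par Unh Nrm)
open Pool.Agent.TWTam (TR tam tr_mem_tam le_tam TR.mul TR.inv one_mem_tr)
open Pool.Agent.TWRR (GP Prj)
open Pool.Agent.TWCT (SMo ConS MovV MovR J1D tH RowA GsM Chn vg_tH vg_tam exists_rat exists_gsm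
  mem_tH tr_map)
open Pool.Agent.TWLY
open Pool.Agent.TWCY

universe u

variable {k Ω₀ Ω : Type u} [Field k] [Field Ω₀] [Algebra k Ω₀] [Field Ω] [Algebra k Ω]
  {p : ℕ} {v₀ : RVal Ω₀} {v : RVal Ω} {ι : Ω₀ →ₐ[k] Ω} {x₀ : Ω₀} {G : AddSubgroup ℝ} {M : ℝ → Ω}

/-- The powers of the roots. -/
theorem tr_zpow {x t : Ω} (ht : t ∈ TR p x) (e : ℤ) : t ^ e ∈ TR p x := by
  obtain ⟨h0, n, hn, m, h1⟩ := ht
  refine ⟨zpow_ne_zero _ h0, n, hn, m * e, ?_⟩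
  rw [zpow_mul, ← h1, ← zpow_natCast, ← zpow_mul, ← zpow_natCast, ← zpow_mul, mul_comm]

/-- **The exact monomials are in `W'`.** -/
theorem mn_mem [IsAlgClosed Ω₀] {B : IntermediateField k Ω₀} (hM : MS v G M) {c : Ω}
    (hc : c ∈ Mn p (ι x₀) (B.map ι) G M) : c ∈ PM v (tH p v₀ ι x₀ B) G M ∧ c ≠ 0 := by
  obtain ⟨g, hg, t, ht, m, ⟨m₀, hm, rfl⟩, hm0, rfl⟩ := hc
  have ht0 : t ≠ 0 := ht.1
  rw [tr_map] at ht
  obtain ⟨t₀, ht', rfl⟩ := ht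
  refine ⟨mul_mem (mul_mem (TWS.PM.mon hg) (TWS.PM.le ⟨t₀, tr_mem_tam ht', rfl⟩))
    (TWS.PM.le (mem_tH hm)), mul_ne_zero (mul_ne_zero (hM.ne g hg) ht0) hm0⟩

/-- The rational multiples of `v x` are values of `t * m`. -/
theorem exists_tm [hp : Fact p.Prime] [IsAlgClosed Ω₀] {W : IntermediateField k Ω₀} (hx : x₀ ∈ W)
    (hx0 : x₀ ≠ 0) (hd : PDiv p v₀ W) (q : ℚ) :
    ∃ t ∈ TR p x₀, ∃ m ∈ W, m ≠ 0 ∧ v₀ (t * m) = q * v₀ x₀ := by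
  have hpow : ∀ j : ℕ, ∃ g ∈ W, g ≠ 0 ∧ v₀ x₀ = p ^ j * v₀ g := by
    intro j
    induction j with
    | zero => exact ⟨x₀, hx, hx0, by rw [pow_zero, one_mul]⟩
    | succ j ih =>
      obtain ⟨g, hg, hg0, h1⟩ := ih
      obtain ⟨g', hg', hg0', h2⟩ := hd g hg hg0
      exact ⟨g', hg', hg0', by rw [h1, h2]; ring⟩
  obtain ⟨j, n, hn, hq⟩ := Nat.exists_eq_pow_mul_and_not_dvd q.den_ne_zero p
    hp.out.one_lt.ne'
  have hn0 : n ≠ 0 := by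
    rintro rfl
    exact hn (dvd_zero p)
  obtain ⟨g, hg, hg0, h1⟩ := hpow j
  obtain ⟨t, ht⟩ := IsAlgClosed.exists_pow_nat_eq x₀ (Nat.pos_of_ne_zero hn0)
  have ht0 : t ≠ 0 := by
    rintro rfl
    rw [zero_pow hn0] at ht
    exact hx0 ht.symm
  have htv : v₀ x₀ = n * v₀ t := by rw [← ht, v₀.map_pow ht0]
  have htr : t ∈ TR p x₀ := ⟨ht0, n, hn, 1, by rw [zpow_one]; exact ht⟩
  have hc : IsCoprime (n : ℤ) ((p ^ j : ℕ) : ℤ) := by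
    rw [Nat.isCoprime_iff_coprime]
    exact (Nat.Coprime.pow_left j ((Nat.Prime.coprime_iff_not_dvd hp.out).2 hn)).symm
  obtain ⟨a, b, hab⟩ := hc
  have hp0 : (p : ℝ) ^ j ≠ 0 := pow_ne_zero j (by exact_mod_cast hp.out.ne_zero)
  have hn0' : (n : ℝ) ≠ 0 := by exact_mod_cast hn0
  have hab' : (a : ℝ) * n + b * p ^ j = 1 := by exact_mod_cast hab
  have hqq : (q : ℝ) = q.num / (p ^ j * n) := by
    have h5 : (q : ℝ) = (q.num : ℝ) / (q.den : ℝ) := by exact_mod_cast (Rat.num_div_den q).symm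
    rw [h5, hq]
    push_cast
    rfl
  refine ⟨t ^ (q.num * b), tr_zpow htr _, g ^ (q.num * a), zpow_mem hg _, zpow_ne_zero _ hg0, ?_⟩
  rw [v₀.map_mul (zpow_ne_zero _ ht0) (zpow_ne_zero _ hg0), v₀.map_zpow ht0, v₀.map_zpow hg0, hqq]
  have e1 : v₀ g = v₀ x₀ / p ^ j := by
    rw [h1]
    field_simp
  have e2 : v₀ t = v₀ x₀ / n := by
    rw [htv]
    field_simp
  rw [e1, e2]
  push_cast
  field_simp
  linear_combination ((q.num : ℝ) * v₀ x₀) * hab'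

section

variable [hp : Fact p.Prime] [CharP Ω₀ p] [CharP Ω p] [CharP k p] [IsAlgClosed k] [IsAlgClosed Ω₀]
  [IsAlgClosed Ω] {W₀ K₀ F : IntermediateField k Ω₀} {al : Ω₀} {ν : ℝ}

omit [CharP Ω₀ p] [CharP Ω p] [CharP k p] [IsAlgClosed k] [IsAlgClosed Ω] in
/-- **The exact monomials have all the values.** -/
theorem exists_mn (hJ : J1D p v₀ v ι x₀ W₀ K₀ al ν) (hM : MS v G M)
    (htop : VG v (tH p v₀ ι x₀ (clI v₀ W₀)) ⊔ G = ⊤) (r : ℝ) :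
    ∃ c ∈ Mn p (ι x₀) ((clI v₀ W₀).map ι) G M, v c = r := by
  have h1 : r ∈ VG v (tH p v₀ ι x₀ (clI v₀ W₀)) ⊔ G := by
    rw [htop]
    exact AddSubgroup.mem_top r
  obtain ⟨a, ha, g, hg, rfl⟩ := AddSubgroup.mem_sup.1 h1
  rw [vg_tH hJ.iso] at ha
  obtain ⟨y, hy, hy0, rfl⟩ := ha
  obtain ⟨q, hq⟩ := exists_rat hJ.ctx hJ.x0 hJ.xv hy0
  obtain ⟨t, ht, m, hm, hm0, hv⟩ := exists_tm (v₀ := v₀) hJ.xW hJ.x0 hJ.pd q
  have ht0 : t ≠ 0 := ht.1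
  have htm : t * m ≠ 0 := mul_ne_zero ht0 hm0
  have e : M g * ι t * ι m = M g * ι (t * m) := by rw [map_mul, mul_assoc]
  refine ⟨M g * ι t * ι m, ⟨g, hg, ι t, ?_, ι m, ⟨m, hm, rfl⟩, TWS.IsoE.ne_zero hm0, rfl⟩, ?_⟩
  · rw [tr_map]
    exact ⟨t, ht, rfl⟩
  · rw [e, v.map_mul (hM.ne g hg) (TWS.IsoE.ne_zero htm), hM.val g hg, hJ.iso.val _ htm, hv, hq]
    ring

omit [CharP Ω₀ p] [CharP Ω p] [CharP k p] [IsAlgClosed k] in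
/-- **The complement, the monomials, the chain.** -/
theorem exists_gl (hJ : J1D p v₀ v ι x₀ W₀ K₀ al ν) :
    ∃ (G : AddSubgroup ℝ) (M : ℝ → Ω) (L : ℕ → IntermediateField k Ω),
      GsM v (tH p v₀ ι x₀ (clI v₀ W₀)) G M ∧ (∀ n : ℕ, n ≠ 0 → ∀ g ∈ G, g / n ∈ G) ∧
      VG v (tH p v₀ ι x₀ (clI v₀ W₀)) ⊔ G = ⊤ ∧
      (∀ r : ℝ, ∃ g ∈ G, r - g ∈ VG v (tH p v₀ ι x₀ (clI v₀ W₀))) ∧
      Chn p v₀ v ι x₀ (clI v₀ W₀) L ∧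
      ConS v L (tH p v₀ ι x₀ (clI v₀ W₀)) (tH p v₀ ι x₀ (clI v₀ W₀)) := by
  obtain ⟨M, hM⟩ := TWC.exists_ms hJ.val
  obtain ⟨G, hG, hdiv, htop⟩ := exists_gsm (p := p) hJ.ctx hJ.iso hJ.xW hJ.x0 hJ.xv hJ.pd hM
  obtain ⟨L, hL, hcon⟩ := hJ.cs
  refine ⟨G, M, L, hG, hdiv, htop, fun r => ?_, hL, hcon⟩
  have h1 : r ∈ VG v (tH p v₀ ι x₀ (clI v₀ W₀)) ⊔ G := by
    rw [htop]
    exact AddSubgroup.mem_top r
  obtain ⟨a, ha, g, hg, rfl⟩ := AddSubgroup.mem_sup.1 h1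
  exact ⟨g, hg, by rwa [add_sub_cancel_right]⟩

/-- **`HD` for every real pair.** -/
theorem hd_of (hJ : J1D p v₀ v ι x₀ W₀ K₀ al ν) {L : ℕ → IntermediateField k Ω}
    (hL : Chn p v₀ v ι x₀ (clI v₀ W₀) L) {w₁ w₂ z₀ : Ω₀} {r₁ r₂ s : ℝ}
    (_ : Par v₀ (clI v₀ W₀) F w₁ r₁ w₂ r₂) (hz : TL v₀ F z₀ s) (hK : clI v₀ K₀ = cadj v₀ F z₀)
    (hG : GsM v (tH p v₀ ι x₀ (clI v₀ W₀)) G M) (hdiv : ∀ n : ℕ, n ≠ 0 → ∀ g ∈ G, g / n ∈ G)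
    (htop : VG v (tH p v₀ ι x₀ (clI v₀ W₀)) ⊔ G = ⊤) {d m x' : Ω}
    (hd : d ∈ Mn p (ι x₀) ((clI v₀ W₀).map ι) G M) (hdv : v d = s)
    (hm : m ∈ Mn p (ι x₀) ((clI v₀ W₀).map ι) G M) (hmv : p * v m = ν)
    (hx' : x' ∈ PM v (tH p v₀ ι x₀ (clI v₀ W₀)) G M) :
    ∀ (w : Fin 2 → Ω) (ρ : Fin 2 → ℝ),
      Par v ((clI v₀ W₀).map ι) (F.map ι) (w 0) (ρ 0) (w 1) (ρ 1) →
      ∀ c : Fin 2 → Ω, (∀ i, c i ∈ Mn p (ι x₀) ((clI v₀ W₀).map ι) G M) → (∀ i, v (c i) = ρ i) →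
        HD p v (fun J => PM v (L J) G M) (PM v (tH p v₀ ι x₀ (clI v₀ W₀)) G M)
          (PM v (tH p v₀ ι x₀ F) G M) (PM v (tH p v₀ ι x₀ (clI v₀ K₀)) G M)
          (fun i => w i / c i) x' (ι z₀ / d) (ι (al ^ p) / m ^ p) := by
  intro w ρ hP' c hc hcv
  have hw : ∀ i, ∃ y ∈ F, ι y = w i := by
    intro i
    fin_cases i
    · exact hP'.eq2.ge (self_mem_cadj v _ (w 0))
    · exact hP'.eq1.ge (self_mem_cadj v _ (w 1))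
  choose y hy hyw using hw
  have e : w = fun i => ι (y i) := funext fun i => (hyw i).symm
  have hP2 : Par v₀ (clI v₀ W₀) F (y 0) (ρ 0) (y 1) (ρ 1) := by
    rw [e] at hP'
    exact (par_map hJ.iso hJ.cpl).1 hP'
  have hS : ∀ {c : Ω}, c ∈ Mn p (ι x₀) ((clI v₀ W₀).map ι) G M →
      c ∈ PM v (tH p v₀ ι x₀ (clI v₀ W₀)) G M ∧ c ≠ 0 := fun h => mn_mem hG.ms h
  have h1 := hJ.hd hL hP2 hz hK hG (hdiv p hp.out.ne_zero) htop (hS (hc 0)).1 (hS (hc 0)).2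
    (hcv 0) (hS (hc 1)).1 (hS (hc 1)).2 (hcv 1) (hS hd).1 (hS hd).2 hdv (hS hm).1 (hS hm).2 hmv hx'
  have e2 : (![ι (y 0) / c 0, ι (y 1) / c 1] : Fin 2 → Ω) = fun i => w i / c i := by
    rw [e]
    funext i
    fin_cases i
    · rfl
    · rfl
  rwa [e2] at h1

end

end Pool.Agent.TWRA
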