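import Pool.Agent.Lib.TWRA.Defs
import Pool.Agent.Lib.TWCY.TrnE
import Pool.Agent.Lib.TWCY.ShpE

/-!
# CT, row A: the layer of a real element is graded

* `prc`: the projection of `K'` on the component of the class of `q ∈ S`;
* `Grd.exists_hom`: the coefficients of the shape of a real element are homogeneous;
* `Grd.dd_prc`: the derivations `∂_i` are homogeneous;
* `rowGr0`: the row `GA6`.
-/

set_option autoImplicit false

open MvPolynomial

namespace Pool.Agent.TWRA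

open Pool.Agent.H15JM (RVal)
open Pool.Agent.LU1 (VPos)
open Pool.Agent.D2 (Ctx0)
open Pool.Agent.TWM
open Pool.Agent.TWS (IsoE SphC PM VG)
open Pool.Agent.TWN1 (Par)
open Pool.Agent.TWRR (Prj)
open Pool.Agent.TWLY
open Pool.Agent.TWCY

universe u

variable {k Ω : Type u} [Field k] [Field Ω] [Algebra k Ω] {p : ℕ} {v : RVal Ω}
  {Wr Fr Kr W' F' K' : IntermediateField k Ω} {S : Set Ω} {π : Ω → Ω}

/-- The projection on the component of the class of `q`. -/
def prc (π : Ω → Ω) (q y : Ω) : Ω := q * π (q⁻¹ * y)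

namespace Grd

variable (h : Grd p v Wr Fr Kr W' F' K' S π)

include h

theorem one_memS : (1 : Ω) ∈ S := h.bas 1 (one_mem _) one_ne_zero

theorem pow_memS {c : Ω} (hc : c ∈ S) (n : ℕ) : c ^ n ∈ S := by
  induction n with
  | zero => rw [pow_zero]; exact h.one_memS
  | succ n ih => rw [pow_succ]; exact h.mul _ ih _ hc

theorem div_memS {c d : Ω} (hc : c ∈ S) (hd : d ∈ S) : c / d ∈ S := by
  rw [div_eq_mul_inv]
  exact h.mul _ hc _ (h.inv _ hd)

theorem subF {c : Ω} (hc : c ∈ S) : c ∈ F' := h.WF' (h.sub c hc)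

theorem subK {c : Ω} (hc : c ∈ S) : c ∈ K' := h.FK' (h.subF hc)

theorem aux {q y : Ω} (hq : q ∈ S) (hy : y ∈ F') : q⁻¹ * y ∈ F' :=
  mul_mem (inv_mem (h.subF hq)) hy

theorem prc_mem {q y : Ω} (hq : q ∈ S) (hy : y ∈ F') : prc π q y ∈ F' :=
  mul_mem (h.subF hq) (h.FF' (h.prF _ (h.aux hq hy)))

theorem prc_add {q y y' : Ω} (hq : q ∈ S) (hy : y ∈ F') (hy' : y' ∈ F') :
    prc π q (y + y') = prc π q y + prc π q y' := by
  unfold prc
  rw [mul_add, h.prj.add _ (h.FK' (h.aux hq hy)) _ (h.FK' (h.aux hq hy')), mul_add]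

theorem prc_sub {q y y' : Ω} (hq : q ∈ S) (hy : y ∈ F') (hy' : y' ∈ F') :
    prc π q (y - y') = prc π q y - prc π q y' := by
  unfold prc
  rw [mul_sub, h.prj.sub (h.FK' (h.aux hq hy)) (h.FK' (h.aux hq hy')), mul_sub]

theorem prc_zero {q : Ω} : prc π q 0 = 0 := by
  unfold prc
  rw [mul_zero, h.prj.zero, mul_zero]

theorem prc_sum {q : Ω} (hq : q ∈ S) {ι : Type*} (s : Finset ι) (y : ι → Ω)
    (hy : ∀ i ∈ s, y i ∈ F') : prc π q (∑ i ∈ s, y i) = ∑ i ∈ s, prc π q (y i) := by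
  classical
  induction s using Finset.induction_on with
  | empty => rw [Finset.sum_empty, Finset.sum_empty, h.prc_zero]
  | insert a s ha ih =>
    rw [Finset.sum_insert ha, Finset.sum_insert ha,
      h.prc_add hq (hy a (Finset.mem_insert_self a s))
        (sum_mem fun i hi => hy i (Finset.mem_insert_of_mem hi)),
      ih fun i hi => hy i (Finset.mem_insert_of_mem hi)]

theorem prc_smul {q y : Ω} (hq : q ∈ S) (hy : y ∈ F') (a : k) :
    prc π q (algebraMap k Ω a * y) = algebraMap k Ω a * prc π q y := by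
  unfold prc
  have e : q⁻¹ * (algebraMap k Ω a * y) = algebraMap k Ω a * (q⁻¹ * y) := by ring
  rw [e, h.prj.mul _ (Kr.algebraMap_mem a) _ (h.FK' (h.aux hq hy))]
  ring

theorem prc_ge {q y : Ω} (hq : q ∈ S) (hy : y ∈ F') {r : ℝ} (hr : v.Ge r y) :
    v.Ge r (prc π q y) := by
  have h1 : v.Ge (-v q + r) (q⁻¹ * y) := by
    refine RVal.Ge.mul ?_ hr
    intro _
    rw [v.map_inv (h.ne q hq)]
  have h2 := (RVal.ge_self (v := v) q).mul (h.prj.ge _ (h.FK' (h.aux hq hy)) _ h1)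
  exact h2.mono (by linarith)

theorem prc_gt {q y : Ω} (hq : q ∈ S) (hy : y ∈ F') {r : ℝ} (hr : Gt v r y) :
    Gt v r (prc π q y) := by
  intro h0
  by_cases hy0 : y = 0
  · exact absurd (by rw [hy0]; exact h.prc_zero) h0
  exact lt_of_lt_of_le (hr hy0) (h.prc_ge hq hy (RVal.ge_self y) h0)

/-- The homogeneous elements. -/
theorem prc_hom_self {q a f : Ω} (hq : q ∈ S) (ha : a ∈ S) (hf : f ∈ Fr)
    (hv : v a - v q ∈ VG v Wr) : prc π q (a * f) = a * f := by
  unfold prc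
  have hqa : q⁻¹ * a ∈ S := h.mul _ (h.inv _ hq) _ ha
  have h1 : v (q⁻¹ * a) = v a - v q := by
    rw [v.map_mul (inv_ne_zero (h.ne q hq)) (h.ne a ha), v.map_inv (h.ne q hq)]
    ring
  have h2 : q⁻¹ * a ∈ Wr := h.real _ hqa (by rwa [h1])
  have h3 : q⁻¹ * (a * f) = q⁻¹ * a * f := by ring
  rw [h3, h.prj.self _ (h.FK (mul_mem (h.WF h2) hf))]
  have := h.ne q hq
  field_simp

theorem prc_hom_zero {q a f : Ω} (hq : q ∈ S) (ha : a ∈ S) (hf : f ∈ Fr)
    (hv : v a - v q ∉ VG v Wr) : prc π q (a * f) = 0 := by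
  unfold prc
  have hqa : q⁻¹ * a ∈ S := h.mul _ (h.inv _ hq) _ ha
  have h1 : v (q⁻¹ * a) = v a - v q := by
    rw [v.map_mul (inv_ne_zero (h.ne q hq)) (h.ne a ha), v.map_inv (h.ne q hq)]
    ring
  have h3 : q⁻¹ * (a * f) = f * (q⁻¹ * a) := by ring
  rw [h3, h.prj.mul _ (h.FK hf) _ (h.subK hqa), h.off _ hqa (by rwa [h1]), mul_zero, mul_zero]

end Grd

/-! ### The monomials `c ^ g` -/

/-- `c₀ ^ g₀ c₁ ^ g₁`. -/
def cM (c : Fin 2 → Ω) (g : Ex) : Ω := c 0 ^ g 0 * c 1 ^ g 1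

theorem cM_mem (h : Grd p v Wr Fr Kr W' F' K' S π) {c : Fin 2 → Ω} (hc : ∀ i, c i ∈ S) (g : Ex) :
    cM c g ∈ S := h.mul _ (h.pow_memS (hc 0) _) _ (h.pow_memS (hc 1) _)

theorem cM_ne {c : Fin 2 → Ω} (hc : ∀ i, c i ≠ 0) (g : Ex) : cM c g ≠ 0 :=
  mul_ne_zero (pow_ne_zero _ (hc 0)) (pow_ne_zero _ (hc 1))

theorem v_cM {c : Fin 2 → Ω} (hc : ∀ i, c i ≠ 0) {ρ : Fin 2 → ℝ} (hv : ∀ i, v (c i) = ρ i)
    (g : Ex) : v (cM c g) = g 0 • ρ 0 + g 1 • ρ 1 := by
  unfold cM
  rw [v.map_mul (pow_ne_zero _ (hc 0)) (pow_ne_zero _ (hc 1)), v.map_pow (hc 0), v.map_pow (hc 1),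
    hv, hv, nsmul_eq_mul, nsmul_eq_mul]

/-- The scaling of a polynomial. -/
noncomputable def scl (c : Fin 2 → Ω) : MvPolynomial (Fin 2) Ω →ₐ[Ω] MvPolynomial (Fin 2) Ω :=
  bind₁ fun i => C (c i) * X i

theorem coeff_scl (c : Fin 2 → Ω) (P : MvPolynomial (Fin 2) Ω) (g : Ex) :
    coeff g (scl c P) = cM c g * coeff g P := by
  induction P using MvPolynomial.induction_on' with
  | monomial m a =>
    have e : scl c (monomial m a) = monomial m (cM c m * a) := by
      have e0 : ∏ i ∈ m.support, (C (c i) * X i : MvPolynomial (Fin 2) Ω) ^ m i =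
          ∏ i, (C (c i) * X i : MvPolynomial (Fin 2) Ω) ^ m i :=
        Finset.prod_subset (Finset.subset_univ _) fun i _ hi => by
          rw [Finsupp.notMem_support_iff.1 hi, pow_zero]
      rw [scl, bind₁_monomial, e0, Fin.prod_univ_two, mul_pow, mul_pow]
      have e2 : (monomial m (cM c m * a) : MvPolynomial (Fin 2) Ω) =
          C (cM c m * a) * (X 0 ^ m 0 * X 1 ^ m 1) := by
        conv_lhs => rw [monomial_eq]
        rw [Finsupp.prod_fintype _ _ (fun i => pow_zero _), Fin.prod_univ_two]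
      rw [e2, cM]
      simp only [C_mul, C_pow]
      ring
    rw [e, coeff_monomial, coeff_monomial]
    split_ifs with hm
    · rw [hm]
    · rw [mul_zero]
  | add P Q hP hQ => rw [map_add, coeff_add, coeff_add, hP, hQ, mul_add]

theorem scl_mem {c : Fin 2 → Ω} {W : IntermediateField k Ω} (hc : ∀ i, c i ∈ W)
    {P : MvPolynomial (Fin 2) Ω} (hP : ∀ g, coeff g P ∈ W) (g : Ex) : coeff g (scl c P) ∈ W := by
  rw [coeff_scl]
  exact mul_mem (mul_mem (pow_mem (hc 0) _) (pow_mem (hc 1) _)) (hP g)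

theorem eval_scl {c w : Fin 2 → Ω} (hc : ∀ i, c i ≠ 0) (P : MvPolynomial (Fin 2) Ω) :
    eval (fun i => w i / c i) (scl c P) = eval w P := by
  have h1 : (aeval (fun i => w i / c i) : MvPolynomial (Fin 2) Ω →ₐ[Ω] Ω).comp (scl c) =
      aeval w := by
    refine MvPolynomial.algHom_ext fun i => ?_
    rw [AlgHom.comp_apply, scl, bind₁_X_right, map_mul, aeval_X, aeval_X, aeval_C]
    change c i * (w i / c i) = w i
    rw [mul_div_cancel₀ _ (hc i)]
  exact DFunLike.congr_fun h1 P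

theorem pderiv_scl (c : Fin 2 → Ω) (i : Fin 2) (P : MvPolynomial (Fin 2) Ω) :
    pderiv i (scl c P) = C (c i) * scl c (pderiv i P) := by
  induction P using MvPolynomial.induction_on with
  | C a => rw [scl, bind₁_C_right, pderiv_C, map_zero, mul_zero]
  | add P Q hP hQ => rw [map_add, map_add, hP, hQ, map_add, map_add, mul_add]
  | mul_X P j hP =>
    have e1 : scl c (X j : MvPolynomial (Fin 2) Ω) = C (c j) * X j := bind₁_X_right _ _
    have e3 : pderiv i (C (c j) * X j : MvPolynomial (Fin 2) Ω) =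
        C (c i) * scl c (pderiv i (X j)) := by
      rw [pderiv_C_mul, pderiv_X]
      by_cases hij : i = j
      · subst hij
        rw [Pi.single_eq_same, map_one]
      · rw [Pi.single_eq_of_ne (Ne.symm hij), map_zero, mul_zero, mul_zero]
    rw [map_mul, Derivation.leibniz, Derivation.leibniz, map_add, e1, hP, e3, smul_eq_mul,
      smul_eq_mul, smul_eq_mul, smul_eq_mul, map_mul, map_mul, e1]
    ring

theorem coeff_pderiv_mem {W : IntermediateField k Ω} (i : Fin 2) {P : MvPolynomial (Fin 2) Ω}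
    (hP : ∀ g, coeff g P ∈ W) (g : Ex) : coeff g (pderiv i P) ∈ W := by
  rw [P.as_sum, map_sum, coeff_sum]
  refine sum_mem fun m _ => ?_
  rw [pderiv_monomial, coeff_monomial]
  split_ifs
  · exact mul_mem (hP m) (natCast_mem _ _)
  · exact zero_mem _

theorem shW_scl {c w : Fin 2 → Ω} (hc : ∀ i, c i ≠ 0) (P : MvPolynomial (Fin 2) Ω) :
    shW (fun i => w i / c i) (scl c P) = scl c (shW w P) := by
  have h1 : (shW fun i => w i / c i).comp (scl c) = (scl c).comp (shW w) := by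
    refine MvPolynomial.algHom_ext fun i => ?_
    rw [AlgHom.comp_apply, AlgHom.comp_apply, scl, shW, shW, bind₁_X_right, bind₁_X_right, map_mul,
      map_add, bind₁_X_right, bind₁_C_right, bind₁_C_right, bind₁_X_right, mul_add, ← C_mul,
      mul_div_cancel₀ _ (hc i)]
  exact DFunLike.congr_fun h1 P

/-! ### Density -/

/-- The polynomials in `w` are dense in `F`, any radii. -/
theorem par_dns [IsAlgClosed Ω] {W F : IntermediateField k Ω} {w : Fin 2 → Ω} {ρ : Fin 2 → ℝ}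
    (h : Par v W F (w 0) (ρ 0) (w 1) (ρ 1)) {y : Ω} (hy : y ∈ F) (r : ℝ) :
    ∃ q : MvPolynomial (Fin 2) Ω, (∀ g, coeff g q ∈ W) ∧ v.Ge r (y - eval w q) := by
  rw [h.eq1] at hy
  obtain ⟨f, hf, h1⟩ := h.t21.dense hy r
  have h2 : ∀ i, ∃ s ∈ SW W w, v.Ge r ((f.coeff i - s) * w 1 ^ i) := by
    intro i
    obtain ⟨g, hg, h3⟩ := h.t1.dense (hf i) (r - v (w 1 ^ i))
    refine ⟨g.eval (w 0), SW.poly W w hg 0, ?_⟩
    have h4 := h3.mul (v.ge_self (w 1 ^ i))
    rwa [sub_add_cancel] at h4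
  choose s hs hsr using h2
  have h3 : ∑ i ∈ Finset.range (f.natDegree + 1), s i * w 1 ^ i ∈ SW W w :=
    sum_mem fun j _ => mul_mem (hs j) (pow_mem (SW.mem_w W w 1) j)
  obtain ⟨q, hq⟩ := h3
  have hq' : aeval w q = ∑ i ∈ Finset.range (f.natDegree + 1), s i * w 1 ^ i := hq
  refine ⟨q.map (algebraMap W Ω), fun g => by rw [coeff_map]; exact SetLike.coe_mem _, ?_⟩
  have e1 : eval w (q.map (algebraMap W Ω)) = aeval w q := by
    rw [MvPolynomial.eval_map, aeval_def]
  have e2 : y - eval w (q.map (algebraMap W Ω)) = (y - f.eval (w 1)) +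
      ∑ i ∈ Finset.range (f.natDegree + 1), (f.coeff i - s i) * w 1 ^ i := by
    rw [e1, hq', Polynomial.eval_eq_sum_range]
    simp only [sub_mul, Finset.sum_sub_distrib]
    ring
  rw [e2]
  exact h1.add (RVal.Ge.sum _ _ fun i _ => hsr i)

section real

variable [IsAlgClosed Ω] {w : Fin 2 → Ω} {ρ : Fin 2 → ℝ} {c : Fin 2 → Ω}
  {T : (Fin 2 → k) → Ω →ₐ[k] Ω} {D : Ω → Ω} {dd : Fin 2 → Ω → Ω}
  (h : Grd p v Wr Fr Kr W' F' K' S π) (hP : Par v Wr Fr (w 0) (ρ 0) (w 1) (ρ 1))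
  (hc : ∀ i, c i ∈ S) (hT : Trn v W' F' (fun i => w i / c i) T)

omit [IsAlgClosed Ω] in
include hP in
theorem wFr (i : Fin 2) : w i ∈ Fr := by
  fin_cases i
  · exact hP.eq2.ge (self_mem_cadj v _ (w 0))
  · exact hP.eq1.ge (self_mem_cadj v _ (w 1))

include h hP hc hT

/-- **The coefficients of the shape are homogeneous**, up to `-ε`. -/
theorem Grd.exists_hom [Infinite k] (hk : Ctx0 k v) {d yr : Ω} (hd : d ∈ S)
    (hy : Lim v Fr (v d) yr) {u : MvPolynomial (Fin 2) Ω}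
    (hu : ∀ c : Fin 2 → k, v.Ge 0 (T c (yr / d) - yr / d - eval (pt c) u)) {ε : ℝ} (hε : 0 < ε) :
    ∃ f : Ex → Ω, (∀ g, f g ∈ Fr) ∧ ∀ g, v.Ge (-ε) (coeff g u - cM c g / d * f g) := by
  have hd0 := h.ne d hd
  have hc0 : ∀ i, c i ≠ 0 := fun i => h.ne _ (hc i)
  obtain ⟨θ, hθ, h1⟩ := hy ε hε
  obtain ⟨P, hPW, h2⟩ := par_dns hP hθ (v d - ε)
  have h3 : v.Ge (v d - ε) (yr - eval w P) := by
    have e : yr - eval w P = (yr - θ) + (θ - eval w P) := by ring
    rw [e]
    exact h1.add h2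
  set P' : MvPolynomial (Fin 2) Ω := C d⁻¹ * scl c P with hP'
  have hP'W : ∀ g, coeff g P' ∈ W' := by
    intro g
    rw [hP', coeff_C_mul]
    exact mul_mem (inv_mem (h.sub d hd)) (scl_mem (fun i => h.sub _ (hc i))
      (fun g => h.WW' (hPW g)) g)
  set θ' : Ω := eval (fun i => w i / c i) P' with hθ'
  have e1 : θ' = eval w P / d := by
    rw [hθ', hP', map_mul, eval_C, eval_scl hc0, div_eq_mul_inv, mul_comm]
  have h4 : v.Ge (-ε) (yr / d - θ') := by
    have e : yr / d - θ' = (yr - eval w P) * d⁻¹ := by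
      rw [e1, ← sub_div, div_eq_mul_inv]
    rw [e]
    have h5 : v.Ge (-v d) d⁻¹ := fun _ => by rw [v.map_inv hd0]
    exact (h3.mul h5).mono (by linarith)
  refine ⟨fun g => coeff g (shW w P) - if g = 0 then eval w P else 0, fun g => ?_, fun g => ?_⟩
  · refine sub_mem (shW_mem (wFr hP) (fun g => h.WF (hPW g)) g) ?_
    split_ifs
    · exact eval_mem' (fun g => h.WF (hPW g)) (wFr hP)
    · exact zero_mem _
  · have h5 : ∀ s : Fin 2 → k, v.Ge (-ε) (eval (pt s) (u - (shW (fun i => w i / c i) P' - C θ'))) := by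
      intro s
      rw [map_sub, map_sub, eval_C, ← hT.T_eval_shW hP'W s, ← hθ']
      have e : eval (pt s) u - (T s θ' - θ') = (T s (yr / d - θ') - (yr / d - θ')) -
          (T s (yr / d) - yr / d - eval (pt s) u) := by
        rw [map_sub]
        ring
      rw [e]
      exact (((hT.iso s).ge_iff.2 h4).sub h4).sub ((hu s).mono (by linarith))
    have h6 := ge_coeff hk h5 g
    show v.Ge (-ε) (coeff g u - cM c g / d *
      (coeff g (shW w P) - if g = 0 then eval w P else 0))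
    rw [coeff_sub, coeff_sub, hP', map_mul, shW_scl hc0] at h6
    have e2 : shW (fun i => w i / c i) (C d⁻¹) = C d⁻¹ := bind₁_C_right _ _
    rw [e2, coeff_C_mul, coeff_scl, coeff_C] at h6
    convert h6 using 2
    by_cases hg : g = 0
    · subst hg
      have : cM c 0 = 1 := by simp [cM]
      rw [this, e1]
      simp only [if_true, eq_self_iff_true]
      field_simp
    · rw [if_neg hg, if_neg (Ne.symm hg)]
      field_simp
      ring

/-- The elements `a P(w)`, `a ∈ S`, `P` over `Wr`, generate `F'`. -/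
theorem Grd.dnsF {y : Ω} (hy : y ∈ F') (r : ℝ) :
    ∃ y₁ ∈ AddSubgroup.closure {y : Ω | ∃ a ∈ S, ∃ P : MvPolynomial (Fin 2) Ω,
      (∀ g, coeff g P ∈ Wr) ∧ y = a * eval w P}, v.Ge r (y - y₁) := by
  have hc0 : ∀ i, c i ≠ 0 := fun i => h.ne _ (hc i)
  obtain ⟨q, hq, h1⟩ := hT.dns y hy r
  have h2 : ∀ g : Ex, ∃ y₁ ∈ AddSubgroup.closure {y : Ω | ∃ a ∈ S,
      ∃ P : MvPolynomial (Fin 2) Ω, (∀ g, coeff g P ∈ Wr) ∧ y = a * eval w P},
      v.Ge r (coeff g q * ∏ i, (w i / c i) ^ g i - y₁) := by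
    intro g
    obtain ⟨z, hz, hz1⟩ := h.dW _ (hq g) (r - v (∏ i, (w i / c i) ^ g i))
    refine ⟨z * ∏ i, (w i / c i) ^ g i, ?_, ?_⟩
    · refine AddSubgroup.closure_induction ?_ ?_ ?_ ?_ hz
      · rintro _ ⟨a, ha, f, hf, rfl⟩
        refine AddSubgroup.subset_closure ⟨a / cM c g, h.div_memS ha (cM_mem h hc g), monomial g f,
          fun m => ?_, ?_⟩
        · rw [coeff_monomial]
          split_ifs
          · exact hf
          · exact zero_mem _
        · rw [eval_monomial, Finsupp.prod_fintype _ _ (fun i => pow_zero _), Fin.prod_univ_two,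
            Fin.prod_univ_two, cM, div_pow, div_pow]
          have h0 := hc0 0
          have h1 := hc0 1
          field_simp
      · rw [zero_mul]
        exact zero_mem _
      · intro x y _ _ hx hy
        rw [add_mul]
        exact add_mem hx hy
      · intro x _ hx
        rw [neg_mul]
        exact neg_mem hx
    · rw [← sub_mul]
      have := hz1.mul (v.ge_self (∏ i, (w i / c i) ^ g i))
      rwa [sub_add_cancel] at this
  choose z hz hz1 using h2
  refine ⟨∑ g ∈ q.support, z g, sum_mem fun g _ => hz g, ?_⟩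
  have e : y - ∑ g ∈ q.support, z g = (y - eval (fun i => w i / c i) q) +
      ∑ g ∈ q.support, (coeff g q * ∏ i, (w i / c i) ^ g i - z g) := by
    rw [eval_eq' (fun i => w i / c i) q, Finset.sum_sub_distrib]
    ring
  rw [e]
  exact h1.add (RVal.Ge.sum _ _ fun g _ => hz1 g)

omit [IsAlgClosed Ω] hP in
/-- `∂_i (P(w)) = c_i (∂_i P)(w)`. -/
theorem Grd.dd_real (hD : DrvT v W' F' (fun i => w i / c i) T D dd) (i : Fin 2)
    {P : MvPolynomial (Fin 2) Ω} (hPW : ∀ g, coeff g P ∈ Wr) :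
    dd i (eval w P) = c i * eval w (pderiv i P) := by
  have hc0 : ∀ i, c i ≠ 0 := fun i => h.ne _ (hc i)
  rw [← eval_scl hc0 P, DrvT.dd_eval hT hD i _ (scl_mem (fun i => h.sub _ (hc i))
    (fun g => h.WW' (hPW g)))]
  rw [pderiv_scl, map_mul, eval_C, eval_scl hc0]

/-- **The derivations are homogeneous.** -/
theorem Grd.dd_prc (hD : DrvT v W' F' (fun i => w i / c i) T D dd) (i : Fin 2) {q y : Ω}
    (hq : q ∈ S) (hy : y ∈ F') : dd i (prc π q y) = prc π (q * c i) (dd i y) := by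
  have hqc : q * c i ∈ S := h.mul _ hq _ (hc i)
  have hmem : ∀ z ∈ AddSubgroup.closure {y : Ω | ∃ a ∈ S, ∃ P : MvPolynomial (Fin 2) Ω,
      (∀ g, coeff g P ∈ Wr) ∧ y = a * eval w P},
      z ∈ F' ∧ dd i (prc π q z) = prc π (q * c i) (dd i z) := by
    intro z hz
    refine AddSubgroup.closure_induction (p := fun z _ => z ∈ F' ∧
      dd i (prc π q z) = prc π (q * c i) (dd i z)) ?_ ?_ ?_ ?_ hz
    · rintro _ ⟨a, ha, P, hPW, rfl⟩
      have hev : eval w P ∈ Fr := eval_mem' (fun g => h.WF (hPW g)) (wFr hP)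
      have hpd : ∀ g, coeff g (pderiv i P) ∈ Wr := coeff_pderiv_mem i hPW
      have hev' : eval w (pderiv i P) ∈ Fr := eval_mem' (fun g => h.WF (hpd g)) (wFr hP)
      have e1 : dd i (a * eval w P) = a * c i * eval w (pderiv i P) := by
        rw [(hD.drvi i).mul a (h.subF ha) _ (h.FF' hev), hD.ddW i a (h.sub a ha), mul_zero,
          add_zero, Grd.dd_real h hc hT hD i hPW, mul_assoc]
      refine ⟨mul_mem (h.subF ha) (h.FF' hev), ?_⟩
      have hac : a * c i ∈ S := h.mul _ ha _ (hc i)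
      have e2 : v (a * c i) - v (q * c i) = v a - v q := by
        rw [v.map_mul (h.ne a ha) (h.ne _ (hc i)), v.map_mul (h.ne q hq) (h.ne _ (hc i))]
        ring
      by_cases hv : v a - v q ∈ VG v Wr
      · rw [h.prc_hom_self hq ha hev hv, e1, h.prc_hom_self hqc hac hev' (by rwa [e2])]
      · rw [h.prc_hom_zero hq ha hev hv, e1, h.prc_hom_zero hqc hac hev' (by rwa [e2]),
          (hD.drvi i).map_zero]
    · refine ⟨zero_mem _, ?_⟩
      rw [h.prc_zero, (hD.drvi i).map_zero, h.prc_zero]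
    · rintro x y _ _ ⟨hx, hx1⟩ ⟨hy, hy1⟩
      refine ⟨add_mem hx hy, ?_⟩
      rw [h.prc_add hq hx hy, (hD.drvi i).add _ (h.prc_mem hq hx) _ (h.prc_mem hq hy), hx1, hy1,
        (hD.drvi i).add _ hx _ hy, h.prc_add hqc (hD.ddF i _ hx) (hD.ddF i _ hy)]
    · rintro x _ ⟨hx, hx1⟩
      refine ⟨neg_mem hx, ?_⟩
      have e1 : prc π q (-x) = -prc π q x := by
        have := h.prc_sub hq (zero_mem F') hx
        rwa [zero_sub, h.prc_zero, zero_sub] at this
      have e2 : prc π (q * c i) (-dd i x) = -prc π (q * c i) (dd i x) := by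
        have := h.prc_sub hqc (zero_mem F') (hD.ddF i _ hx)
        rwa [zero_sub, h.prc_zero, zero_sub] at this
      rw [e1, (hD.drvi i).map_neg (h.prc_mem hq hx), (hD.drvi i).map_neg hx, e2, hx1]
  refine sub_eq_zero.1 (TWCY.eq_zero_of_ge (v := v) fun r => ?_)
  obtain ⟨y₁, hy₁, h1⟩ := Grd.dnsF h hP hc hT hy r
  obtain ⟨h2, h3⟩ := hmem y₁ hy₁
  have e : dd i (prc π q y) - prc π (q * c i) (dd i y) =
      dd i (prc π q (y - y₁)) - prc π (q * c i) (dd i (y - y₁)) := by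
    rw [h.prc_sub hq hy h2, (hD.drvi i).map_sub (h.prc_mem hq hy) (h.prc_mem hq h2), h3,
      (hD.drvi i).map_sub hy h2, h.prc_sub hqc (hD.ddF i _ hy) (hD.ddF i _ h2)]
    ring
  rw [e]
  have hs : y - y₁ ∈ F' := sub_mem hy h2
  exact ((hD.drvi i).norm _ (h.prc_mem hq hs) _ (h.prc_ge hq hs h1)).sub
    (h.prc_ge hqc (hD.ddF i _ hs) ((hD.drvi i).norm _ hs _ h1))

end real

end Pool.Agent.TWRA
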