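import Pool.Agent.Lib.TWRA.Defs
import Pool.Agent.Lib.TWCT.TamQ
import Pool.Agent.Lib.TWRR.D2

/-!
# CT, row GA1, first half: the tame closures and the Gauss projection

* `tam_rep`: an element of the tame closure is near a combination of roots in different classes;
* `vg_tam_of`: its value is a value of the field plus the value of a root;
* `imm_tam`: tame closures of immediate extensions are immediate extensions;
* `pdiv_tam`: the values of the tame closure are `p`-divisible;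
* `exists_gauss_tam`: the projection `PM v (tam K) G M → tam K`.
-/

set_option autoImplicit false

open MvPolynomial

namespace Pool.Agent.TWRA

open Pool.Agent.H15JM (RVal)
open Pool.Agent.D2 (Ctx0)
open Pool.Agent.D2P (clI mem_clI)
open Pool.Agent.TWM
open Pool.Agent.TWS (PM VG Pi0 exists_pi0)
open Pool.Agent.TWTam
open Pool.Agent.TWRR (Prj prG prG_eq)
open Pool.Agent.TWCT (GsM)

universe u

variable {k Ω : Type u} [Field k] [Field Ω] [Algebra k Ω] {v : RVal Ω} {p : ℕ} {x : Ω}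
  {W K : IntermediateField k Ω}

/-- The elements of the tame closure are near combinations of roots in different classes. -/
theorem tam_rep (hp : p.Prime) (hx : x ≠ 0) (hxK : x ∈ K) (hK : ∀ t ∈ TR p x, InV v K t → t ∈ K)
    {g : Ω} (hg : g ∈ tam p v x K) (c : ℝ) :
    ∃ (s : Finset Ω) (f : Ω → Ω), (∀ t ∈ s, t ∈ TR p x) ∧
      (∀ t ∈ s, ∀ t' ∈ s, t ≠ t' → ¬ InV v K (t / t')) ∧ (∀ t ∈ s, f t ∈ K) ∧
      v.Ge c (g - ∑ t ∈ s, f t * t) := by
  classical
  obtain ⟨g₀, h1, h2⟩ := (mem_clI.1 hg) c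
  obtain ⟨a, ha, h3⟩ := exists_dec (v := v) hp hx hxK hK h1
  obtain ⟨s, f, h4, h5, h6, h7⟩ := exists_rep hp hx hK h3
  have h1s : (1 : Ω) ∉ s := fun h0 => (h4 1 h0).2 (InV.of_mem one_ne_zero (one_mem _))
  have hne' : ∀ w ∈ s, w ≠ (1 : Ω) := fun w hw h0 => h1s (by rw [← h0]; exact hw)
  refine ⟨insert 1 s, Function.update f 1 a, ?_, ?_, ?_, ?_⟩
  · intro t ht
    rcases Finset.mem_insert.1 ht with rfl | ht
    · exact one_mem_tr hp
    · exact (h4 t ht).1
  · intro t ht t' ht' hne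
    rcases Finset.mem_insert.1 ht with h8 | h8
    · rcases Finset.mem_insert.1 ht' with h9 | h9
      · exact absurd (h8.trans h9.symm) hne
      · intro h10
        rw [h8] at h10
        have h11 := h10.inv (div_ne_zero one_ne_zero (h4 t' h9).1.1)
        rw [inv_div, div_one] at h11
        exact (h4 t' h9).2 h11
    · rcases Finset.mem_insert.1 ht' with h9 | h9
      · intro h10
        rw [h9, div_one] at h10
        exact (h4 t h8).2 h10
      · exact h5 t h8 t' h9 hne
  · intro t ht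
    rcases Finset.mem_insert.1 ht with rfl | ht
    · rw [Function.update_self]
      exact ha
    · rw [Function.update_of_ne (hne' t ht)]
      exact h6 t ht
  · have e : ∑ t ∈ insert 1 s, Function.update f 1 a t * t = g₀ := by
      rw [Finset.sum_insert h1s, Function.update_self, mul_one]
      have e1 : ∑ t ∈ s, Function.update f 1 a t * t = ∑ t ∈ s, f t * t :=
        Finset.sum_congr rfl fun t ht => by rw [Function.update_of_ne (hne' t ht)]
      rw [e1, ← h7]
      ring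
    rw [e]
    exact h2

/-- The value of an element of the tame closure. -/
theorem vg_tam_of (hp : p.Prime) (hx : x ≠ 0) (hxK : x ∈ K)
    (hK : ∀ t ∈ TR p x, InV v K t → t ∈ K) {g : Ω} (hg : g ∈ tam p v x K) (hg0 : g ≠ 0) :
    ∃ f ∈ K, f ≠ 0 ∧ ∃ t ∈ TR p x, v g = v f + v t := by
  classical
  obtain ⟨s, f, h1, h2, h3, h4⟩ := tam_rep hp hx hxK hK hg (v g + 1)
  set b := ∑ t ∈ s, f t * t with hb
  have h5 : Gt v (v g) (g - b) := Gt.of_ge h4 (by linarith)
  obtain ⟨hb0, hbv⟩ := Gt.val_eq hg0 h5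
  have h6 := orth_fin s f (fun t ht => (h1 t ht).1) h2 h3 (r := v b) (RVal.ge_self b)
  by_contra hcon
  have h7 : Gt v (v b) b := by
    rw [hb]
    refine Finset.sum_induction _ (fun x => Gt v (v b) x) (fun a b ha hb => ha.add hb) ?_ ?_
    · exact fun h => absurd rfl h
    · intro t ht h0
      refine lt_of_le_of_ne (h6 t ht h0) fun he => hcon ?_
      have hf0 := left_ne_zero_of_mul h0
      refine ⟨f t, h3 t ht, hf0, t, h1 t ht, ?_⟩
      rw [← v.map_mul hf0 (h1 t ht).1, ← hbv]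
      exact he
  exact lt_irrefl _ (h7 hb0)

/-- **Tame closures of immediate extensions.** -/
theorem imm_tam (hp : p.Prime) (hx : x ≠ 0) (hxK : x ∈ K)
    (hK : ∀ t ∈ TR p x, InV v K t → t ∈ K) (hi : Imm v W K) :
    Imm v (tam p v x W) (tam p v x K) where
  le := tam_mono hi.le
  imm := by
    classical
    intro b hb hb0
    obtain ⟨s, f, h1, h2, h3, h4⟩ := tam_rep hp hx hxK hK hb (v b + 1)
    have h5 : Gt v (v b) (b - ∑ t ∈ s, f t * t) := Gt.of_ge h4 (by linarith)
    have h6 : v.Ge (v b) (∑ t ∈ s, f t * t) := by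
      have e : ∑ t ∈ s, f t * t = b - (b - ∑ t ∈ s, f t * t) := by ring
      rw [e]
      exact (RVal.ge_self b).sub h5.ge
    have h7 := orth_fin s f (fun t ht => (h1 t ht).1) h2 h3 h6
    have h8 : ∀ t : Ω, ∃ a ∈ W, t ∈ s → f t ≠ 0 → Gt v (v (f t)) (f t - a) := by
      intro t
      by_cases ht : t ∈ s
      · by_cases h0 : f t = 0
        · exact ⟨0, zero_mem _, fun _ h9 => absurd h0 h9⟩
        · obtain ⟨a, ha, h9⟩ := hi.imm (f t) (h3 t ht) h0
          exact ⟨a, ha, fun _ _ => h9⟩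
      · exact ⟨0, zero_mem _, fun h9 => absurd h9 ht⟩
    choose a ha h9 using h8
    refine ⟨∑ t ∈ s, (if f t = 0 then 0 else a t) * t, sum_mem fun t ht => mul_mem ?_
      (tr_mem_tam (h1 t ht)), ?_⟩
    · split_ifs
      · exact zero_mem _
      · exact le_tam W (ha t)
    · have e : b - ∑ t ∈ s, (if f t = 0 then 0 else a t) * t
          = (b - ∑ t ∈ s, f t * t) + ∑ t ∈ s, (f t - if f t = 0 then 0 else a t) * t := by
        rw [sub_add, ← Finset.sum_sub_distrib]
        congr 1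
        refine Finset.sum_congr rfl fun t _ => ?_
        ring
      rw [e]
      refine h5.add ?_
      refine Finset.sum_induction _ (fun x => Gt v (v b) x) (fun a b ha hb => ha.add hb) ?_ ?_
      · exact fun h => absurd rfl h
      · intro t ht
        by_cases h0 : f t = 0
        · rw [if_pos h0, sub_zero, h0, zero_mul]
          exact fun h => absurd rfl h
        · rw [if_neg h0]
          have h10 := (h9 t ht h0).mul_ge (RVal.ge_self (v := v) t)
          have h11 := h7 t ht (mul_ne_zero h0 (h1 t ht).1)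
          rw [v.map_mul h0 (h1 t ht).1] at h11
          intro h12
          exact lt_of_le_of_lt h11 (h10 h12)

/-- The values of the tame closure are `p`-divisible. -/
theorem pdiv_tam [hp : Fact p.Prime] (hx : x ≠ 0) (hxW : x ∈ W)
    (hW : ∀ t ∈ TR p x, InV v W t → t ∈ W) (hd : ∀ g ∈ VG v W, g / p ∈ VG v W) :
    ∀ g ∈ VG v (tam p v x W), g / p ∈ VG v (tam p v x W) := by
  rintro _ ⟨b, hb, hb0, rfl⟩
  obtain ⟨f, hf, hf0, t, ht, h1⟩ := vg_tam_of hp.out hx hxW hW hb hb0
  have hp0 : (p : ℝ) ≠ 0 := by exact_mod_cast hp.out.ne_zero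
  have hle : VG v W ≤ VG v (tam p v x W) := VG.mono (le_tam W)
  rw [h1, add_div]
  refine add_mem (hle (hd _ (VG.self hf hf0))) ?_
  obtain ⟨ht0, n, hn, m, h2⟩ := ht
  have h3 : (n : ℝ) * v t = m * v x := by
    rw [← v.map_pow ht0, h2, v.map_zpow hx]
  have hc : IsCoprime (p : ℤ) (n : ℤ) := by
    rw [Nat.isCoprime_iff_coprime]
    exact (Nat.Prime.coprime_iff_not_dvd hp.out).2 hn
  obtain ⟨a, c, hac⟩ := hc
  have hac' : (a : ℝ) * p + c * n = 1 := by exact_mod_cast hac
  have e : v t / p = a • v t + (c * m) • (v x / p) := by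
    rw [zsmul_eq_mul, zsmul_eq_mul]
    push_cast
    field_simp
    linear_combination (-(v t)) * hac' + (c : ℝ) * h3
  rw [e]
  exact add_mem ((VG v (tam p v x W)).zsmul_mem (VG.self (tr_mem_tam ⟨ht0, n, hn, m, h2⟩) ht0) _)
    ((VG v (tam p v x W)).zsmul_mem (hle (hd _ (VG.self hxW hx))) _)

/-- **The Gauss projection.** -/
theorem exists_gauss_tam [IsAlgClosed Ω] [IsAlgClosed k] [hp : Fact p.Prime] [CharP k p]
    [CharP Ω p] {Wr Kr : IntermediateField k Ω} {G : AddSubgroup ℝ} {M : ℝ → Ω} (h0 : Ctx0 k v)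
    (hcv : CompleteV v) (hxW : x ∈ Wr) (hx : x ≠ 0) (hWc : Cld v Wr) (hKc : Cld v Kr)
    (hi : Imm v Wr Kr) (hd : ∀ g ∈ VG v Wr, g / p ∈ VG v Wr) (hM : MS v G M)
    (hG : ∀ g ∈ G, g ∈ VG v (tam p v x Wr) → g = 0) :
    ∃ π : Ω → Ω, Prj p v (tam p v x Kr) (PM v (tam p v x Kr) G M) π ∧
      (∀ A : IntermediateField k Ω, Wr ≤ A → A ≤ Kr → ∀ g ∈ PM v (tam p v x A) G M,
        π g ∈ tam p v x A) ∧
      ∀ g ∈ G, g ≠ 0 → ∀ f ∈ tam p v x Kr, π (M g * f) = 0 := by
  have hW : ∀ t ∈ TR p x, InV v Wr t → t ∈ Wr := fun t ht hv => root_mem h0 hWc hxW ht hv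
  have hxK : x ∈ Kr := hi.le hxW
  have hK : ∀ t ∈ TR p x, InV v Kr t → t ∈ Kr := fun t ht hv => root_mem h0 hKc hxK ht hv
  have hgs : GsM v (tam p v x Wr) G M := ⟨hM, hG⟩
  have hiT : Imm v (tam p v x Wr) (tam p v x Kr) := imm_tam hp.out hx hxK hK hi
  obtain ⟨π, hπ⟩ := exists_pi0 hcv hgs.monG hiT (cld_tam Kr)
  have hprj := Prj.gauss (p := p) hπ (pdiv_tam hx hxW hW hd)
  refine ⟨_, hprj, fun A hWA hAK g hg => ?_, fun g hg hg0 f hf => ?_⟩
  · have hAc : Imm v (tam p v x Wr) (tam p v x A) :=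
      ⟨tam_mono hWA, fun b hb hb0 => hiT.imm b (tam_mono hAK hb) hb0⟩
    rw [prG_eq π (PM.mono (tam_mono hAK) hg)]
    exact hπ.sub _ hAc (tam_mono hAK) (cld_tam A) _ hg
  · rw [mul_comm, hprj.mul f hf _ (PM.mon hg), prG_eq π (PM.mon hg), hπ.mon g hg
      (fun h1 => hg0 (hG g hg h1)), mul_zero]

end Pool.Agent.TWRA
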