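import Pool.Agent.Lib.TWRA.Defs

/-!
# CT, row A, `GA2` (d): the motions of the normalised first floors

* `SMo.scale`: a motion of `B⟨w⟩`, `w ↦ w + Z`, which is close to the identity at `c ∈ B`, gives a
  motion with `w / c ↦ w / c + Z / c`;
* `MovV.scale`, `MovR.scale`;
* `mv_of_mvs`: the field `mv` of `GLD`.
-/

set_option autoImplicit false

open MvPolynomial

namespace Pool.Agent.TWRA

open Pool.Agent.H15JM (RVal)
open Pool.Agent.LU1 (VPos)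
open Pool.Agent.D2 (Ctx0)
open Pool.Agent.D2P (clI)
open Pool.Agent.TWM
open Pool.Agent.TWS (IsoE SphC PM VG TowR)
open Pool.Agent.TWN1 (Par)
open Pool.Agent.TWCT

universe u

section Scale

variable {k Ω : Type u} [Field k] [Field Ω] [Algebra k Ω] {v : RVal Ω} [IsAlgClosed Ω]
  {A B : IntermediateField k Ω} {w : Ω} {s : ℝ}

/-- **A motion of a floor, scaled.** -/
theorem SMo.scale (hk : Ctx0 k v) (hsp : SphC v) (hval : ∀ ρ : ℝ, ∃ x : Ω, x ≠ 0 ∧ v x = ρ)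
    (hcv : CompleteV v) (hAB : A ≤ B) (hw : TL v B w s) {c : Ω} (hc : c ∈ B) (hc0 : c ≠ 0)
    {Φ : Ω →ₐ[k] Ω} {η N : ℝ} {Z : Ω} (h : SMo v A B Φ η) (h' : SMo v A (cadj v B w) Φ η)
    (hΦ : Φ w = w + Z) (hZ : Z ∈ B) (hN : s - min (v w) (s - 1) + v c < N)
    (hcN : v.Ge N (Φ c - c)) : ∃ (Φ' : Ω →ₐ[k] Ω) (η' : ℝ), SMo v A B Φ' η' ∧
      SMo v A (cadj v B (w / c)) Φ' η' ∧ Φ' (w / c) = w / c + Z / c := by
  have hw' : TL v B (w / c) (s - v c) := by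
    have e : w / c = c⁻¹ * w + 0 := by
      rw [add_zero, div_eq_inv_mul]
    rw [e]
    have h1 := TL.affine hw (inv_mem hc) (inv_ne_zero hc0) (zero_mem B)
    rw [v.map_inv hc0] at h1
    have e2 : s - v c = -v c + s := by ring
    rw [e2]
    exact h1
  have hη := h.pos
  set δ : ℝ := min (η / 2) 1 with hδ
  have hδ0 : 0 < δ := lt_min (half_pos hη) one_pos
  obtain ⟨b, hb, hbw⟩ := hw.lim δ hδ0
  have hb1 : v.Ge (s - η / 2) (w - b) := hbw.mono (by linarith [min_le_left (η / 2) 1])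
  have hm : v.Ge (min (v w) (s - 1)) b := by
    have e : b = w - (w - b) := by ring
    rw [e]
    exact ((RVal.ge_self w).mono (min_le_left _ _)).sub
      (hbw.mono ((min_le_right _ _).trans (by linarith [min_le_right (η / 2) 1])))
  have hΦc0 : Φ c ≠ 0 := (map_ne_zero Φ).2 hc0
  have hvΦc : v (Φ c) = v c := h.iso.val c hc0
  obtain ⟨Φ', η', -, h1, h2, -, h3⟩ := SMo.ext hk hsp hval hcv hAB h hw' (c := b / c)
    (ω := Z / c) (div_mem hb hc) (by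
      have e : w / c - b / c = (w - b) * c⁻¹ := by
        rw [← sub_div, div_eq_mul_inv]
      rw [e]
      have h1 : v.Ge (-v c) c⁻¹ := fun _ => (v.map_inv hc0).ge
      exact (hb1.mul h1).mono (by linarith)) (div_mem hZ hc) (by
      have e : Z / c - (Φ (b / c) - b / c) = ((Φ w - w) - (Φ b - b)) * c⁻¹ +
          Φ b * (Φ c - c) * (c⁻¹ * (Φ c)⁻¹) := by
        rw [hΦ, map_div₀]
        field_simp
        ring
      rw [e]
      have hic : v.Ge (-v c) c⁻¹ := fun _ => (v.map_inv hc0).ge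
      have hiΦ : v.Ge (-v c) (Φ c)⁻¹ := fun _ => by rw [v.map_inv hΦc0, hvΦc]
      have h4 : v.Ge (s + η / 2) ((Φ w - w) - (Φ b - b)) := by
        have e2 : (Φ w - w) - (Φ b - b) = Φ (w - b) - (w - b) := by
          rw [map_sub]
          ring
        rw [e2]
        have h5 := h'.str (w - b) (sub_mem (self_mem_cadj v B w) (le_cadj v B w hb)) _ hb1
        exact h5.mono (by linarith)
      refine Gt.add (Gt.of_ge (h4.mul hic) (by linarith)) ?_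
      have h6 : v.Ge (min (v w) (s - 1)) (Φ b) := h.iso.ge_iff.2 hm
      refine Gt.of_ge ((h6.mul hcN).mul (hic.mul hiΦ)) (by linarith))
  exact ⟨Φ', η', h1, h2, h3⟩

variable {L : ℕ → IntermediateField k Ω}

theorem MovV.scale (hk : Ctx0 k v) (hsp : SphC v) (hval : ∀ ρ : ℝ, ∃ x : Ω, x ≠ 0 ∧ v x = ρ)
    (hcv : CompleteV v) (hL : Monotone L) (hLB : ∀ J, L J ≤ B) (hd : B ≤ clI v (⨆ J, L J))
    (hw : TL v B w s) {c : Ω} (hc : c ∈ B) (hc0 : c ≠ 0) (h : MovV v L B w s) :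
    MovV v L B (w / c) (s - v c) := by
  intro J ε hε
  obtain ⟨J₁, hJ₁⟩ := exists_level hL hd {c} (fun y hy => by rwa [Finset.mem_singleton.1 hy])
    (s - min (v w) (s - 1) + v c + 1)
  obtain ⟨Φ, η, Z, h1, h2, h3, h4, h5, h6, h7⟩ := h (max J J₁) ε hε
  obtain ⟨Φ', η', h8, h9, h10⟩ := SMo.scale hk hsp hval hcv (hLB _) hw hc hc0 h1 h2 h3 h4
    (lt_add_one _) (hJ₁ _ (le_max_right _ _) Φ h1.iso h1.fix c (Finset.mem_singleton_self c))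
  refine ⟨Φ', η', Z / c, h8.mono (hL (le_max_left _ _)) h8.pos le_rfl,
    h9.mono (hL (le_max_left _ _)) h9.pos le_rfl, h10, div_mem h4 hc, div_ne_zero h5 hc0, ?_, ?_⟩
  · rw [v.map_div h5 hc0]
    linarith
  · rw [v.map_div h5 hc0]
    linarith

theorem MovR.scale (hk : Ctx0 k v) (hsp : SphC v) (hval : ∀ ρ : ℝ, ∃ x : Ω, x ≠ 0 ∧ v x = ρ)
    (hcv : CompleteV v) (hL : Monotone L) (hLB : ∀ J, L J ≤ B) (hd : B ≤ clI v (⨆ J, L J))
    (hw : TL v B w s) {c : Ω} (hc : c ∈ B) (hc0 : c ≠ 0) (h : MovR v L B w s) :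
    MovR v L B (w / c) (s - v c) := by
  obtain ⟨t, ht, ht0, hvt, h⟩ := h
  refine ⟨t / c, div_mem ht hc, div_ne_zero ht0 hc0, by rw [v.map_div ht0 hc0, hvt],
    fun J R => ?_⟩
  obtain ⟨J₁, hJ₁⟩ := exists_level hL hd {c} (fun y hy => by rwa [Finset.mem_singleton.1 hy])
    (s - min (v w) (s - 1) + v c + 1)
  obtain ⟨Φ, η, γ, hγ, h1, h2, h3⟩ := h (max J J₁) R
  obtain ⟨Φ', η', h8, h9, h10⟩ := SMo.scale hk hsp hval hcv (hLB _) hw hc hc0 h1 h2 h3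
    (mul_mem (B.algebraMap_mem γ) ht)
    (lt_add_one _) (hJ₁ _ (le_max_right _ _) Φ h1.iso h1.fix c (Finset.mem_singleton_self c))
  refine ⟨Φ', η', γ, hγ, h8.mono (hL (le_max_left _ _)) h8.pos le_rfl,
    h9.mono (hL (le_max_left _ _)) h9.pos le_rfl, ?_⟩
  rw [h10, mul_div_assoc]

end Scale

section Real

variable {k Ω₀ Ω : Type u} [Field k] [Field Ω₀] [Algebra k Ω₀] [Field Ω] [Algebra k Ω] {p : ℕ}
  {v₀ : RVal Ω₀} {v : RVal Ω} {ι : Ω₀ →ₐ[k] Ω} [hp : Fact p.Prime] [CharP Ω₀ p] [CharP Ω p]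
  [CharP k p] [IsAlgClosed k] [IsAlgClosed Ω₀] [IsAlgClosed Ω] {x₀ : Ω₀}
  {W₀ K₀ : IntermediateField k Ω₀} {al : Ω₀} {ν : ℝ}

omit hp [CharP Ω₀ p] [CharP Ω p] [CharP k p] [IsAlgClosed k] [IsAlgClosed Ω₀] [IsAlgClosed Ω] in
/-- The exact monomials are in the field. -/
theorem Mn_mem {G : AddSubgroup ℝ} {M : ℝ → Ω} (hTR : TWTam.TR p (ι x₀) ⊆ (tH p v₀ ι x₀ (clI v₀ W₀) :
    Set Ω)) {c : Ω} (hc : c ∈ Mn p (ι x₀) ((clI v₀ W₀).map ι) G M) :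
    c ∈ PM v (tH p v₀ ι x₀ (clI v₀ W₀)) G M := by
  obtain ⟨g, hg, t, ht, m, hm, -, rfl⟩ := hc
  have h1 : (clI v₀ W₀).map ι ≤ tH p v₀ ι x₀ (clI v₀ W₀) :=
    IntermediateField.map_mono ι (TWTam.le_tam _)
  exact mul_mem (mul_mem (PM.mon hg) (PM.le (hTR ht))) (PM.le (h1 hm))

/-- **The motions of the normalised first floors.** -/
theorem mv_of_mvs (hJ : J1D p v₀ v ι x₀ W₀ K₀ al ν) {F : IntermediateField k Ω₀} {z₀ : Ω₀} {s : ℝ}
    (hz : TL v₀ F z₀ s) (hK : clI v₀ K₀ = cadj v₀ F z₀) {L : ℕ → IntermediateField k Ω}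
    (hL : Chn p v₀ v ι x₀ (clI v₀ W₀) L)
    (hcon : ConS v L (tH p v₀ ι x₀ (clI v₀ W₀)) (tH p v₀ ι x₀ (clI v₀ W₀)))
    {G : AddSubgroup ℝ} {M : ℝ → Ω} (hM : MS v G M)
    (hG : ∀ g ∈ G, g ∈ VG v (tH p v₀ ι x₀ (clI v₀ W₀)) → g = 0)
    (w : Fin 2 → Ω) (ρ : Fin 2 → ℝ)
    (hP : Par v ((clI v₀ W₀).map ι) (F.map ι) (w 0) (ρ 0) (w 1) (ρ 1)) (c : Fin 2 → Ω)
    (hc : ∀ i, c i ∈ Mn p (ι x₀) ((clI v₀ W₀).map ι) G M) (hv : ∀ i, v (c i) = ρ i) :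
    MovV v (fun J => PM v (L J) G M) (PM v (tH p v₀ ι x₀ (clI v₀ W₀)) G M) (w 0 / c 0) 0 ∨
      MovR v (fun J => PM v (L J) G M) (PM v (tH p v₀ ι x₀ (clI v₀ W₀)) G M) (w 0 / c 0) 0 := by
  have hw : ∀ i, ∃ y ∈ F, ι y = w i := by
    intro i
    fin_cases i
    · exact hP.eq2.ge (self_mem_cadj v _ (w 0))
    · exact hP.eq1.ge (self_mem_cadj v _ (w 1))
  choose y hy hyw using hw
  obtain rfl : (fun i => ι (y i)) = w := funext hyw
  have hP' : Par v₀ (clI v₀ W₀) F (y 0) (ρ 0) (y 1) (ρ 1) := (par_map hJ.iso hJ.cpl).1 hP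
  have hT : TowR v₀ 2 (cadj v₀ (clI v₀ W₀) (y 0)) (clI v₀ K₀) := by
    rw [hK]
    refine TowR.succ hP'.t21 ?_
    rw [← hP'.eq1]
    exact TowR.succ hz (TowR.zero (cld_cadj _ _ _))
  have htl : TL v (tH p v₀ ι x₀ (clI v₀ W₀)) (ι (y 0)) (ρ 0) := tl_tH hJ.iso hJ.xW hP'.t1
  have hgs : GsM v (tH p v₀ ι x₀ (clI v₀ W₀)) G M := ⟨hM, hG⟩
  have hTR : TWTam.TR p (ι x₀) ⊆ (tH p v₀ ι x₀ (clI v₀ W₀) : Set Ω) := fun t ht =>
    hL.le 0 (hL.tr ht)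
  have hc0 : c 0 ∈ PM v (tH p v₀ ι x₀ (clI v₀ W₀)) G M := Mn_mem hTR (hc 0)
  have hc00 : c 0 ≠ 0 := by
    obtain ⟨g, hg, t, ht, m, -, hm0, hcm⟩ := hc 0
    rw [hcm]
    exact mul_ne_zero (mul_ne_zero (hM.ne g hg) ht.1) hm0
  have htl' : TL v (PM v (tH p v₀ ι x₀ (clI v₀ W₀)) G M) (ι (y 0)) (ρ 0) :=
    TWS.TL.pm hgs.monG (Imm.refl _) htl
  have hmono : Monotone fun J => PM v (L J) G M := mono_pm hL.mono
  have hle : ∀ J, PM v (L J) G M ≤ PM v (tH p v₀ ι x₀ (clI v₀ W₀)) G M := fun J =>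
    PM.mono (hL.le J)
  have hd := dense_pm (G := G) (M := M) hL.dense
  have e : (0 : ℝ) = ρ 0 - v (c 0) := by rw [hv 0, sub_self]
  rw [e]
  rcases hJ.mvs hL hcon hP'.t1 hT with h1 | h1
  · exact Or.inl (MovV.scale hJ.c0 hJ.sph hJ.val hJ.cw hmono hle hd htl' hc0 hc00
      (MovV.pm hJ.c0 hJ.sph hJ.val hJ.cw hL.le hgs htl h1))
  · exact Or.inr (MovR.scale hJ.c0 hJ.sph hJ.val hJ.cw hmono hle hd htl' hc0 hc00
      (MovR.pm hJ.c0 hJ.sph hJ.val hJ.cw hL.le hgs htl h1))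

end Real

end Pool.Agent.TWRA
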