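import Pool.Agent.Lib.TWRA.St
import Pool.Agent.Lib.TWCY.Mv
import Pool.Agent.Lib.TWCY.Sb
import Pool.Agent.Lib.TWCY.TrnE
import Pool.Agent.Lib.TWCY.ShpE

/-!
# CT, row A: a real pair without noise in the second variable (row `GA8`)

* `trn_eqOn`, `dd_eqOn`: the translations and the derivations of a pair are unique on `F`;
* `US_eq`: `US` does not depend on the record;
* `exists_rec`: the record of a real pair;
* `RPr`: the normalised real pairs;
* `rowReal`.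
-/

set_option autoImplicit false

open MvPolynomial

namespace Pool.Agent.TWRA

open Pool.Agent.H15JM (RVal)
open Pool.Agent.LU1 (VPos)
open Pool.Agent.D2 (Ctx0)
open Pool.Agent.TWM
open Pool.Agent.TWS (IsoE SphC PM VG)
open Pool.Agent.TWN1 (Par)
open Pool.Agent.TWCT (MovV MovR)
open Pool.Agent.TWLY
open Pool.Agent.TWCY
open Pool.Agent.TWTG (stp swp stc NU NU_congr Hm cmp dgr)

universe u

variable {k Ω : Type u} [Field k] [Field Ω] [Algebra k Ω] {v : RVal Ω} {p : ℕ}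

/-! ### Uniqueness -/

section uniq

variable {W F : IntermediateField k Ω} {y : Fin 2 → Ω} {T T' : (Fin 2 → k) → Ω →ₐ[k] Ω}
  {D D' : Ω → Ω} {dd dd' : Fin 2 → Ω → Ω}

theorem trn_eqOn (hT : Trn v W F y T) (hT' : Trn v W F y T') (c : Fin 2 → k) {f : Ω}
    (hf : f ∈ F) : T c f = T' c f := by
  refine sub_eq_zero.1 (eq_zero_of_ge (v := v) fun r => ?_)
  obtain ⟨P, hP, h1⟩ := hT.dns f hf r
  have e : T c f - T' c f = T c (f - eval y P) - T' c (f - eval y P) := by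
    rw [map_sub, map_sub, hT.T_eval_shW hP, hT'.T_eval_shW hP]
    ring
  rw [e]
  exact (IsoE.ge' (hT.iso c) h1).sub (IsoE.ge' (hT'.iso c) h1)

theorem dd_eqOn (hT : Trn v W F y T) (hD : DrvT v W F y T D dd) (hT' : Trn v W F y T')
    (hD' : DrvT v W F y T' D' dd') (i : Fin 2) {f : Ω} (hf : f ∈ F) : dd i f = dd' i f := by
  refine sub_eq_zero.1 (eq_zero_of_ge (v := v) fun r => ?_)
  obtain ⟨P, hP, h1⟩ := hT.dns f hf r
  have hPF : eval y P ∈ F := hT.eval_mem hP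
  have e : dd i f - dd' i f = dd i (f - eval y P) - dd' i (f - eval y P) := by
    rw [(hD.drvi i).map_sub hf hPF, (hD'.drvi i).map_sub hf hPF, DrvT.dd_eval hT hD i P hP,
      DrvT.dd_eval hT' hD' i P hP]
    ring
  rw [e]
  exact ((hD.drvi i).norm _ (sub_mem hf hPF) r h1).sub
    ((hD'.drvi i).norm _ (sub_mem hf hPF) r h1)

theorem dd_T (hT : Trn v W F y T) (hD : DrvT v W F y T D dd) (c : Fin 2 → k) (i : Fin 2) {f : Ω}
    (hf : f ∈ F) : dd i (T c f) = T c (dd i f) := by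
  have h1 := comm hT (hD.drvi i) (fun f hf => by rw [hD.ddW i f hf]; exact zero_mem _)
    (fun j => by
      rw [hD.ddw]
      split_ifs
      · exact fun ε hε => ⟨1, one_mem _, by rw [sub_self]; exact RVal.Ge.zero⟩
      · exact fun ε hε => ⟨0, zero_mem _, by rw [sub_self]; exact RVal.Ge.zero⟩)
    hD.drvi hD.ddW hD.ddw c hf
  rw [h1, sub_eq_self]
  refine Finset.sum_eq_zero fun j _ => ?_
  rw [hD.ddw]
  split_ifs
  · rw [map_one, sub_self, zero_mul]
  · rw [map_zero, sub_self, zero_mul]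

/-- **`US` does not depend on the record.** -/
theorem US_eq (hk : Ctx0 k v) (hfull : ∀ r : ℝ, ∃ g ∈ W, g ≠ 0 ∧ v g = r)
    (hT : Trn v W F y T) (hD : DrvT v W F y T D dd) (hT' : Trn v W F y T')
    (hD' : DrvT v W F y T' D' dd') {z φ φ' : Ω} (hφ : φ ∈ F) (hφ' : φ' ∈ F)
    (hz : Lim v F 0 (z - φ)) {e e' : k} (he : e = 0 ↔ e' = 0)
    (hn : e ≠ 0 → ∀ i, NatV v F (dd i) (z - φ) 0)
    (hn' : e' ≠ 0 → ∀ i, NatV v F (dd' i) (z - φ') 0) :
    US v F T dd (z - φ) e = US v F T' dd' (z - φ') e' := by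
  classical
  have hψ : φ' - φ ∈ F := sub_mem hφ' hφ
  -- the translations differ by `O_0`
  have h1 : ∀ c, v.Ge 0 (T c (z - φ) - T' c (z - φ)) := by
    intro c
    refine ge_zero_of_eps fun ε hε => ?_
    obtain ⟨θ, hθ, h2⟩ := hz ε hε
    rw [zero_sub] at h2
    have e : T c (z - φ) - T' c (z - φ) = T c (z - φ - θ) - T' c (z - φ - θ) := by
      rw [map_sub (T c) (z - φ) θ, map_sub (T' c) (z - φ) θ, trn_eqOn hT hT' c hθ]
      ring
    rw [e]
    exact (IsoE.ge' (hT.iso c) h2).sub (IsoE.ge' (hT'.iso c) h2)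
  have e1 : ∀ c, (T c (z - φ) - (z - φ)) - (T' c (z - φ') - (z - φ')) =
      (T c (z - φ) - T' c (z - φ)) + (T' c (φ' - φ) - (φ' - φ)) := by
    intro c
    have : z - φ = (z - φ') + (φ' - φ) := by ring
    rw [this, map_add (T' c) (z - φ') (φ' - φ)]
    ring
  unfold US
  by_cases h0 : e = 0
  · rw [if_pos h0, if_pos (he.1 h0)]
    refine NU_congr fun c => Submodule.subset_span ⟨T' c (φ' - φ) - (φ' - φ),
      sub_mem (hT'.mem c _ hψ) hψ, ?_⟩
    rw [e1, add_sub_cancel_right]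
    exact h1 c
  · have h0' : e' ≠ 0 := fun h => h0 (he.2 h)
    rw [if_neg h0, if_neg h0']
    have hZ : Z1 v F dd = Z1 v F dd' := z1_congr fun f hf => by
      simp only [dd_eqOn hT hD hT' hD' _ hf]
    rw [hZ]
    refine NU_congr fun c => Submodule.subset_span ⟨T' c (φ' - φ) - (φ' - φ),
      sub_mem (hT'.mem c _ hψ) hψ, fun i => ?_, ?_⟩
    · -- `∂_i (φ' - φ)` is integral
      have h2 : v.Ge 0 (dd' i (φ' - φ)) := by
        refine ge_zero_of_eps fun ε hε => ?_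
        obtain ⟨θ, hθ, h3⟩ := hz ε hε
        rw [zero_sub] at h3
        have h4 := hn h0 i ε hε θ hθ h3
        have h5 := hn' h0' i ε hε (θ + φ - φ') (sub_mem (add_mem hθ hφ) hφ') (by
          have : z - φ' - (θ + φ - φ') = z - φ - θ := by ring
          rw [this]
          exact h3)
        have h6 : dd' i (φ' - φ) = (0 - dd' i (θ + φ - φ')) - (0 - dd i θ) := by
          have h7 : θ + φ - φ' = θ - (φ' - φ) := by ring
          rw [dd_eqOn hT hD hT' hD' i hθ, h7, (hD'.drvi i).map_sub hθ hψ]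
          ring
        rw [h6]
        exact h5.sub h4
      rw [(hD'.drvi i).map_sub (hT'.mem c _ hψ) hψ, dd_T hT' hD' c i hψ]
      exact gt_T hk (hT'.iso c) (hT'.fix c) hfull h2
    · rw [e1, add_sub_cancel_right]
      exact h1 c

end uniq

/-! ### Polynomials in one variable -/

theorem exists_aeval_X0 {P : MvPolynomial (Fin 2) k} (h : ∀ m ∈ P.support, m 1 = 0) :
    ∃ n : Polynomial k, P = Polynomial.aeval (X 0) n := by
  refine ⟨∑ m ∈ P.support, Polynomial.monomial (m 0) (coeff m P), ?_⟩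
  rw [map_sum]
  conv_lhs => rw [P.as_sum]
  refine Finset.sum_congr rfl fun m hm => ?_
  rw [Polynomial.aeval_monomial, monomial_eq, Finsupp.prod_fintype _ _ (fun i => pow_zero _),
    Fin.prod_univ_two, h m hm, pow_zero, mul_one]
  rfl

theorem support_aeval_X0 (n : Polynomial k) {m : Ex}
    (hm : m ∈ (Polynomial.aeval (X 0 : MvPolynomial (Fin 2) k) n).support) : m 1 = 0 := by
  classical
  rw [mem_support_iff, Polynomial.aeval_eq_sum_range, coeff_sum] at hm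
  obtain ⟨i, _, hi⟩ := Finset.exists_ne_zero_of_sum_ne_zero hm
  rw [coeff_smul, coeff_X_pow] at hi
  by_cases h : Finsupp.single 0 i = m
  · rw [← h, Finsupp.single_eq_of_ne (by decide)]
  · rw [if_neg h, smul_zero] at hi
    exact absurd rfl hi

/-- The polynomials without the second variable. -/
theorem free_of_span {U : Set (MvPolynomial (Fin 2) k)}
    (hU : ∀ Q ∈ U, ∃ n : Polynomial k, Q = Polynomial.aeval (X 0) n) {N : MvPolynomial (Fin 2) k}
    (hN : N ∈ Submodule.span k U) : ∀ m ∈ N.support, m 1 = 0 := by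
  have h1 : ∃ n : Polynomial k, N = Polynomial.aeval (X 0) n := by
    refine Submodule.span_induction (p := fun N _ => ∃ n : Polynomial k,
      N = Polynomial.aeval (X 0) n) ?_ ?_ ?_ ?_ hN
    · exact hU
    · exact ⟨0, (map_zero _).symm⟩
    · rintro _ _ _ _ ⟨n, rfl⟩ ⟨n', rfl⟩
      exact ⟨n + n', (map_add _ _ _).symm⟩
    · rintro a _ _ ⟨n, rfl⟩
      exact ⟨a • n, (map_smul _ _ _).symm⟩
  obtain ⟨n, rfl⟩ := h1
  exact fun m hm => support_aeval_X0 n hm

theorem adt_X (i : Fin 2) : Adt (X i : MvPolynomial (Fin 2) k) := by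
  intro s c
  simp

/-- From `AA` to `Au`. -/
theorem exists_au [hp : Fact p.Prime] [CharP k p] [Infinite k]
    {E : MvPolynomial (Fin 2) k ≃ₐ[k] MvPolynomial (Fin 2) k} (hE : AA E) {b : Fin 2}
    {V : Set (MvPolynomial (Fin 2) k)} (hV : ∀ N ∈ V, ∀ m ∈ (E N).support, m b = 0) :
    ∃ u w : Fin 2 → MvPolynomial (Fin 2) k, TWTG.Au p u w ∧
      ∀ N ∈ V, ∃ n : Polynomial k, N = Polynomial.aeval (u 0) n := by
  have key : ∀ {E : MvPolynomial (Fin 2) k ≃ₐ[k] MvPolynomial (Fin 2) k}, AA E →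
      (∀ N ∈ V, ∀ m ∈ (E N).support, m 1 = 0) → ∃ u w : Fin 2 → MvPolynomial (Fin 2) k,
      TWTG.Au p u w ∧ ∀ N ∈ V, ∃ n : Polynomial k, N = Polynomial.aeval (u 0) n := by
    intro E hE hV
    have h1 : ∀ N, aeval (fun i => E.symm (X i)) N = E.symm N := by
      intro N
      have : (aeval fun i => E.symm (X i)) =
          (E.symm : MvPolynomial (Fin 2) k →ₐ[k] MvPolynomial (Fin 2) k) := by
        ext i : 1
        rw [aeval_X]
        rfl
      rw [this]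
      rfl
    have h2 : ∀ N, aeval (fun i => E (X i)) N = E N := by
      intro N
      have : (aeval fun i => E (X i)) =
          (E : MvPolynomial (Fin 2) k →ₐ[k] MvPolynomial (Fin 2) k) := by
        ext i : 1
        rw [aeval_X]
        rfl
      rw [this]
      rfl
    refine ⟨fun i => E.symm (X i), fun i => E (X i), ⟨fun i => ap_of_adt (hE.symm i),
      fun i => ap_of_adt (hE.adt i), fun i => ?_, fun i => ?_⟩, fun N hN => ?_⟩
    · rw [h1]
      exact E.symm_apply_apply _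
    · rw [h2]
      exact E.apply_symm_apply _
    · obtain ⟨n, hn⟩ := exists_aeval_X0 (hV N hN)
      refine ⟨n, ?_⟩
      have h3 : N = E.symm (Polynomial.aeval (X 0) n) := by
        rw [← hn]
        exact (E.symm_apply_apply N).symm
      rw [h3]
      exact (Polynomial.aeval_algHom_apply (E.symm : MvPolynomial (Fin 2) k →ₐ[k]
        MvPolynomial (Fin 2) k) (X 0) n).symm
  by_cases hb : b = 1
  · subst hb
    exact key hE hV
  · have hb0 : b = 0 := by omega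
    subst hb0
    have hS : AA (renameEquiv k (Equiv.swap (0 : Fin 2) 1)) := by
      refine ⟨fun i => ?_, fun i => ?_⟩
      · rw [renameEquiv_apply, rename_X]
        exact adt_X _
      · rw [renameEquiv_symm, renameEquiv_apply, rename_X]
        exact adt_X _
    refine key (hE.trans hS) fun N hN m hm => ?_
    have h1 : (E.trans (renameEquiv k (Equiv.swap (0 : Fin 2) 1))) N =
        rename (Equiv.swap (0 : Fin 2) 1) (E N) := rfl
    rw [h1] at hm
    obtain ⟨m', hm', h2⟩ := Finset.mem_image.1 ((support_rename_of_injective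
      (Equiv.swap (0 : Fin 2) 1).injective).le hm)
    rw [← h2]
    have h3 : (Finsupp.mapDomain (Equiv.swap (0 : Fin 2) 1) m') 1 = m' 0 := by
      have := Finsupp.mapDomain_apply (Equiv.swap (0 : Fin 2) 1).injective m' 0
      rwa [Equiv.swap_apply_left] at this
    rw [h3]
    exact hV N hN m' hm'

/-! ### The real pairs -/

/-- The normalised real pairs. -/
def RPr (v : RVal Ω) (Wr Fr : IntermediateField k Ω) (S : Set Ω)
    (r : Fin 2 → ℝ ⧸ VG v Wr) (y : Fin 2 → Ω) : Prop :=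
  ∃ (w : Fin 2 → Ω) (ρ : Fin 2 → ℝ) (c : Fin 2 → Ω), Par v Wr Fr (w 0) (ρ 0) (w 1) (ρ 1) ∧
    (∀ i, c i ∈ S) ∧ (∀ i, v (c i) = ρ i) ∧ (y = fun i => w i / c i) ∧
    r = fun i => QuotientAddGroup.mk (ρ i)

section real

variable {L : ℕ → IntermediateField k Ω} {Wr Fr Kr W' F' K' : IntermediateField k Ω} {S : Set Ω}
  {π : Ω → Ω} {x z a zr ar X₀ d m cx : Ω} {D : Ω → Ω}

theorem RPr.step [Fact p.Prime] [CharP Ω p] [IsAlgClosed Ω] (hk : Ctx0 k v)
    (h : Grd p v Wr Fr Kr W' F' K' S π) {r : Fin 2 → ℝ ⧸ VG v Wr} {y : Fin 2 → Ω} {lam : k}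
    {e : ℕ} (hR : RPr v Wr Fr S r y) (hlam : lam ≠ 0) (hr : r 1 = p ^ e • r 0) :
    RPr v Wr Fr S r (stw p lam e y) := by
  obtain ⟨w, ρ, c, hP, hc, hv, rfl, rfl⟩ := hR
  obtain ⟨w', hw', h1⟩ := par_step (d := e) hk h hP hc hv hlam (sub_mem_of_mk hr)
  exact ⟨w', ρ, c, hw', hc, hv, h1.symm, rfl⟩

theorem RPr.swap {r : Fin 2 → ℝ ⧸ VG v Wr} {y : Fin 2 → Ω} (hR : RPr v Wr Fr S r y) :
    RPr v Wr Fr S ![r 1, r 0] (sww y) := by
  obtain ⟨w, ρ, c, hP, hc, hv, rfl, rfl⟩ := hR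
  obtain ⟨h1, h2⟩ := par_swap (c := c) hP
  refine ⟨sww w, ![ρ 1, ρ 0], sww c, h1, fun i => ?_, fun i => ?_, h2.symm, ?_⟩
  · fin_cases i
    · exact hc 1
    · exact hc 0
  · fin_cases i
    · exact hv 1
    · exact hv 0
  · funext i
    fin_cases i
    · rfl
    · rfl

theorem torsion_free [hp : Fact p.Prime] (h : Grd p v Wr Fr Kr W' F' K' S π)
    (a : ℝ ⧸ VG v Wr) (ha : p • a = 0) : a = 0 := by
  obtain ⟨g, rfl⟩ := QuotientAddGroup.mk_surjective a
  have h1 : p • (QuotientAddGroup.mk g : ℝ ⧸ VG v Wr) = QuotientAddGroup.mk (p • g) := rfl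
  rw [h1, QuotientAddGroup.eq_zero_iff] at ha
  rw [QuotientAddGroup.eq_zero_iff]
  have h2 := h.pd _ ha
  have hp0 : (p : ℝ) ≠ 0 := by exact_mod_cast hp.out.ne_zero
  rwa [nsmul_eq_mul, mul_div_cancel_left₀ _ hp0] at h2

/-- **The record of a real pair.** -/
theorem exists_rec (hTrn : RowTrn (k := k) p v) (hNF : RowNF (k := k) p v)
    (hG : RowG (k := k) p v) (hGL : GLD p v L Wr Fr Kr W' F' K' S π x z a zr ar X₀ d m cx D)
    {w : Fin 2 → Ω} {ρ : Fin 2 → ℝ} (hP : Par v Wr Fr (w 0) (ρ 0) (w 1) (ρ 1)) {c : Fin 2 → Ω}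
    (hc : ∀ i, c i ∈ S) (hv : ∀ i, v (c i) = ρ i) :
    ∃ φ ∈ F', ∃ R : Rec k Ω, CG p v L W' F' K' (fun i => w i / c i) x (z - φ) a R := by
  have hHD := hGL.hd w ρ hP c hc hv
  obtain ⟨T, D', dd, hT, hDr, hDD⟩ := hTrn L W' F' K' _ x z a D hHD hGL.base
  have hB : BaseD p v W' x D' := by
    refine ⟨⟨fun f hf g hg => ?_, fun f hf g hg => ?_, hDr.drv.alg, fun f hf r hr => ?_⟩, hDr.dW,
      ?_, hGL.base.gen, hGL.base.lp, hGL.base.cls⟩
    · exact hDr.drv.add f (hT.le hf) g (hT.le hg)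
    · exact hDr.drv.mul f (hT.le hf) g (hT.le hg)
    · exact hDr.drv.norm f (hT.le hf) r hr
    · rw [hDD x hHD.xW]
      exact hGL.base.Dx
  obtain ⟨φ, hφ, R, -, -, -, hCD⟩ := hNF L W' F' K' _ x z a D' T dd hHD hB hT hDr
  obtain ⟨nD, nd, G, Gi, hCG⟩ := hG L W' F' K' _ x (z - φ) a R hCD
  exact ⟨φ, hφ, _, hCG⟩

/-- The predicate of the Euclid algorithm. -/
def PRs (v : RVal Ω) (Wr Fr W' F' : IntermediateField k Ω) (S : Set Ω) (zz : Ω) (e : k)
    (r : Fin 2 → ℝ ⧸ VG v Wr) (U : Set (MvPolynomial (Fin 2) k)) : Prop :=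
  ∃ (y : Fin 2 → Ω) (T : (Fin 2 → k) → Ω →ₐ[k] Ω) (D : Ω → Ω) (dd : Fin 2 → Ω → Ω),
    RPr v Wr Fr S r y ∧ Trn v W' F' y T ∧ DrvT v W' F' y T D dd ∧
    (e ≠ 0 → ∀ i, NatV v F' (dd i) zz 0) ∧ ∀ N ∈ US v F' T dd zz e, N ∈ Submodule.span k U

theorem PRs.step [Fact p.Prime] [CharP k p] [CharP Ω p] [IsAlgClosed k] [IsAlgClosed Ω]
    (hk : Ctx0 k v) (h : Grd p v Wr Fr Kr W' F' K' S π) {zz : Ω} {e : k}
    {r : Fin 2 → ℝ ⧸ VG v Wr} {U : Set (MvPolynomial (Fin 2) k)} {n : ℕ} {lam : k}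
    (hP : PRs v Wr Fr W' F' S zz e r U) (hlam : lam ≠ 0) (hr : r 1 = p ^ n • r 0) :
    PRs v Wr Fr W' F' S zz e r (stp p lam n '' U) := by
  obtain ⟨y, T, D, dd, h1, h2, h3, h4, h5⟩ := hP
  refine ⟨stw p lam n y, stT p lam n T, D, stD lam n dd, h1.step hk h hlam hr, trn_step h2,
    drvT_step hk h2.wF h3, fun he i => ?_, fun N hN => ?_⟩
  · have h6 := h4 he 0
    have h7 := h4 he 1
    fin_cases i
    · intro ε hε f hf hfz
      have h8 := h6 ε hε f hf hfz
      have h9 := (hk.ge (if n = 0 then lam else 0)).mul (h7 ε hε f hf hfz)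
      rw [zero_add] at h9
      have e1 : (0 : Ω) - (dd 0 f + algebraMap k Ω (if n = 0 then lam else 0) * dd 1 f) =
          (0 - dd 0 f) + algebraMap k Ω (if n = 0 then lam else 0) * (0 - dd 1 f) := by ring
      show v.Ge (-ε) (0 - (dd 0 f + algebraMap k Ω (if n = 0 then lam else 0) * dd 1 f))
      rw [e1]
      exact h8.add h9
    · exact h7
  · have h6 : N ∈ (US v F' (stT p lam n T) (stD lam n dd) zz e : Set (MvPolynomial (Fin 2) k)) := hN
    rw [US_step hk] at h6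
    obtain ⟨N', hN', rfl⟩ := h6
    have h7 : stp p lam n N' ∈ (Submodule.span k U).map (stp p lam n).toLinearMap :=
      ⟨N', h5 N' hN', rfl⟩
    rwa [Submodule.map_span] at h7

theorem PRs.swap [Infinite k] {zz : Ω} {e : k} {r : Fin 2 → ℝ ⧸ VG v Wr}
    {U : Set (MvPolynomial (Fin 2) k)} (hP : PRs v Wr Fr W' F' S zz e r U) :
    PRs v Wr Fr W' F' S zz e ![r 1, r 0] (swp '' U) := by
  obtain ⟨y, T, D, dd, h1, h2, h3, h4, h5⟩ := hP
  refine ⟨sww y, swT T, D, swD dd, h1.swap, trn_swap h2, drvT_swap h3, fun he i => ?_,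
    fun N hN => ?_⟩
  · fin_cases i
    · exact h4 he 1
    · exact h4 he 0
  · have h6 : N ∈ (US v F' (swT T) (swD dd) zz e : Set (MvPolynomial (Fin 2) k)) := hN
    rw [US_swap] at h6
    obtain ⟨N', hN', rfl⟩ := h6
    have h7 : swp N' ∈ (Submodule.span k U).map
        (swp : MvPolynomial (Fin 2) k →ₐ[k] MvPolynomial (Fin 2) k).toLinearMap :=
      ⟨N', h5 N' hN', rfl⟩
    rwa [Submodule.map_span] at h7

/-- **Row `GA8`**: a real pair without noise in the second variable. -/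
theorem rowReal [hp : Fact p.Prime] [CharP k p] [CharP Ω p] [IsAlgClosed k] [IsAlgClosed Ω]
    (hcore : Core (k := k) (Ω := Ω) p v) (hTrn : RowTrn (k := k) p v)
    (hNF : RowNF (k := k) p v) (hG : RowG (k := k) p v) (hWN : RowWN (k := k) p v)
    (hE : RowE (k := k) p v) (hHn : RowHn (k := k) p v) (hGr : RowGr (k := k) p v) :
    RowReal (k := k) p v := by
  intro L Wr Fr Kr W' F' K' S π x z a zr ar X₀ d m cx D w ρ hGL hP
  have hg := hGL.grd
  choose c hc hv using fun i => hg.all (ρ i)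
  obtain ⟨φ, hφ, R, hCG⟩ := exists_rec hTrn hNF hG hGL hP hc hv
  have hk := hCG.c0
  have hkp : ∀ (x : k) (n : ℕ), ∃ y : k, y ^ p ^ n = x := fun x n =>
    IsAlgClosed.exists_pow_nat_eq x (Nat.pow_pos hp.out.pos)
  have hr0 : RPr v Wr Fr S (fun i => QuotientAddGroup.mk (ρ i)) (fun i => w i / c i) :=
    ⟨w, ρ, c, hP, hc, hv, rfl, rfl⟩
  have hgr : ∀ N ∈ R.WN, ∀ γ : ℝ ⧸ VG v Wr,
      cmp (fun i => (QuotientAddGroup.mk (ρ i) : ℝ ⧸ VG v Wr)) γ N ∈ R.WN :=
    hGr L Wr Fr Kr W' F' K' S π x z a zr ar X₀ d m cx D w ρ c φ R hGL hP hc hv hφ hCG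
  obtain ⟨E, hEA, b, hEb⟩ := core_rp hcore hCG (torsion_free hg)
    (RP := RPr v Wr Fr S)
    (fun r y lam e h1 h2 h3 => h1.step hk hg h2 h3) (fun r y h1 => h1.swap)
    (fun r y h1 => by
      obtain ⟨w, ρ, c, hP, hc, hv, rfl, -⟩ := h1
      exact (hGL.hd w ρ hP c hc hv).par)
    (fun r y h1 => by
      obtain ⟨w, ρ, c, hP, hc, hv, rfl, -⟩ := h1
      exact hGL.mv w ρ hP c hc hv) hr0 hgr
  have hWN1 := hWN L W' F' K' _ x (z - φ) a R hCG
  set U : Set (MvPolynomial (Fin 2) k) := {Q | Q ∈ R.WN ∧ ∃ γ : ℝ ⧸ VG v Wr,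
    Hm (fun i => (QuotientAddGroup.mk (ρ i) : ℝ ⧸ VG v Wr)) γ Q} with hU
  obtain ⟨u, u', hAu, hUn⟩ := exists_au (p := p) hEA (V := U) fun N hN => hEb N hN.1
  have hP0 : PRs v Wr Fr W' F' S (z - φ) R.e (fun i => QuotientAddGroup.mk (ρ i)) U :=
    ⟨_, R.T, R.D, R.dd, hr0, hCG.trn, hCG.drt,
      fun he => hHn L W' F' K' _ x (z - φ) a R hCG he, fun N hN => by
        rw [← hWN1] at hN
        exact TWTG.mem_span_hom hgr hN⟩
  obtain ⟨r', U', ⟨y, T, D', dd, ⟨w', ρ', c', hP', hc', hv', rfl, -⟩, hT, hD, hnat, hUS⟩, hU'⟩ :=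
    TWTG.Au.real (torsion_free hg) hkp (P := PRs v Wr Fr W' F' S (z - φ) R.e)
      (fun r U n lam h1 h2 h3 => h1.step hk hg h2 h3) (fun r U h1 => h1.swap) hP0
      (fun Q hQ => hQ.2) hAu hUn
  obtain ⟨φ', hφ', R', hCG'⟩ := exists_rec hTrn hNF hG hGL hP' hc' hv'
  refine ⟨w', ρ', c', φ', R', hP', hc', hv', hφ', hCG', fun N hN => ?_⟩
  have he : R.e = 0 ↔ R'.e = 0 :=
    ⟨fun h => hE L L W' F' K' _ _ x z φ φ' a R R' hφ hφ' hCG hCG' h,
      fun h => hE L L W' F' K' _ _ x z φ' φ a R' R hφ' hφ hCG' hCG h⟩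
  rw [hWN L W' F' K' _ x (z - φ') a R' hCG', ← US_eq hk hCG.full hT hD hCG'.trn hCG'.drt hφ hφ'
    hCG.zt.lim he hnat (fun he => hHn L W' F' K' _ x (z - φ') a R' hCG' he)] at hN
  exact free_of_span hU' (hUS N hN)

end real

end Pool.Agent.TWRA
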