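import Pool.Agent.Lib.TWRA.Defs
import Pool.Agent.Lib.TWCY.Mot
import Pool.Agent.Lib.TWCY.E1

/-!
# CT, row A (GA8a): the elementary step and the exchange

The pair `![y 0, y 1 - lam y 0 ^ (p ^ d)]` and the pair `![y 1, y 0]`: the translations, the
derivations and the space `US`.
-/

set_option autoImplicit false

open MvPolynomial

namespace Pool.Agent.TWRA

open Pool.Agent.H15JM (RVal)
open Pool.Agent.LU1 (VPos)
open Pool.Agent.D2 (Ctx0)
open Pool.Agent.TWM
open Pool.Agent.TWS (IsoE SphC PM VG)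
open Pool.Agent.TWN1 (Par)
open Pool.Agent.TWLY
open Pool.Agent.TWCY
open Pool.Agent.TWTG (stp swp stc NU NU_congr eval_stp eval_swp mem_NU_step mem_NU_swp)

universe u

variable {k Ω : Type u} [Field k] [Field Ω] [Algebra k Ω] {v : RVal Ω}
  {W F : IntermediateField k Ω} {y : Fin 2 → Ω} {T : (Fin 2 → k) → Ω →ₐ[k] Ω} {D : Ω → Ω}
  {dd : Fin 2 → Ω → Ω} {p : ℕ} {lam : k} {d : ℕ}

/-! ### The data -/

/-- The pair after the step. -/
def stw (p : ℕ) (lam : k) (d : ℕ) (y : Fin 2 → Ω) : Fin 2 → Ω :=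
  ![y 0, y 1 - algebraMap k Ω lam * y 0 ^ p ^ d]

/-- The translations after the step. -/
def stT (p : ℕ) (lam : k) (d : ℕ) (T : (Fin 2 → k) → Ω →ₐ[k] Ω) : (Fin 2 → k) → Ω →ₐ[k] Ω :=
  fun c => T (stc p lam d c)

/-- The derivations after the step. -/
def stD (lam : k) (d : ℕ) (dd : Fin 2 → Ω → Ω) : Fin 2 → Ω → Ω :=
  ![fun f => dd 0 f + algebraMap k Ω (if d = 0 then lam else 0) * dd 1 f, dd 1]

/-- The pair after the exchange. -/
def sww (y : Fin 2 → Ω) : Fin 2 → Ω := ![y 1, y 0]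

/-- The translations after the exchange. -/
def swT (T : (Fin 2 → k) → Ω →ₐ[k] Ω) : (Fin 2 → k) → Ω →ₐ[k] Ω := fun c => T ![c 1, c 0]

/-- The derivations after the exchange. -/
def swD (dd : Fin 2 → Ω → Ω) : Fin 2 → Ω → Ω := ![dd 1, dd 0]

/-! ### The translations -/

theorem stc_add [Fact p.Prime] [CharP k p] (c c' : Fin 2 → k) :
    stc p lam d (c + c') = stc p lam d c + stc p lam d c' := by
  funext i
  fin_cases i
  · rfl
  · show (c + c') 1 + lam * (c + c') 0 ^ p ^ d = (c 1 + lam * c 0 ^ p ^ d) + (c' 1 + lam * c' 0 ^ p ^ d)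
    rw [Pi.add_apply, Pi.add_apply, add_pow_char_pow]
    ring

theorem bind_mem_MI {q : MvPolynomial (Fin 2) Ω} (hq : q ∈ MI W)
    {g : Fin 2 → MvPolynomial (Fin 2) Ω} (hg : ∀ i, g i ∈ MI W) : bind₁ g q ∈ MI W := by
  have e : bind₁ g q = ∑ m ∈ q.support, C (coeff m q) * ∏ i, g i ^ m i := by
    rw [bind₁, aeval_def, eval₂_eq']
    rfl
  rw [e]
  exact sum_mem fun m _ => mul_mem (C_mem_MI (hq m)) (prod_mem fun i _ => pow_mem (hg i) _)

theorem eval_bind (x : Fin 2 → Ω) (g : Fin 2 → MvPolynomial (Fin 2) Ω)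
    (q : MvPolynomial (Fin 2) Ω) : eval x (bind₁ g q) = eval (fun i => eval x (g i)) q := by
  induction q using MvPolynomial.induction_on with
  | C a => rw [bind₁_C_right, eval_C, eval_C]
  | add P Q hP hQ => rw [map_add, map_add, hP, hQ, map_add]
  | mul_X P i hP => rw [map_mul, map_mul, hP, bind₁_X_right, map_mul, eval_X]

theorem trn_step [Fact p.Prime] [CharP k p] [CharP Ω p] (hT : Trn v W F y T) :
    Trn v W F (stw p lam d y) (stT p lam d T) where
  le := hT.le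
  iso c := hT.iso _
  fix c := hT.fix _
  wF i := by
    fin_cases i
    · exact hT.wF 0
    · exact sub_mem (hT.wF 1) (mul_mem (F.algebraMap_mem _) (pow_mem (hT.wF 0) _))
  wT c i := by
    fin_cases i
    · exact hT.wT _ 0
    · show T (stc p lam d c) (y 1 - algebraMap k Ω lam * y 0 ^ p ^ d) =
        y 1 - algebraMap k Ω lam * y 0 ^ p ^ d + algebraMap k Ω (c 1)
      rw [map_sub, map_mul, map_pow, AlgHom.commutes, hT.wT, hT.wT, add_pow_char_pow]
      show y 1 + algebraMap k Ω (c 1 + lam * c 0 ^ p ^ d) -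
        algebraMap k Ω lam * (y 0 ^ p ^ d + algebraMap k Ω (c 0) ^ p ^ d) = _
      rw [map_add, map_mul, map_pow]
      ring
  mem c := hT.mem _
  add c c' f hf := by
    show T (stc p lam d c) (T (stc p lam d c') f) = T (stc p lam d (c + c')) f
    rw [stc_add]
    exact hT.add _ _ f hf
  dns f hf r := by
    obtain ⟨q, hq, h1⟩ := hT.dns f hf r
    refine ⟨bind₁ ![X 0, X 1 + C (algebraMap k Ω lam) * X 0 ^ p ^ d] q,
      bind_mem_MI hq (fun i => ?_), ?_⟩
    · fin_cases i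
      · exact X_mem_MI 0
      · exact add_mem (X_mem_MI 1) (mul_mem (C_mem_MI (W.algebraMap_mem _)) (pow_mem (X_mem_MI 0) _))
    · rw [eval_bind]
      have e : (fun i => eval (stw p lam d y) ((![X 0, X 1 + C (algebraMap k Ω lam) * X 0 ^ p ^ d] :
          Fin 2 → MvPolynomial (Fin 2) Ω) i)) = y := by
        funext i
        fin_cases i
        · show eval (stw p lam d y) (X 0) = y 0
          rw [eval_X]
          rfl
        · show eval (stw p lam d y) (X 1 + C (algebraMap k Ω lam) * X 0 ^ p ^ d) = y 1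
          rw [map_add, map_mul, map_pow, eval_X, eval_X, eval_C]
          show y 1 - algebraMap k Ω lam * y 0 ^ p ^ d + algebraMap k Ω lam * y 0 ^ p ^ d = y 1
          ring
      rw [e]
      exact h1

theorem trn_swap (hT : Trn v W F y T) : Trn v W F (sww y) (swT T) where
  le := hT.le
  iso c := hT.iso _
  fix c := hT.fix _
  wF i := by
    fin_cases i
    · exact hT.wF 1
    · exact hT.wF 0
  wT c i := by
    fin_cases i
    · exact hT.wT _ 1
    · exact hT.wT _ 0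
  mem c := hT.mem _
  add c c' f hf := by
    show T ![c 1, c 0] (T ![c' 1, c' 0] f) = T ![(c + c') 1, (c + c') 0] f
    rw [hT.add _ _ f hf]
    congr 2
    funext i
    fin_cases i
    · rfl
    · rfl
  dns f hf r := by
    obtain ⟨q, hq, h1⟩ := hT.dns f hf r
    refine ⟨bind₁ ![X 1, X 0] q, bind_mem_MI hq (fun i => ?_), ?_⟩
    · fin_cases i
      · exact X_mem_MI 1
      · exact X_mem_MI 0
    · rw [eval_bind]
      have e : (fun i => eval (sww y) ((![X 1, X 0] : Fin 2 → MvPolynomial (Fin 2) Ω) i)) = y := by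
        funext i
        fin_cases i
        · show eval (sww y) (X 1) = y 0
          rw [eval_X]
          rfl
        · show eval (sww y) (X 0) = y 1
          rw [eval_X]
          rfl
      rw [e]
      exact h1

/-! ### The derivations -/

theorem lim_smul (hk : Ctx0 k v) {r : ℝ} {x : Ω} (hx : Lim v W r x) (c : k) :
    Lim v W r (algebraMap k Ω c * x) := fun ε hε => by
  obtain ⟨a, ha, h1⟩ := hx ε hε
  refine ⟨algebraMap k Ω c * a, mul_mem (W.algebraMap_mem c) ha, ?_⟩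
  have h2 := (hk.ge c).mul h1
  rwa [zero_add, mul_sub] at h2

theorem drvT_step [hp : Fact p.Prime] [CharP Ω p] (hk : Ctx0 k v) (hF : ∀ i, y i ∈ F)
    (hD : DrvT v W F y T D dd) :
    DrvT v W F (stw p lam d y) (stT p lam d T) D (stD lam d dd) := by
  set μ : k := if d = 0 then lam else 0 with hμ
  have hpow : ∀ E : Ω → Ω, Drv v F E → E (y 0 ^ p ^ d) = if d = 0 then E (y 0) else 0 := by
    intro E hE
    split_ifs with h0
    · rw [h0, pow_zero, pow_one]
    · obtain ⟨e, rfl⟩ := Nat.exists_eq_succ_of_ne_zero h0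
      rw [Nat.succ_eq_add_one, pow_succ, pow_mul, hE.pow_p hp.out.ne_zero (pow_mem (hF 0) _)]
  have hst : ∀ E : Ω → Ω, Drv v F E → E (y 1 - algebraMap k Ω lam * y 0 ^ p ^ d) =
      E (y 1) - algebraMap k Ω μ * E (y 0) := by
    intro E hE
    have h1 : y 0 ^ p ^ d ∈ F := pow_mem (hF 0) _
    rw [hE.sub (hF 1) (mul_mem (F.algebraMap_mem _) h1), hE.mul _ (F.algebraMap_mem _) _ h1, hE.alg,
      mul_zero, add_zero, hpow E hE, hμ]
    split_ifs
    · rfl
    · rw [mul_zero, map_zero, zero_mul]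
  refine ⟨hD.drv, fun i => ?_, hD.dW, fun i => ?_, fun i f hf => ?_, fun i f hf => ?_, fun i j => ?_⟩
  · fin_cases i
    · refine ⟨fun f hf g hg => ?_, fun f hf g hg => ?_, fun c => ?_, fun f hf r hr => ?_⟩
      · show dd 0 (f + g) + algebraMap k Ω μ * dd 1 (f + g) = _
        rw [(hD.drvi 0).add f hf g hg, (hD.drvi 1).add f hf g hg]
        show _ = (dd 0 f + algebraMap k Ω μ * dd 1 f) + (dd 0 g + algebraMap k Ω μ * dd 1 g)
        ring
      · show dd 0 (f * g) + algebraMap k Ω μ * dd 1 (f * g) = _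
        rw [(hD.drvi 0).mul f hf g hg, (hD.drvi 1).mul f hf g hg]
        show _ = f * (dd 0 g + algebraMap k Ω μ * dd 1 g) + g * (dd 0 f + algebraMap k Ω μ * dd 1 f)
        ring
      · show dd 0 (algebraMap k Ω c) + algebraMap k Ω μ * dd 1 (algebraMap k Ω c) = 0
        rw [(hD.drvi 0).alg, (hD.drvi 1).alg, mul_zero, add_zero]
      · show v.Ge r (dd 0 f + algebraMap k Ω μ * dd 1 f)
        have h2 := (hk.ge μ).mul ((hD.drvi 1).norm f hf r hr)
        rw [zero_add] at h2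
        exact ((hD.drvi 0).norm f hf r hr).add h2
    · exact hD.drvi 1
  · fin_cases i
    · exact hD.dL 0
    · show Lim v W 0 (D (y 1 - algebraMap k Ω lam * y 0 ^ p ^ d))
      rw [hst D hD.drv]
      exact (hD.dL 1).sub (lim_smul hk (hD.dL 0) μ)
  · fin_cases i
    · exact add_mem (hD.ddF 0 f hf) (mul_mem (F.algebraMap_mem _) (hD.ddF 1 f hf))
    · exact hD.ddF 1 f hf
  · fin_cases i
    · show dd 0 f + algebraMap k Ω μ * dd 1 f = 0
      rw [hD.ddW 0 f hf, hD.ddW 1 f hf, mul_zero, add_zero]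
    · exact hD.ddW 1 f hf
  · fin_cases i
    · fin_cases j
      · show dd 0 (y 0) + algebraMap k Ω μ * dd 1 (y 0) = _
        rw [hD.ddw, hD.ddw]
        simp
      · show dd 0 (y 1 - algebraMap k Ω lam * y 0 ^ p ^ d) +
          algebraMap k Ω μ * dd 1 (y 1 - algebraMap k Ω lam * y 0 ^ p ^ d) = _
        rw [hst _ (hD.drvi 0), hst _ (hD.drvi 1), hD.ddw, hD.ddw, hD.ddw, hD.ddw]
        simp
    · fin_cases j
      · show dd 1 (y 0) = _
        rw [hD.ddw]
        simp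
      · show dd 1 (y 1 - algebraMap k Ω lam * y 0 ^ p ^ d) = _
        rw [hst _ (hD.drvi 1), hD.ddw, hD.ddw]
        simp

theorem drvT_swap (hD : DrvT v W F y T D dd) : DrvT v W F (sww y) (swT T) D (swD dd) := by
  refine ⟨hD.drv, fun i => ?_, hD.dW, fun i => ?_, fun i f hf => ?_, fun i f hf => ?_, fun i j => ?_⟩
  · fin_cases i
    · exact hD.drvi 1
    · exact hD.drvi 0
  · fin_cases i
    · exact hD.dL 1
    · exact hD.dL 0
  · fin_cases i
    · exact hD.ddF 1 f hf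
    · exact hD.ddF 0 f hf
  · fin_cases i
    · exact hD.ddW 1 f hf
    · exact hD.ddW 0 f hf
  · fin_cases i
    · fin_cases j
      · exact (hD.ddw 1 1).trans (by simp)
      · exact (hD.ddw 1 0).trans (by simp)
    · fin_cases j
      · exact (hD.ddw 0 1).trans (by simp)
      · exact (hD.ddw 0 0).trans (by simp)

/-! ### The space -/

theorem z1_congr {dd' : Fin 2 → Ω → Ω} (h : ∀ f ∈ F, (∀ i, Gt v 0 (dd' i f)) ↔ ∀ i, Gt v 0 (dd i f)) :
    Z1 v F dd' = Z1 v F dd := by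
  unfold Z1
  congr 1
  ext y
  constructor
  · rintro ⟨f, hf, h1, h2⟩
    exact ⟨f, hf, (h f hf).1 h1, h2⟩
  · rintro ⟨f, hf, h1, h2⟩
    exact ⟨f, hf, (h f hf).2 h1, h2⟩

theorem gt_smul (hk : Ctx0 k v) {x : Ω} (hx : Gt v 0 x) (c : k) : Gt v 0 (algebraMap k Ω c * x) := by
  intro h0
  have hc : c ≠ 0 := by
    rintro rfl
    exact h0 (by rw [map_zero, zero_mul])
  have hc' : algebraMap k Ω c ≠ 0 := by rwa [Ne, map_eq_zero]
  have hx0 : x ≠ 0 := right_ne_zero_of_mul h0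
  rw [v.map_mul hc' hx0, hk.triv _ hc, zero_add]
  exact hx hx0

theorem z1_step (hk : Ctx0 k v) : Z1 v F (stD lam d dd) = Z1 v F dd := by
  refine z1_congr fun f hf => ⟨fun h i => ?_, fun h i => ?_⟩
  · have h0 : Gt v 0 (dd 0 f + algebraMap k Ω (if d = 0 then lam else 0) * dd 1 f) := h 0
    have h1 : Gt v 0 (dd 1 f) := h 1
    fin_cases i
    · have h2 := h0.sub (gt_smul hk h1 (if d = 0 then lam else 0))
      rwa [add_sub_cancel_right] at h2
    · exact h1
  · fin_cases i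
    · exact (h 0).add (gt_smul hk (h 1) _)
    · exact h 1

theorem z1_swap : Z1 v F (swD dd) = Z1 v F dd := by
  refine z1_congr fun f hf => ⟨fun h i => ?_, fun h i => ?_⟩
  · fin_cases i
    · exact h 1
    · exact h 0
  · fin_cases i
    · exact h 1
    · exact h 0

/-- **The step on `US`.** -/
theorem US_step [Infinite k] (hk : Ctx0 k v) (z : Ω) (e : k) :
    (US v F (stT p lam d T) (stD lam d dd) z e : Set (MvPolynomial (Fin 2) k)) =
      stp p lam d '' (US v F T dd z e : Set (MvPolynomial (Fin 2) k)) := by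
  unfold US
  rw [z1_step hk]
  ext N
  constructor
  · intro h
    exact mem_NU_step (y := fun c => T c z - z) h
  · rintro ⟨N', ⟨l, h1, h2⟩, rfl⟩
    exact ⟨l, h1, fun c => by rw [eval_stp, h2]; rfl⟩

/-- **The exchange on `US`.** -/
theorem US_swap [Infinite k] (z : Ω) (e : k) :
    (US v F (swT T) (swD dd) z e : Set (MvPolynomial (Fin 2) k)) =
      swp '' (US v F T dd z e : Set (MvPolynomial (Fin 2) k)) := by
  unfold US
  rw [z1_swap]
  ext N
  constructor
  · intro h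
    exact mem_NU_swp (y := fun c => T c z - z) h
  · rintro ⟨N', ⟨l, h1, h2⟩, rfl⟩
    exact ⟨l, h1, fun c => by rw [eval_swp, h2]; rfl⟩

/-! ### The real pairs -/

section real

variable {Wr Fr Kr W' F' K' : IntermediateField k Ω} {S : Set Ω} {π : Ω → Ω} {w c : Fin 2 → Ω}
  {ρ : Fin 2 → ℝ}

theorem Grd.pow_mem (h : Grd p v Wr Fr Kr W' F' K' S π) {a : Ω} (ha : a ∈ S) (n : ℕ) :
    a ^ n ∈ S := by
  induction n with
  | zero =>
    rw [pow_zero]
    exact h.bas 1 (one_mem _) one_ne_zero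
  | succ n ih =>
    rw [pow_succ]
    exact h.mul _ ih _ ha

/-- **The step of a real pair.** -/
theorem par_step [Fact p.Prime] [CharP Ω p] [IsAlgClosed Ω] (hk : Ctx0 k v) (h : Grd p v Wr Fr Kr W' F' K' S π)
    (hP : Par v Wr Fr (w 0) (ρ 0) (w 1) (ρ 1)) (hc : ∀ i, c i ∈ S) (hv : ∀ i, v (c i) = ρ i)
    (hlam : lam ≠ 0) (hr : ρ 1 - p ^ d * ρ 0 ∈ VG v Wr) :
    ∃ w' : Fin 2 → Ω, Par v Wr Fr (w' 0) (ρ 0) (w' 1) (ρ 1) ∧
      (fun i => w' i / c i) = stw p lam d fun i => w i / c i := by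
  have hl0 : algebraMap k Ω lam ≠ 0 := by rwa [Ne, map_eq_zero]
  have h0 := h.ne _ (hc 0)
  have h1 := h.ne _ (hc 1)
  have hp0 : c 0 ^ p ^ d ≠ 0 := pow_ne_zero _ h0
  set l : Ω := algebraMap k Ω lam * (c 1 * (c 0 ^ p ^ d)⁻¹) with hl
  have hlS : l ∈ S := h.mul _ (h.bas _ (Wr.algebraMap_mem lam) hl0) _
    (h.mul _ (hc 1) _ (h.inv _ (h.pow_mem (hc 0) _)))
  have hvl : v l = ρ 1 - p ^ d * ρ 0 := by
    rw [hl, v.map_mul hl0 (mul_ne_zero h1 (inv_ne_zero hp0)), hk.triv _ hlam, zero_add,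
      v.map_mul h1 (inv_ne_zero hp0), v.map_inv hp0, v.map_pow h0, hv, hv]
    push_cast
    ring
  have hlW : l ∈ Wr := h.real l hlS (by rw [hvl]; exact hr)
  have h2 := hP.step (p := p) (s := -l) (neg_mem hlW) (d := d) (by
    rw [← hvl]
    exact (RVal.ge_self (v := v) l).neg)
  refine ⟨![w 0, w 1 + -l * w 0 ^ p ^ d], h2, ?_⟩
  funext i
  fin_cases i
  · rfl
  · show (w 1 + -l * w 0 ^ p ^ d) / c 1 = w 1 / c 1 - algebraMap k Ω lam * (w 0 / c 0) ^ p ^ d
    rw [hl, div_pow]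
    field_simp
    ring

/-- **The exchange of a real pair.** -/
theorem par_swap (hP : Par v Wr Fr (w 0) (ρ 0) (w 1) (ρ 1)) :
    Par v Wr Fr (sww w 0) (![ρ 1, ρ 0] 0) (sww w 1) (![ρ 1, ρ 0] 1) ∧
      (fun i => sww w i / sww c i) = sww fun i => w i / c i := by
  refine ⟨hP.symm, ?_⟩
  funext i
  fin_cases i
  · rfl
  · rfl

theorem sub_mem_of_mk {d : ℕ} (h : (QuotientAddGroup.mk (ρ 1) : ℝ ⧸ VG v Wr) =
    p ^ d • (QuotientAddGroup.mk (ρ 0) : ℝ ⧸ VG v Wr)) : ρ 1 - p ^ d * ρ 0 ∈ VG v Wr := by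
  have h1 : p ^ d • (QuotientAddGroup.mk (ρ 0) : ℝ ⧸ VG v Wr) =
      QuotientAddGroup.mk (p ^ d • ρ 0) := rfl
  rw [h1, QuotientAddGroup.eq] at h
  have h2 := neg_mem h
  rw [neg_add, neg_neg, nsmul_eq_mul] at h2
  push_cast at h2
  rwa [sub_eq_add_neg]

end real

end Pool.Agent.TWRA

namespace Pool.Agent.TWCY

open Pool.Agent.H15JM (RVal)
open Pool.Agent.D2 (Ctx0)

universe u

variable {k Ω : Type u} [Field k] [Field Ω] [Algebra k Ω] {v : RVal Ω}
  {W F : IntermediateField k Ω} {y : Fin 2 → Ω} {T : (Fin 2 → k) → Ω →ₐ[k] Ω} {D : Ω → Ω}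
  {dd : Fin 2 → Ω → Ω} {p : ℕ}

theorem Trn.step [Fact p.Prime] [CharP k p] [CharP Ω p] (lam : k) (d : ℕ) (hT : Trn v W F y T) :
    Trn v W F ![y 0, y 1 - algebraMap k Ω lam * y 0 ^ p ^ d] (fun c => T (TWTG.stc p lam d c)) :=
  TWRA.trn_step hT

theorem Trn.swap (hT : Trn v W F y T) : Trn v W F ![y 1, y 0] (fun c => T ![c 1, c 0]) :=
  TWRA.trn_swap hT

theorem DrvT.step [Fact p.Prime] [CharP Ω p] (lam : k) (d : ℕ) (T' : (Fin 2 → k) → Ω →ₐ[k] Ω)
    (hk : Ctx0 k v) (hF : ∀ i, y i ∈ F) (hD : DrvT v W F y T D dd) :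
    DrvT v W F ![y 0, y 1 - algebraMap k Ω lam * y 0 ^ p ^ d] T' D
      ![fun f => dd 0 f + (if d = 0 then algebraMap k Ω lam * dd 1 f else 0), dd 1] := by
  have h1 := TWRA.drvT_step (p := p) (lam := lam) (d := d) hk hF hD
  have e : TWRA.stD lam d dd =
      ![fun f => dd 0 f + (if d = 0 then algebraMap k Ω lam * dd 1 f else 0), dd 1] := by
    unfold TWRA.stD
    congr 1
    funext f
    congr 1
    split_ifs
    · rfl
    · rw [map_zero, zero_mul]
  rw [e] at h1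
  exact ⟨h1.drv, h1.drvi, h1.dW, h1.dL, h1.ddF, h1.ddW, h1.ddw⟩

theorem DrvT.swap (T' : (Fin 2 → k) → Ω →ₐ[k] Ω) (hD : DrvT v W F y T D dd) :
    DrvT v W F ![y 1, y 0] T' D ![dd 1, dd 0] := by
  have h1 := TWRA.drvT_swap hD
  exact ⟨h1.drv, h1.drvi, h1.dW, h1.dL, h1.ddF, h1.ddW, h1.ddw⟩

end Pool.Agent.TWCY
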